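import Pool.Agent.P.MP_1206ce_ag.AC.Defs

/-! The action of the Weyl group on basis vectors, pieces, cocharacters and polynomials. -/

noncomputable section

open MvPolynomial

namespace Pool.Agent.HK.AC

variable {Q : Qv}

theorem W_inl {w : Equiv.Perm Q.Var} (hw : w ∈ Wl Q.lab) (k : Fin Q.nB) :
    ∃ k', w (Sum.inl k) = Sum.inl k' ∧ Q.vt k' = Q.vt k := by
  have h := mem_Wl.1 hw (Sum.inl k)
  rcases hx : w (Sum.inl k) with k' | a
  · rw [hx] at h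
    exact ⟨k', rfl, by simpa [Qv.lab] using h⟩
  · rw [hx] at h
    simp [Qv.lab] at h
theorem W_inr {w : Equiv.Perm Q.Var} (hw : w ∈ Wl Q.lab) (a : Fin Q.nT) :
    w (Sum.inr a) = Sum.inr a := by
  have h := mem_Wl.1 hw (Sum.inr a)
  rcases hx : w (Sum.inr a) with k' | b
  · rw [hx] at h
    simp [Qv.lab] at h
  · rw [hx] at h
    simpa [Qv.lab] using h
theorem wb_none (w : Equiv.Perm Q.Var) : wb Q w none = none := rfl
theorem wb_some {w : Equiv.Perm Q.Var} {k k' : Fin Q.nB} (h : w (Sum.inl k) = Sum.inl k') :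
    wb Q w (some k) = some k' := by
  simp [wb, h]
theorem wb_one (x : Bt Q) : wb Q 1 x = x := by
  cases x <;> simp [wb]
theorem wb_mul {w w' : Equiv.Perm Q.Var} (hw' : w' ∈ Wl Q.lab) (x : Bt Q) :
    wb Q (w * w') x = wb Q w (wb Q w' x) := by
  rcases x with _ | k
  · rfl
  · obtain ⟨k', hk, -⟩ := W_inl hw' k
    rw [wb_some hk]
    simp [wb, hk]
theorem wb_inv_wb {w : Equiv.Perm Q.Var} (hw : w ∈ Wl Q.lab) (x : Bt Q) :
    wb Q w⁻¹ (wb Q w x) = x := by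
  rw [← wb_mul hw, inv_mul_cancel, wb_one]
theorem wb_wb_inv {w : Equiv.Perm Q.Var} (hw : w ∈ Wl Q.lab) (x : Bt Q) :
    wb Q w (wb Q w⁻¹ x) = x := by
  rw [← wb_mul (inv_mem_Wl hw), mul_inv_cancel, wb_one]
theorem wb_bijective {w : Equiv.Perm Q.Var} (hw : w ∈ Wl Q.lab) :
    Function.Bijective (wb Q w) := Function.bijective_iff_has_inverse.2 ⟨wb Q w⁻¹, wb_inv_wb hw, wb_wb_inv hw⟩
theorem vb_wb {w : Equiv.Perm Q.Var} (hw : w ∈ Wl Q.lab) (x : Bt Q) :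
    Q.vb (wb Q w x) = Q.vb x := by
  rcases x with _ | k
  · rfl
  · obtain ⟨k', hk, hv⟩ := W_inl hw k
    rw [wb_some hk]
    simp [Qv.vb, hv]
theorem rename_xv {w : Equiv.Perm Q.Var} (hw : w ∈ Wl Q.lab) (x : Bt Q) :
    rename w (Q.xv x) = Q.xv (wb Q w x) := by
  rcases x with _ | k
  · simp [Qv.xv, wb_none]
  · obtain ⟨k', hk, -⟩ := W_inl hw k
    rw [wb_some hk]
    simp [Qv.xv, hk]
theorem rename_bw {w : Equiv.Perm Q.Var} (hw : w ∈ Wl Q.lab) (h : Fin Q.nA) :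
    rename w (Q.bw h) = Q.bw h := by
  unfold Qv.bw
  rw [map_sum]
  refine Finset.sum_congr rfl fun a _ => ?_
  rw [map_mul, rename_C, rename_X, W_inr hw]
theorem rename_wtP {w : Equiv.Perm Q.Var} (hw : w ∈ Wl Q.lab) (p : Q.Ps) :
    rename w (Q.wtP p) = Q.wtP (p.1, wb Q w p.2.1, wb Q w p.2.2) := by
  unfold Qv.wtP
  rw [map_add, map_sub, rename_xv hw, rename_xv hw, rename_bw hw]
theorem mem_WI_wb {w : Equiv.Perm Q.Var} (hw : w ∈ Wl Q.lab) (p : Q.Ps) :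
    (p.1, wb Q w p.2.1, wb Q w p.2.2) ∈ Q.WI ↔ p ∈ Q.WI := by
  simp only [Qv.WI, Finset.mem_filter, Finset.mem_univ, true_and, vb_wb hw]

theorem lv_add (l m : Q.Lam) (x : Bt Q) : Q.lv (l + m) x = Q.lv l x + Q.lv m x := by
  cases x <;> simp [Qv.lv]
theorem lv_zero (x : Bt Q) : Q.lv 0 x = 0 := by
  cases x <;> simp [Qv.lv]
theorem lv_ext {l m : Q.Lam} (h : ∀ x, Q.lv l x = Q.lv m x) : l = m := funext fun k => h (some k)
theorem lv_mu (F : Pc Q) (x : Bt Q) :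
    Q.lv (mu Q F) x = (if x ∈ F then 1 else 0) - (if none ∈ F then 1 else 0) := by
  rcases x with _ | k
  · simp [Qv.lv]
  · rfl
theorem lv_wl {w : Equiv.Perm Q.Var} (hw : w ∈ Wl Q.lab) (l : Q.Lam) (x : Bt Q) :
    Q.lv (Q.wl w l) (wb Q w x) = Q.lv l x := by
  rcases x with _ | k
  · rfl
  · obtain ⟨k', hk, -⟩ := W_inl hw k
    rw [wb_some hk]
    change Sum.elim l 0 (w.symm (Sum.inl k')) = l k
    rw [← hk, Equiv.symm_apply_apply]
    rfl
theorem Act_lv_wl {w : Equiv.Perm Q.Var} (hw : w ∈ Wl Q.lab) (l : Q.Lam) (x : Bt Q) :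
    Q.lv (Q.wl w l) x = Q.lv l (wb Q w⁻¹ x) := by
  rw [← lv_wl hw l (wb Q w⁻¹ x), wb_wb_inv hw]
theorem wl_one (l : Q.Lam) : Q.wl 1 l = l := rfl
theorem wl_mul {w w' : Equiv.Perm Q.Var} (hw : w ∈ Wl Q.lab) (l : Q.Lam) :
    Q.wl (w * w') l = Q.wl w (Q.wl w' l) := by
  funext k
  obtain ⟨k', hk, -⟩ := W_inl (inv_mem_Wl hw) k
  have hk' : w.symm (Sum.inl k) = Sum.inl k' := hk
  change Sum.elim l 0 (w'.symm (w.symm (Sum.inl k))) = Sum.elim (Q.wl w' l) 0 (w.symm (Sum.inl k))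
  rw [hk']
  rfl
theorem wl_add (w : Equiv.Perm Q.Var) (l m : Q.Lam) :
    Q.wl w (l + m) = Q.wl w l + Q.wl w m := by
  funext k
  change Sum.elim (l + m) 0 (w.symm (Sum.inl k)) =
    Sum.elim l 0 (w.symm (Sum.inl k)) + Sum.elim m 0 (w.symm (Sum.inl k))
  cases w.symm (Sum.inl k) <;> simp
theorem wl_zero (w : Equiv.Perm Q.Var) : Q.wl w 0 = 0 := by
  funext k
  change Sum.elim (0 : Q.Lam) 0 (w.symm (Sum.inl k)) = 0
  cases w.symm (Sum.inl k) <;> simp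
theorem wl_inv_wl {w : Equiv.Perm Q.Var} (hw : w ∈ Wl Q.lab) (l : Q.Lam) :
    Q.wl w⁻¹ (Q.wl w l) = l := by
  rw [← wl_mul (inv_mem_Wl hw), inv_mul_cancel, wl_one]
theorem wl_wl_inv {w : Equiv.Perm Q.Var} (hw : w ∈ Wl Q.lab) (l : Q.Lam) :
    Q.wl w (Q.wl w⁻¹ l) = l := by
  rw [← wl_mul hw, mul_inv_cancel, wl_one]
theorem WO_refl (l : Q.Lam) : WO Q l l := ⟨1, one_mem_Wl _, (wl_one l).symm⟩
theorem WO_symm {l m : Q.Lam} (h : WO Q l m) : WO Q m l := by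
  obtain ⟨w, hw, rfl⟩ := h
  exact ⟨w⁻¹, inv_mem_Wl hw, (wl_inv_wl hw l).symm⟩
theorem WO_trans {l m n : Q.Lam} (h : WO Q l m) (h' : WO Q m n) : WO Q l n := by
  obtain ⟨w, hw, rfl⟩ := h
  obtain ⟨w', hw', rfl⟩ := h'
  exact ⟨w' * w, mul_mem_Wl hw' hw, (wl_mul hw' l).symm⟩
theorem Act_nsq (l : Q.Lam) : Q.nsq l = ∑ x : Bt Q, Q.lv l x ^ 2 := by
  rw [Fintype.sum_option]
  simp [Qv.nsq, Qv.lv]
/-- The action on basis vectors as a permutation. -/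
def Act_e {w : Equiv.Perm Q.Var} (hw : w ∈ Wl Q.lab) : Equiv.Perm (Bt Q) where
  toFun := wb Q w
  invFun := wb Q w⁻¹
  left_inv := wb_inv_wb hw
  right_inv := wb_wb_inv hw
theorem Act_e_apply {w : Equiv.Perm Q.Var} (hw : w ∈ Wl Q.lab) (x : Bt Q) :
    Act_e hw x = wb Q w x := rfl
/-- The action on the basis of `V`. -/
def Act_k {w : Equiv.Perm Q.Var} (hw : w ∈ Wl Q.lab) (k : Fin Q.nB) : Fin Q.nB :=
  (W_inl hw k).choose
theorem Act_k_spec {w : Equiv.Perm Q.Var} (hw : w ∈ Wl Q.lab) (k : Fin Q.nB) :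
    w (Sum.inl k) = Sum.inl (Act_k hw k) := (W_inl hw k).choose_spec.1
theorem Act_k_vt {w : Equiv.Perm Q.Var} (hw : w ∈ Wl Q.lab) (k : Fin Q.nB) :
    Q.vt (Act_k hw k) = Q.vt k := (W_inl hw k).choose_spec.2
theorem Act_k_bij {w : Equiv.Perm Q.Var} (hw : w ∈ Wl Q.lab) : Function.Bijective (Act_k hw) := by
  refine Finite.injective_iff_bijective.1 fun a b hab => ?_
  have : w (Sum.inl a) = w (Sum.inl b) := by rw [Act_k_spec hw, Act_k_spec hw, hab]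
  exact Sum.inl_injective (w.injective this)
/-- The action on the basis of `V` as a permutation. -/
def Act_ke {w : Equiv.Perm Q.Var} (hw : w ∈ Wl Q.lab) : Equiv.Perm (Fin Q.nB) :=
  Equiv.ofBijective _ (Act_k_bij hw)
theorem Act_ke_apply {w : Equiv.Perm Q.Var} (hw : w ∈ Wl Q.lab) (k : Fin Q.nB) :
    Act_ke hw k = Act_k hw k := rfl
theorem Act_wl_k {w : Equiv.Perm Q.Var} (hw : w ∈ Wl Q.lab) (l : Q.Lam) (k : Fin Q.nB) :
    Q.wl w l (Act_k hw k) = l k := by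
  have := lv_wl hw l (some k)
  rw [wb_some (Act_k_spec hw k)] at this
  exact this
theorem nsq_wl {w : Equiv.Perm Q.Var} (hw : w ∈ Wl Q.lab) (l : Q.Lam) :
    Q.nsq (Q.wl w l) = Q.nsq l := by
  unfold Qv.nsq
  refine (Fintype.sum_equiv (Act_ke hw) _ _ fun k => ?_).symm
  rw [Act_ke_apply, Act_wl_k]
theorem nsq_nonneg (l : Q.Lam) : 0 ≤ Q.nsq l := Finset.sum_nonneg fun _ _ => sq_nonneg _
theorem nsq_eq_sum_lv (l : Q.Lam) : Q.nsq l = ∑ x : Bt Q, Q.lv l x ^ 2 := Act_nsq l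
theorem chg_wl {w : Equiv.Perm Q.Var} (hw : w ∈ Wl Q.lab) (l : Q.Lam) :
    chg Q (Q.wl w l) = chg Q l := by
  funext j
  unfold chg
  refine (Finset.sum_equiv (Act_ke hw) (fun k => ?_) fun k _ => ?_).symm
  · simp only [Finset.mem_filter, Finset.mem_univ, true_and, Act_ke_apply, Act_k_vt]
  · rw [Act_ke_apply, Act_wl_k]

theorem mem_wS {w : Equiv.Perm Q.Var} {F : Pc Q} {x : Bt Q} :
    x ∈ wS Q w F ↔ wb Q w⁻¹ x ∈ F := by
  simp [wS]
theorem wb_mem_wS {w : Equiv.Perm Q.Var} (hw : w ∈ Wl Q.lab) {F : Pc Q} {x : Bt Q} :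
    wb Q w x ∈ wS Q w F ↔ x ∈ F := by
  rw [mem_wS, wb_inv_wb hw]
theorem wS_one (F : Pc Q) : wS Q 1 F = F := by
  ext x
  rw [mem_wS, inv_one, wb_one]
theorem wS_mul {w w' : Equiv.Perm Q.Var} (hw : w ∈ Wl Q.lab) (F : Pc Q) :
    wS Q (w * w') F = wS Q w (wS Q w' F) := by
  ext x
  rw [mem_wS, mem_wS, mem_wS, mul_inv_rev, wb_mul (inv_mem_Wl hw)]
theorem wS_compl (w : Equiv.Perm Q.Var) (F : Pc Q) : wS Q w Fᶜ = (wS Q w F)ᶜ := by
  ext x
  rw [mem_wS, Finset.mem_compl, Finset.mem_compl, mem_wS]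
theorem Act_none_wS (w : Equiv.Perm Q.Var) (F : Pc Q) : none ∈ wS Q w F ↔ none ∈ F := by
  rw [mem_wS, wb_none]
theorem wl_mu {w : Equiv.Perm Q.Var} (hw : w ∈ Wl Q.lab) (F : Pc Q) :
    Q.wl w (mu Q F) = mu Q (wS Q w F) := by
  refine lv_ext fun x => ?_
  rw [Act_lv_wl hw, lv_mu, lv_mu]
  simp only [mem_wS, wb_none]
theorem dm_wS {w : Equiv.Perm Q.Var} (hw : w ∈ Wl Q.lab) (F : Pc Q) :
    dm Q (wS Q w F) = dm Q F := by
  funext j
  unfold dm
  refine (Finset.card_equiv (Act_e hw) fun x => ?_).symm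
  simp only [Finset.mem_filter, Act_e_apply, wb_mem_wS hw, vb_wb hw]
theorem up_wl {w : Equiv.Perm Q.Var} (hw : w ∈ Wl Q.lab) (l : Q.Lam) (i : ℤ) :
    up Q (Q.wl w l) i = wS Q w (up Q l i) := by
  ext x
  rw [mem_wS]
  simp only [up, Finset.mem_filter, Finset.mem_univ, true_and, Act_lv_wl hw]
theorem wS_Jr (w : Equiv.Perm Q.Var) (ρ : Bt Q → ℕ) (i : ℕ) :
    wS Q w (Jr Q ρ i) = Jr Q (fun x => ρ (wb Q w⁻¹ x)) i := by
  ext x
  rw [mem_wS]
  simp only [Jr, Finset.mem_filter, Finset.mem_univ, true_and]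

theorem mem_Wl_labl {w : Equiv.Perm Q.Var} {l : Q.Lam} :
    w ∈ Wl (labl Q l) ↔ w ∈ Wl Q.lab ∧ Q.wl w l = l := by
  constructor
  · intro h
    have h' := mem_Wl.1 h
    refine ⟨mem_Wl.2 fun x => congrArg Prod.fst (h' x), funext fun k => ?_⟩
    have h2 : Sum.elim l 0 (w (w.symm (Sum.inl k))) = Sum.elim l 0 (w.symm (Sum.inl k)) :=
      congrArg Prod.snd (h' (w.symm (Sum.inl k)))
    rw [Equiv.apply_symm_apply] at h2
    exact h2.symm
  · rintro ⟨hw, hl⟩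
    refine mem_Wl.2 fun x => Prod.ext (mem_Wl.1 hw x) ?_
    change Sum.elim l 0 (w x) = Sum.elim l 0 x
    rcases x with k | a
    · rw [Act_k_spec hw]
      have := Act_wl_k hw l k
      rw [hl] at this
      exact this
    · rw [W_inr hw]
theorem mem_Wl_labr {w : Equiv.Perm Q.Var} {ρ : Bt Q → ℕ} :
    w ∈ Wl (Q.labr ρ) ↔ w ∈ Wl Q.lab ∧ ∀ x, ρ (wb Q w x) = ρ x := by
  constructor
  · intro h
    have h' := mem_Wl.1 h
    have hw : w ∈ Wl Q.lab := mem_Wl.2 fun x => congrArg Prod.fst (h' x)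
    refine ⟨hw, fun x => ?_⟩
    rcases x with _ | k
    · rfl
    · have h2 : Sum.elim (fun k => ρ (some k)) 0 (w (Sum.inl k)) =
          Sum.elim (fun k => ρ (some k)) 0 (Sum.inl k : Q.Var) :=
        congrArg Prod.snd (h' (Sum.inl k))
      rw [Act_k_spec hw] at h2
      rw [wb_some (Act_k_spec hw k)]
      exact h2
  · rintro ⟨hw, hl⟩
    refine mem_Wl.2 fun x => Prod.ext (mem_Wl.1 hw x) ?_
    change Sum.elim (fun k => ρ (some k)) 0 (w x) = Sum.elim (fun k => ρ (some k)) 0 x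
    rcases x with k | a
    · rw [Act_k_spec hw]
      have := hl (some k)
      rw [wb_some (Act_k_spec hw k)] at this
      exact this
    · rw [W_inr hw]
/-- `none ∈ wS w F ↔ none ∈ F`, so `mu` separates `wS w F` from `F`. -/
theorem mem_Wl_mu {w : Equiv.Perm Q.Var} {F : Pc Q} :
    w ∈ Wl (labl Q (mu Q F)) ↔ w ∈ Wl Q.lab ∧ wS Q w F = F := by
  rw [mem_Wl_labl]
  refine and_congr_right fun hw => ?_
  rw [wl_mu hw]
  constructor
  · intro h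
    ext x
    have h1 := lv_mu (wS Q w F) x
    rw [h, lv_mu] at h1
    simp only [Act_none_wS, sub_left_inj] at h1
    by_cases a : x ∈ F <;> by_cases b : x ∈ wS Q w F <;> simp_all
  · intro h
    rw [h]

/-- The action on matrix positions. -/
def Act_p {w : Equiv.Perm Q.Var} (hw : w ∈ Wl Q.lab) : Equiv.Perm Q.Ps :=
  Equiv.prodCongr (Equiv.refl _) (Equiv.prodCongr (Act_e hw) (Act_e hw))
theorem Act_p_apply {w : Equiv.Perm Q.Var} (hw : w ∈ Wl Q.lab) (p : Q.Ps) :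
    Act_p hw p = (p.1, wb Q w p.2.1, wb Q w p.2.2) := rfl
theorem rename_phi {w : Equiv.Perm Q.Var} (hw : w ∈ Wl Q.lab) (l : Q.Lam) :
    rename w (Q.phi l) = Q.phi (Q.wl w l) := by
  unfold Qv.phi
  rw [map_prod]
  refine Finset.prod_equiv (Act_p hw) (fun p => ?_) fun p _ => ?_
  · rw [Act_p_apply, mem_WI_wb hw]
  · rw [map_pow, rename_wtP hw, Act_p_apply]
    simp only [Qv.prP, lv_wl hw]
theorem rename_eul {w : Equiv.Perm Q.Var} (hw : w ∈ Wl Q.lab) (l : Q.Lam) :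
    rename w (Q.eul l) = Q.eul (Q.wl w l) := by
  unfold Qv.eul
  rw [map_prod]
  refine Finset.prod_equiv (Equiv.prodCongr (Act_ke hw) (Act_ke hw)) (fun p => ?_) fun p _ => ?_
  · simp only [Finset.mem_filter, Finset.mem_univ, true_and, Equiv.prodCongr_apply, Prod.map_fst,
      Prod.map_snd, Act_ke_apply, Act_k_vt]
  · simp only [map_pow, map_sub, rename_X, Equiv.prodCongr_apply, Prod.map_fst,
      Prod.map_snd, Act_ke_apply, Act_k_spec hw, Act_wl_k]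
theorem rename_Arho {w : Equiv.Perm Q.Var} (hw : w ∈ Wl Q.lab) (ρ : Bt Q → ℕ) :
    rename w (Q.Arho ρ) = Q.Arho (fun x => ρ (wb Q w⁻¹ x)) := by
  unfold Qv.Arho
  rw [map_prod]
  refine Finset.prod_equiv (Act_p hw) (fun p => ?_) fun p _ => ?_
  · simp only [Finset.mem_filter, Act_p_apply, mem_WI_wb hw, wb_inv_wb hw]
  · rw [rename_wtP hw, Act_p_apply]
theorem Act_eval_xv (k : Fin Q.nB) (x : Bt Q) :
    eval (fun v : Q.Var => if v = Sum.inl k then (1 : ℂ) else 0) (Q.xv x) =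
      if x = some k then 1 else 0 := by
  rcases x with _ | i
  · simp [Qv.xv]
  · simp [Qv.xv]
theorem Act_eval_bw (k : Fin Q.nB) (h : Fin Q.nA) :
    eval (fun v : Q.Var => if v = Sum.inl k then (1 : ℂ) else 0) (Q.bw h) = 0 := by
  simp [Qv.bw]
theorem wtP_ne_zero {p : Q.Ps} (h : p.2.1 ≠ p.2.2) : Q.wtP p ≠ 0 := by
  obtain ⟨a, x, y⟩ := p
  intro h0
  have key : ∀ k : Fin Q.nB, ((if x = some k then 1 else 0) - if y = some k then 1 else 0 : ℂ) = 0 := by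
    intro k
    have := congrArg (eval (fun v : Q.Var => if v = Sum.inl k then (1 : ℂ) else 0)) h0
    unfold Qv.wtP at this
    rw [map_add, map_sub, Act_eval_xv, Act_eval_xv, Act_eval_bw, add_zero, map_zero] at this
    exact this
  change x ≠ y at h
  rcases x with _ | i
  · rcases y with _ | j
    · exact h rfl
    · simpa using key j
  · have := key i
    rw [if_pos rfl, if_neg (Ne.symm h)] at this
    simp at this
theorem phi_ne_zero (l : Q.Lam) : Q.phi l ≠ 0 := by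
  unfold Qv.phi
  refine Finset.prod_ne_zero_iff.2 fun p _ => ?_
  by_cases h : p.2.1 = p.2.2
  · simp [Qv.prP, h]
  · exact pow_ne_zero _ (wtP_ne_zero h)
theorem eul_ne_zero (l : Q.Lam) : Q.eul l ≠ 0 := by
  unfold Qv.eul
  refine Finset.prod_ne_zero_iff.2 fun p _ => ?_
  by_cases h : p.1 = p.2
  · simp [h]
  · refine pow_ne_zero _ (sub_ne_zero.2 fun e => h ?_)
    exact Sum.inl_injective (X_injective e)
theorem phi_zero : Q.phi 0 = 1 := by
  unfold Qv.phi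
  refine Finset.prod_eq_one fun p _ => ?_
  simp [Qv.prP, lv_zero]
theorem eul_zero : Q.eul 0 = 1 := by
  unfold Qv.eul
  refine Finset.prod_eq_one fun p _ => ?_
  simp
theorem phi_mem_RL (l : Q.Lam) : Q.phi l ∈ RL Q l := mem_Rinv.2 fun w hw => by
  obtain ⟨h1, h2⟩ := mem_Wl_labl.1 hw
  rw [rename_phi h1, h2]
theorem eul_mem_RL (l : Q.Lam) : Q.eul l ∈ RL Q l := mem_Rinv.2 fun w hw => by
  obtain ⟨h1, h2⟩ := mem_Wl_labl.1 hw
  rw [rename_eul h1, h2]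
theorem Arho_mem (ρ : Bt Q → ℕ) : Q.Arho ρ ∈ Rinv (Q.labr ρ) := mem_Rinv.2 fun w hw => by
  obtain ⟨h1, -⟩ := mem_Wl_labr.1 hw
  obtain ⟨-, h2⟩ := mem_Wl_labr.1 (inv_mem_Wl hw)
  rw [rename_Arho h1, funext h2]
theorem Act_Dl_sq {Λ : Type} (lab : Q.Var → Λ) : Dl lab ^ 2 ∈ Rinv lab :=
  mem_Rinv.2 fun w hw => by
    rw [map_pow, rename_Dl hw, smul_pow, sq (sgn w), sgn_mul_self, one_smul]
theorem DA_mem (ρ : Bt Q → ℕ) : DA Q ρ ∈ Rinv (Q.labr ρ) := Subalgebra.mul_mem _ (Act_Dl_sq _) (Arho_mem ρ)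
theorem Dl_sq_mem : Dl Q.lab ^ 2 ∈ Rinv Q.lab := Act_Dl_sq _
theorem Rinv_le_RL (l : Q.Lam) : Rinv Q.lab ≤ RL Q l := Rinv_anti fun _ _ h => congrArg Prod.fst h
theorem Rinv_le_labr (ρ : Bt Q → ℕ) : Rinv Q.lab ≤ Rinv (Q.labr ρ) := Rinv_anti fun _ _ h => congrArg Prod.fst h
theorem RL_zero : RL Q 0 = Rinv Q.lab := le_antisymm (fun _ hp => mem_Rinv.2 fun w hw => mem_Rinv.1 hp w (mem_Wl_labl.2 ⟨hw, wl_zero w⟩))
    (Rinv_le_RL 0)
theorem X_inr_mem (a : Fin Q.nT) : (X (Sum.inr a) : Q.Pol) ∈ Rinv Q.lab := mem_Rinv.2 fun w hw => by rw [rename_X, W_inr hw]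
theorem rename_mem_RL {w : Equiv.Perm Q.Var} (hw : w ∈ Wl Q.lab) {l : Q.Lam} {f : Q.Pol}
    (hf : f ∈ RL Q l) : rename w f ∈ RL Q (Q.wl w l) := by
  refine mem_Rinv.2 fun u hu => ?_
  obtain ⟨h1, h2⟩ := mem_Wl_labl.1 hu
  have hv : w⁻¹ * (u * w) ∈ Wl (labl Q l) := by
    refine mem_Wl_labl.2 ⟨mul_mem_Wl (inv_mem_Wl hw) (mul_mem_Wl h1 hw), ?_⟩
    rw [wl_mul (inv_mem_Wl hw), wl_mul h1, h2, wl_inv_wl hw]
  have h3 := mem_Rinv.1 hf _ hv
  calc rename u (rename w f) = rename w (rename (w⁻¹ * (u * w) : Equiv.Perm Q.Var) f) := by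
        rw [Sym_rename_mul, Sym_rename_mul, mul_inv_cancel_left]
    _ = rename w f := by rw [h3]

theorem al_injective : Function.Injective (al Q) := IsFractionRing.injective Q.Pol Q.Frac
theorem al_ne_zero {p : Q.Pol} (h : p ≠ 0) : al Q p ≠ 0 := fun e => h (al_injective (e.trans (map_zero _).symm))
theorem al_smul (a : ℂ) (p : Q.Pol) : al Q (a • p) = a • al Q p := (IsScalarTower.toAlgHom ℂ Q.Pol Q.Frac).toLinearMap.map_smul a p
theorem wF_al (w : Equiv.Perm Q.Var) (p : Q.Pol) : Q.wF w (al Q p) = al Q (rename w p) := IsFractionRing.ringEquivOfRingEquiv_algebraMap _ p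
theorem Act_frac (c : Q.Frac) : ∃ a b : Q.Pol, c = al Q a / al Q b := by
  obtain ⟨a, b, -, h⟩ := IsFractionRing.div_surjective (A := Q.Pol) c
  exact ⟨a, b, h.symm⟩
theorem wF_one (c : Q.Frac) : Q.wF 1 c = c := by
  obtain ⟨a, b, rfl⟩ := Act_frac c
  rw [map_div₀, wF_al, wF_al]
  simp
theorem wF_mul (w w' : Equiv.Perm Q.Var) (c : Q.Frac) :
    Q.wF (w * w') c = Q.wF w (Q.wF w' c) := by
  obtain ⟨a, b, rfl⟩ := Act_frac c
  simp only [map_div₀, wF_al, Sym_rename_mul]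
theorem wF_smul (w : Equiv.Perm Q.Var) (a : ℂ) (c : Q.Frac) :
    Q.wF w (a • c) = a • Q.wF w c := by
  have h1 : ∀ d : Q.Frac, a • d = al Q (C a) * d := by
    intro d
    have h2 : al Q (C a) = a • (1 : Q.Frac) := by
      rw [← map_one (al Q), ← al_smul, smul_eq_C_mul, mul_one]
    rw [h2, smul_mul_assoc, one_mul]
  rw [h1, h1, map_mul, wF_al, rename_C]

end Pool.Agent.HK.AC
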