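import Pool.Agent.P.MP_1206ce_ag.AC.Act

/-! Lists of pieces, decreasing chains and the standard chain of a cocharacter. -/

noncomputable section

open MvPolynomial

namespace Pool.Agent.HK.AC

variable {Q : Qv}

theorem sumL_nil : sumL Q [] = 0 :=
  rfl

theorem sumL_cons (F : Pc Q) (L : List (Pc Q)) : sumL Q (F :: L) = mu Q F + sumL Q L := by
  simp only [sumL, List.map_cons, List.sum_cons]

theorem sumL_append (L M : List (Pc Q)) : sumL Q (L ++ M) = sumL Q L + sumL Q M := by
  simp only [sumL, List.map_append, List.sum_append]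

theorem sumL_perm {L M : List (Pc Q)} (h : L.Perm M) : sumL Q L = sumL Q M :=
  (h.map _).sum_eq

theorem sumL_rl (N : ℕ) (J : ℕ → Pc Q) :
    sumL Q (rl Q N J) = ∑ i ∈ Finset.range N, mu Q (J i) := by
  induction N with
  | zero => rfl
  | succ N ih =>
    rw [Finset.sum_range_succ, ← ih]
    simp only [sumL, rl, List.range_succ, List.map_append, List.sum_append, List.map_cons,
      List.map_nil, List.sum_cons, List.sum_nil, add_zero]

theorem rl_succ (N : ℕ) (J : ℕ → Pc Q) : rl Q (N + 1) J = rl Q N J ++ [J N] := by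
  simp only [rl, List.range_succ, List.map_append, List.map_cons, List.map_nil]

theorem mem_rl {N : ℕ} {J : ℕ → Pc Q} {F : Pc Q} : F ∈ rl Q N J ↔ ∃ i < N, J i = F := by
  simp only [rl, List.mem_map, List.mem_range]

theorem Chain_cnt_cons (F : Pc Q) (L : List (Pc Q)) (x : Bt Q) :
    cnt Q (F :: L) x = cnt Q L x + if x ∈ F then 1 else 0 := by
  simp only [cnt, List.countP_cons, decide_eq_true_eq]

theorem Chain_cnt_le (L : List (Pc Q)) (x : Bt Q) : cnt Q L x ≤ L.length := List.countP_le_length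

theorem cnt_rl (N : ℕ) (J : ℕ → Pc Q) (x : Bt Q) :
    cnt Q (rl Q N J) x = ((Finset.range N).filter fun i => x ∈ J i).card := by
  induction N with
  | zero => rfl
  | succ N ih =>
    rw [rl_succ, Finset.range_add_one, Finset.filter_insert]
    have h : cnt Q (rl Q N J ++ [J N]) x = cnt Q (rl Q N J) x + if x ∈ J N then 1 else 0 := by
      simp only [cnt, List.countP_append, List.countP_cons, List.countP_nil, zero_add,
        decide_eq_true_eq]
    rw [h, ih]
    split_ifs
    · rw [Finset.card_insert_of_notMem (by simp)]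
    · rfl

theorem desc_rl {N : ℕ} {J : ℕ → Pc Q} (h : ∀ i j, i < j → j < N → J j ⊆ J i) :
    Desc Q (rl Q N J) := by
  unfold Desc rl
  rw [List.pairwise_map]
  exact List.pairwise_lt_range.imp_of_mem fun _ hb hab => h _ _ hab (List.mem_range.1 hb)

theorem map_dm_rl {N : ℕ} {J J' : ℕ → Pc Q} (h : ∀ i < N, dm Q (J i) = dm Q (J' i)) :
    (rl Q N J).map (dm Q) = (rl Q N J').map (dm Q) := by
  unfold rl
  rw [List.map_map, List.map_map]
  exact List.map_congr_left fun i hi => h i (List.mem_range.1 hi)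

theorem lv_sumL (L : List (Pc Q)) (x : Bt Q) :
    Q.lv (sumL Q L) x = (cnt Q L x : ℤ) - cnt Q L none := by
  induction L with
  | nil => exact lv_zero x
  | cons F L ih =>
    rw [sumL_cons, lv_add, ih, lv_mu, Chain_cnt_cons, Chain_cnt_cons]
    push_cast
    ring

theorem Chain_triv {F : Pc Q} (h : ¬ NT Q F) : F = ∅ ∨ F = Finset.univ := by
  by_contra hn
  exact h (not_or.1 hn)

theorem mu_triv {F : Pc Q} (h : ¬ NT Q F) : mu Q F = 0 := by
  funext k
  rcases Chain_triv h with rfl | rfl <;> simp [mu]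

theorem mu_add_compl (F : Pc Q) : mu Q F + mu Q Fᶜ = 0 := by
  funext k
  simp only [mu, Pi.add_apply, Finset.mem_compl, Pi.zero_apply]
  by_cases h1 : some k ∈ F <;> by_cases h2 : none ∈ F <;> simp [h1, h2]

theorem NT_compl {F : Pc Q} (h : NT Q F) : NT Q Fᶜ :=
  ⟨fun e => h.2 (by simpa using e), fun e => h.1 (by simpa using e)⟩

theorem dm_none (F : Pc Q) : dm Q F none = if none ∈ F then 1 else 0 := by
  have h : ∀ x : Bt Q, Q.vb x = none ↔ x = none := fun x => Option.map_eq_none_iff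
  unfold dm
  split_ifs with h1
  · refine Finset.card_eq_one.2 ⟨none, Finset.ext fun x => ?_⟩
    rw [Finset.mem_filter, Finset.mem_singleton, h]
    exact ⟨fun e => e.2, fun e => ⟨e ▸ h1, e⟩⟩
  · refine Finset.card_eq_zero.2 (Finset.filter_eq_empty_iff.2 fun x hx e => h1 ?_)
    rwa [(h x).1 e] at hx

theorem card_eq_sum_dm (F : Pc Q) : F.card = ∑ j, dm Q F j :=
  Finset.card_eq_sum_card_fiberwise (f := Q.vb) fun _ _ => Finset.mem_coe.2 (Finset.mem_univ _)

theorem dm_add_compl (F : Pc Q) (j : Option (Fin Q.nI)) :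
    dm Q F j + dm Q Fᶜ j = dm Q Finset.univ j := by
  unfold dm
  rw [← Finset.card_union_of_disjoint (Finset.disjoint_filter_filter disjoint_compl_right),
    ← Finset.filter_union, Finset.union_compl]

theorem Chain_dm_some (F : Pc Q) (j : Fin Q.nI) : dm Q F (some j) =
    ((Finset.univ.filter fun k => Q.vt k = j).filter fun k => some k ∈ F).card := by
  unfold dm
  rw [← Finset.card_image_of_injective (Finset.filter (fun k => some k ∈ F) _)
    (Option.some_injective _)]
  congr 1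
  ext x
  rcases x with _ | k
  · simp [Qv.vb]
  · simp [Qv.vb, and_comm]

theorem dm_univ_some (j : Fin Q.nI) : dm Q Finset.univ (some j) = Q.dim j := by
  rw [Chain_dm_some, Finset.filter_true_of_mem fun _ _ => Finset.mem_univ _]
  rfl

theorem dm_compl {F G : Pc Q} (h : dm Q G = dm Q F) : dm Q Gᶜ = dm Q Fᶜ := by
  funext j
  have h1 := dm_add_compl G j
  have h2 := dm_add_compl F j
  rw [h] at h1
  omega

theorem dm_mono {F G : Pc Q} (h : F ⊆ G) : dm Q F ≤ dm Q G :=
  fun _ => Finset.card_le_card (Finset.filter_subset_filter _ h)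

theorem Chain_card {F G : Pc Q} (h : dm Q G = dm Q F) : G.card = F.card := by
  rw [card_eq_sum_dm, card_eq_sum_dm, h]

theorem eq_of_dm_triv {F G : Pc Q} (hF : ¬ NT Q F) (h : dm Q G = dm Q F) : G = F := by
  have h1 := Chain_card h
  rcases Chain_triv hF with rfl | rfl
  · exact Finset.card_eq_zero.1 h1
  · exact Finset.eq_univ_of_card _ h1

theorem NT_congr {F G : Pc Q} (h : dm Q G = dm Q F) : NT Q G ↔ NT Q F := by
  refine not_iff_not.1 ⟨fun h1 => ?_, fun h1 => ?_⟩
  · rwa [eq_of_dm_triv h1 h.symm]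
  · rwa [eq_of_dm_triv h1 h]

theorem none_mem_congr {F G : Pc Q} (h : dm Q G = dm Q F) : none ∈ G ↔ none ∈ F := by
  have h1 := congrFun h none
  rw [dm_none, dm_none] at h1
  by_cases a : none ∈ G <;> by_cases b : none ∈ F <;> simp_all

theorem eq_of_mu_eq {F G : Pc Q} (h : mu Q G = mu Q F) (h' : none ∈ G ↔ none ∈ F) :
    G = F := by
  ext x
  rcases x with _ | k
  · exact h'
  · have h1 := congrFun h k
    simp only [mu, h', sub_left_inj] at h1
    by_cases a : some k ∈ G <;> by_cases b : some k ∈ F <;> simp_all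

theorem cnt_none_congr {L M : List (Pc Q)} (h : M.map (dm Q) = L.map (dm Q)) :
    cnt Q M none = cnt Q L none := by
  induction L generalizing M with
  | nil => rw [List.map_eq_nil_iff.1 h]
  | cons F L ih =>
    obtain ⟨G, M, rfl, h1, h2⟩ := List.map_eq_cons_iff.1 h
    rw [Chain_cnt_cons, Chain_cnt_cons, ih h2]
    simp only [none_mem_congr h1]

theorem msS_pos_iff {F : Pc Q} : 0 < msS Q F ↔ NT Q F := by
  unfold msS NT
  rw [CanonicallyOrderedAdd.mul_pos, Finset.card_pos, Finset.card_pos, Finset.nonempty_iff_ne_empty,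
    Finset.nonempty_iff_ne_empty, Ne, Ne, Ne, Finset.compl_eq_empty_iff]

theorem msS_congr {F G : Pc Q} (h : dm Q G = dm Q F) : msS Q G = msS Q F := by
  unfold msS
  rw [Chain_card h, Chain_card (dm_compl h)]

theorem msL_cons (F : Pc Q) (L : List (Pc Q)) : msL Q (F :: L) = msS Q F + msL Q L := by
  simp only [msL, List.map_cons, List.sum_cons]

theorem msL_append (L M : List (Pc Q)) : msL Q (L ++ M) = msL Q L + msL Q M := by
  simp only [msL, List.map_append, List.sum_append]

theorem msL_perm {L M : List (Pc Q)} (h : L.Perm M) : msL Q L = msL Q M :=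
  (h.map _).sum_eq

theorem msL_pos_iff {L : List (Pc Q)} : 0 < msL Q L ↔ ∃ F ∈ L, NT Q F := by
  induction L with
  | nil => simp [msL]
  | cons F L ih =>
    rw [msL_cons, Nat.add_pos_iff_pos_or_pos, ih, msS_pos_iff]
    simp only [List.mem_cons, exists_eq_or_imp]

theorem msL_perm_dm {L M : List (Pc Q)} (h : (M.map (dm Q)).Perm (L.map (dm Q))) :
    msL Q M = msL Q L := by
  have h1 : ∀ F : Pc Q, msS Q F = (fun d : Option (Fin Q.nI) → ℕ =>
      (∑ j, d j) * ∑ j, (dm Q Finset.univ j - d j)) (dm Q F) := fun F => by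
    unfold msS
    rw [card_eq_sum_dm, card_eq_sum_dm]
    congr 1
    refine Finset.sum_congr rfl fun j _ => ?_
    have := dm_add_compl F j
    omega
  have h2 : ∀ L : List (Pc Q), msL Q L = ((L.map (dm Q)).map fun d : Option (Fin Q.nI) → ℕ =>
      (∑ j, d j) * ∑ j, (dm Q Finset.univ j - d j)).sum := fun L => by
    rw [List.map_map]
    exact congrArg List.sum (List.map_congr_left fun F _ => h1 F)
  rw [h2, h2]
  exact (h.map _).sum_eq

theorem chg_add (l m : Q.Lam) : chg Q (l + m) = chg Q l + chg Q m := by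
  funext j
  exact Finset.sum_add_distrib

theorem chg_zero : chg Q 0 = 0 := by
  funext j
  exact Finset.sum_const_zero

theorem chg_mu (F : Pc Q) (j : Fin Q.nI) :
    chg Q (mu Q F) j = (dm Q F (some j) : ℤ) - (dm Q F none : ℤ) * Q.dim j := by
  unfold chg mu
  rw [Finset.sum_sub_distrib, Finset.sum_boole, Finset.sum_const, Chain_dm_some, dm_none,
    nsmul_eq_mul, mul_comm]
  push_cast
  rfl

theorem chg_mu_congr {F G : Pc Q} (h : dm Q G = dm Q F) : chg Q (mu Q G) = chg Q (mu Q F) := by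
  funext j
  rw [chg_mu, chg_mu, h]

theorem chg_of_mem_SuppL {L : List (Pc Q)} {m : Q.Lam} (h : m ∈ SuppL Q L) :
    chg Q m = chg Q (sumL Q L) := by
  obtain ⟨M, h, rfl⟩ := h
  induction L generalizing M with
  | nil => rw [List.map_eq_nil_iff.1 h]
  | cons F L ih =>
    obtain ⟨G, M, rfl, h1, h2⟩ := List.map_eq_cons_iff.1 h
    rw [sumL_cons, sumL_cons, chg_add, chg_add, ih M h2, chg_mu_congr h1]

theorem mem_SuppL_self (L : List (Pc Q)) : sumL Q L ∈ SuppL Q L :=
  ⟨L, rfl, rfl⟩

theorem SuppL_nil : SuppL Q [] = {0} := by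
  ext m
  refine ⟨?_, fun h => ⟨[], rfl, h.symm⟩⟩
  rintro ⟨M, h, rfl⟩
  rw [List.map_eq_nil_iff.1 h]
  rfl

theorem mem_SuppL_single {F : Pc Q} {m : Q.Lam} :
    m ∈ SuppL Q [F] ↔ ∃ G, dm Q G = dm Q F ∧ mu Q G = m := by
  constructor
  · rintro ⟨M, h, rfl⟩
    obtain ⟨G, M, rfl, h1, h2⟩ := List.map_eq_cons_iff.1 h
    rw [List.map_eq_nil_iff.1 h2]
    exact ⟨G, h1, by rw [sumL_cons, sumL_nil, add_zero]⟩
  · rintro ⟨G, h, rfl⟩
    exact ⟨[G], by simp [h], by rw [sumL_cons, sumL_nil, add_zero]⟩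

theorem mem_SuppL_pair {F F' : Pc Q} {m : Q.Lam} : m ∈ SuppL Q [F, F'] ↔
    ∃ G G', dm Q G = dm Q F ∧ dm Q G' = dm Q F' ∧ mu Q G + mu Q G' = m := by
  constructor
  · rintro ⟨M, h, rfl⟩
    obtain ⟨G, M, rfl, h1, h2⟩ := List.map_eq_cons_iff.1 h
    obtain ⟨G', M, rfl, h3, h4⟩ := List.map_eq_cons_iff.1 h2
    rw [List.map_eq_nil_iff.1 h4]
    exact ⟨G, G', h1, h3, by rw [sumL_cons, sumL_cons, sumL_nil, add_zero]⟩
  · rintro ⟨G, G', h, h', rfl⟩
    exact ⟨[G, G'], by simp [h, h'], by rw [sumL_cons, sumL_cons, sumL_nil, add_zero]⟩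

theorem add_mem_SuppL {L M : List (Pc Q)} {a b : Q.Lam} (ha : a ∈ SuppL Q L)
    (hb : b ∈ SuppL Q M) : a + b ∈ SuppL Q (L ++ M) := by
  obtain ⟨A, h1, rfl⟩ := ha
  obtain ⟨B, h2, rfl⟩ := hb
  exact ⟨A ++ B, by rw [List.map_append, List.map_append, h1, h2], sumL_append A B⟩

theorem SuppL_congr {L M : List (Pc Q)} (h : M.map (dm Q) = L.map (dm Q)) :
    SuppL Q M = SuppL Q L := by
  unfold SuppL
  rw [h]

theorem Chain_ntL_pos {F : Pc Q} (h : NT Q F) (L : List (Pc Q)) :
    ntL Q (F :: L) = F :: ntL Q L := List.filter_cons_of_pos (decide_eq_true h)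

theorem Chain_ntL_neg {F : Pc Q} (h : ¬ NT Q F) (L : List (Pc Q)) : ntL Q (F :: L) = ntL Q L :=
  List.filter_cons_of_neg fun e => h (of_decide_eq_true e)

theorem Chain_sumL_ntL (L : List (Pc Q)) : sumL Q (ntL Q L) = sumL Q L := by
  induction L with
  | nil => rfl
  | cons F L ih =>
    by_cases h : NT Q F
    · rw [Chain_ntL_pos h, sumL_cons, sumL_cons, ih]
    · rw [Chain_ntL_neg h, sumL_cons, ih, mu_triv h, zero_add]

theorem Chain_ntL_congr {L M : List (Pc Q)} (h : M.map (dm Q) = L.map (dm Q)) :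
    (ntL Q M).map (dm Q) = (ntL Q L).map (dm Q) := by
  induction L generalizing M with
  | nil => rw [List.map_eq_nil_iff.1 h]
  | cons F L ih =>
    obtain ⟨G, M, rfl, h1, h2⟩ := List.map_eq_cons_iff.1 h
    by_cases hF : NT Q F
    · rw [Chain_ntL_pos hF, Chain_ntL_pos ((NT_congr h1).2 hF), List.map_cons, List.map_cons,
        ih h2, h1]
    · rw [Chain_ntL_neg hF, Chain_ntL_neg fun e => hF ((NT_congr h1).1 e), ih h2]

theorem SuppL_ntL (L : List (Pc Q)) : SuppL Q (ntL Q L) = SuppL Q L := by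
  ext m
  constructor
  · induction L generalizing m with
    | nil => exact id
    | cons F L ih =>
      by_cases hF : NT Q F
      · rw [Chain_ntL_pos hF]
        rintro ⟨M, h, rfl⟩
        obtain ⟨G, M, rfl, h1, h2⟩ := List.map_eq_cons_iff.1 h
        obtain ⟨M', h3, h4⟩ := ih _ ⟨M, h2, rfl⟩
        exact ⟨G :: M', by rw [List.map_cons, List.map_cons, h1, h3],
          by rw [sumL_cons, sumL_cons, h4]⟩
      · rw [Chain_ntL_neg hF]
        intro h
        obtain ⟨M', h3, h4⟩ := ih _ h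
        exact ⟨F :: M', by rw [List.map_cons, List.map_cons, h3],
          by rw [sumL_cons, h4, mu_triv hF, zero_add]⟩
  · rintro ⟨M, h, rfl⟩
    exact ⟨ntL Q M, Chain_ntL_congr h, Chain_sumL_ntL M⟩

theorem wl_mem_SuppL {w : Equiv.Perm Q.Var} (hw : w ∈ Wl Q.lab) {L : List (Pc Q)} {m : Q.Lam}
    (h : m ∈ SuppL Q L) : Q.wl w m ∈ SuppL Q L := by
  obtain ⟨M, h, rfl⟩ := h
  refine ⟨M.map (wS Q w), ?_, ?_⟩
  · rw [← h, List.map_map]
    exact List.map_congr_left fun F _ => dm_wS hw F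
  · clear h
    induction M with
    | nil => exact (wl_zero w).symm
    | cons F M ih => rw [List.map_cons, sumL_cons, sumL_cons, wl_add, ih, wl_mu hw]

theorem sumL_ntL (L : List (Pc Q)) : sumL Q (ntL Q L) = sumL Q L :=
  Chain_sumL_ntL L

theorem msL_ntL (L : List (Pc Q)) : msL Q (ntL Q L) = msL Q L := by
  induction L with
  | nil => rfl
  | cons F L ih =>
    by_cases h : NT Q F
    · rw [Chain_ntL_pos h, msL_cons, msL_cons, ih]
    · rw [Chain_ntL_neg h, msL_cons, ih, Nat.eq_zero_of_not_pos (mt msS_pos_iff.1 h), zero_add]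

theorem desc_ntL {L : List (Pc Q)} (h : Desc Q L) : Desc Q (ntL Q L) :=
  List.Pairwise.filter _ h

theorem Chain_cnt_zero {F : Pc Q} {L : List (Pc Q)} (h : Desc Q (F :: L)) {x : Bt Q}
    (hx : x ∉ F) : cnt Q L x = 0 :=
  List.countP_eq_zero.2 fun G hG e => hx ((List.pairwise_cons.1 h).1 G hG (of_decide_eq_true e))

theorem desc_mem_iff {L : List (Pc Q)} (h : Desc Q L) {i : ℕ} (hi : i < L.length) (x : Bt Q) :
    x ∈ L[i] ↔ i < cnt Q L x := by
  induction L generalizing i with
  | nil => exact absurd hi (Nat.not_lt_zero _)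
  | cons F L ih =>
    rw [Chain_cnt_cons]
    rcases i with _ | i
    · rw [List.getElem_cons_zero]
      by_cases hx : x ∈ F
      · simp [hx]
      · simp [hx, Chain_cnt_zero h hx]
    · rw [List.getElem_cons_succ, ih (List.pairwise_cons.1 h).2]
      by_cases hx : x ∈ F
      · simp [hx]
      · simp [hx, Chain_cnt_zero h hx]

theorem desc_ext {L M : List (Pc Q)} (hL : Desc Q L) (hM : Desc Q M) (hl : M.length = L.length)
    (h : ∀ x, cnt Q M x = cnt Q L x) : M = L := by
  refine List.ext_getElem hl fun i h1 h2 => Finset.ext fun x => ?_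
  rw [desc_mem_iff hM h1, desc_mem_iff hL h2, h]

theorem Chain_ends {L : List (Pc Q)} (hL : Desc Q L) (nL : ∀ F ∈ L, NT Q F) :
    (∃ x, cnt Q L x = 0) ∧ ∃ x, cnt Q L x = L.length := by
  rcases Nat.eq_zero_or_pos L.length with h | h
  · have h1 := Chain_cnt_le L none
    exact ⟨⟨none, by omega⟩, none, by omega⟩
  · constructor
    · have h1 := (nL _ (List.getElem_mem h)).2
      rw [Ne, Finset.eq_univ_iff_forall, not_forall] at h1
      obtain ⟨x, hx⟩ := h1
      rw [desc_mem_iff hL h] at hx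
      exact ⟨x, by omega⟩
    · have h0 : L.length - 1 < L.length := by omega
      obtain ⟨x, hx⟩ := Finset.nonempty_iff_ne_empty.2 (nL _ (List.getElem_mem h0)).1
      rw [desc_mem_iff hL h0] at hx
      have h1 := Chain_cnt_le L x
      exact ⟨x, by omega⟩

/-- For a nonempty decreasing list of nontrivial pieces `cnt` takes the values `0` and the
length, so the length and `cnt none` are determined by the sum. -/
theorem desc_unique {L M : List (Pc Q)} (hL : Desc Q L) (hM : Desc Q M) (nL : ∀ F ∈ L, NT Q F)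
    (nM : ∀ F ∈ M, NT Q F) (h : sumL Q M = sumL Q L) : M = L := by
  have h1 : ∀ x, (cnt Q M x : ℤ) - cnt Q M none = cnt Q L x - cnt Q L none := fun x => by
    rw [← lv_sumL, ← lv_sumL, h]
  obtain ⟨⟨a, ha⟩, b, hb⟩ := Chain_ends hL nL
  obtain ⟨⟨c, hc⟩, d, hd⟩ := Chain_ends hM nM
  have h2 : cnt Q M none = cnt Q L none := by
    have := h1 a
    have := h1 c
    omega
  have h3 : ∀ x, cnt Q M x = cnt Q L x := fun x => by
    have := h1 x
    omega
  refine desc_ext hL hM ?_ h3
  have := h3 b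
  have := h3 d
  have := Chain_cnt_le M b
  have := Chain_cnt_le L d
  omega

theorem chainOf_desc (l : Q.Lam) : Desc Q (chainOf Q l) := by
  refine desc_ntL (desc_rl fun i j hij _ x hx => ?_)
  simp only [up, Finset.mem_filter, Finset.mem_univ, true_and] at hx ⊢
  omega

theorem chainOf_NT (l : Q.Lam) : ∀ F ∈ chainOf Q l, NT Q F :=
  fun _ hF => of_decide_eq_true (List.mem_filter.1 hF).2

/-- `|l k| ≤ nsq l`; `cnt x = lv l x + nsq l` for the list before filtering. -/
theorem sumL_chainOf (l : Q.Lam) : sumL Q (chainOf Q l) = l := by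
  have h1 : ∀ x, (cnt Q (rl Q (2 * (Q.nsq l).toNat) fun t => up Q l ((t : ℤ) + 1 - Q.nsq l)) x :
      ℤ) = Q.lv l x + Q.nsq l := fun x => by
    have h2 : Q.lv l x ^ 2 ≤ Q.nsq l := by
      rw [nsq_eq_sum_lv]
      exact Finset.single_le_sum (f := fun x => Q.lv l x ^ 2) (fun _ _ => sq_nonneg _)
        (Finset.mem_univ x)
    have h3 := Int.le_self_sq (Q.lv l x)
    have h4 := Int.le_self_sq (-Q.lv l x)
    rw [neg_sq] at h4
    have h5 : ((Finset.range (2 * (Q.nsq l).toNat)).filter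
        fun t : ℕ => x ∈ up Q l ((t : ℤ) + 1 - Q.nsq l)) =
        Finset.range (Q.lv l x + Q.nsq l).toNat := by
      ext t
      simp only [up, Finset.mem_filter, Finset.mem_univ, true_and, Finset.mem_range]
      omega
    rw [cnt_rl, h5, Finset.card_range]
    omega
  unfold chainOf
  rw [sumL_ntL]
  refine lv_ext fun x => ?_
  rw [lv_sumL, h1, h1]
  show Q.lv l x + Q.nsq l - (0 + Q.nsq l) = _
  ring

theorem ntL_eq_chainOf {L : List (Pc Q)} (h : Desc Q L) :
    ntL Q L = chainOf Q (sumL Q L) :=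
  desc_unique (chainOf_desc _) (desc_ntL h) (chainOf_NT _)
    (fun _ hF => of_decide_eq_true (List.mem_filter.1 hF).2) (by rw [sumL_ntL, sumL_chainOf])

theorem chainOf_wl {w : Equiv.Perm Q.Var} (hw : w ∈ Wl Q.lab) (l : Q.Lam) :
    (chainOf Q (Q.wl w l)).map (dm Q) = (chainOf Q l).map (dm Q) := by
  unfold chainOf
  rw [nsq_wl hw]
  exact Chain_ntL_congr (map_dm_rl fun i _ => by rw [up_wl hw, dm_wS hw])

theorem msL_chainOf_pos {l : Q.Lam} (h : l ≠ 0) : 0 < msL Q (chainOf Q l) := by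
  rw [msL_pos_iff]
  rcases hc : chainOf Q l with _ | ⟨F, L⟩
  · exact absurd (by rw [← sumL_chainOf l, hc, sumL_nil]) h
  · exact ⟨F, List.mem_cons_self, chainOf_NT l F (hc ▸ List.mem_cons_self)⟩

theorem SuppL_chainOf {L : List (Pc Q)} (h : Desc Q L) :
    SuppL Q (chainOf Q (sumL Q L)) = SuppL Q L := by
  rw [← ntL_eq_chainOf h, SuppL_ntL]

end Pool.Agent.HK.AC
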