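import Pool.Agent.P.MP_1206ce_ag.AC.Chain

/-! Nested pairs, sorting of lists and closed sets of cocharacters. -/

noncomputable section

open MvPolynomial

namespace Pool.Agent.HK.AC

variable {Q : Qv}

theorem mu_union_inter (F G : Pc Q) :
    mu Q (F ∪ G) + mu Q (F ∩ G) = mu Q F + mu Q G := by
  funext k
  simp only [mu, Pi.add_apply, Finset.mem_union, Finset.mem_inter]
  by_cases h1 : some k ∈ F <;> by_cases h2 : some k ∈ G <;> by_cases h3 : none ∈ F <;>
    by_cases h4 : none ∈ G <;> simp [h1, h2, h3, h4]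
theorem Nest_ms (F G : Pc Q) : msS Q (F ∪ G) + msS Q (F ∩ G) + 2 * ((F \ G).card * (G \ F).card) =
    msS Q F + msS Q G := by
  have h1 := Finset.card_sdiff_add_card_inter F G
  have h2 := Finset.card_sdiff_add_card_inter G F
  have h3 := Finset.card_union_add_card_inter F G
  have h4 := Finset.card_add_card_compl F
  have h5 := Finset.card_add_card_compl G
  have h6 := Finset.card_add_card_compl (F ∪ G)
  have h7 := Finset.card_add_card_compl (F ∩ G)
  rw [Finset.inter_comm] at h2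
  have e1 : (F ∪ G).card = (F ∩ G).card + (F \ G).card + (G \ F).card := by omega
  have e2 : Fᶜ.card = (G \ F).card + (F ∪ G)ᶜ.card := by omega
  have e3 : Gᶜ.card = (F \ G).card + (F ∪ G)ᶜ.card := by omega
  have e4 : (F ∩ G)ᶜ.card = (F \ G).card + (G \ F).card + (F ∪ G)ᶜ.card := by omega
  simp only [msS]
  rw [e1, e2, e3, e4, ← h1, ← h2]
  ring

theorem ms_union_inter_le (F G : Pc Q) :
    msS Q (F ∪ G) + msS Q (F ∩ G) ≤ msS Q F + msS Q G := by
  rw [← Nest_ms F G]
  exact Nat.le_add_right _ _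
theorem ms_union_inter_lt {F G : Pc Q} (h : ¬ F ⊆ G) (h' : ¬ G ⊆ F) :
    msS Q (F ∪ G) + msS Q (F ∩ G) < msS Q F + msS Q G := by
  rw [← Nest_ms F G]
  exact Nat.lt_add_of_pos_right (Nat.mul_pos two_pos (Nat.mul_pos
    (Finset.card_pos.2 (Finset.sdiff_nonempty.2 h)) (Finset.card_pos.2 (Finset.sdiff_nonempty.2 h'))))
/-- A canonical piece for each dimension vector (the first basis vectors at each vertex),
monotone in the dimension vector. -/
theorem exists_can : ∃ can : Pc Q → Pc Q, (∀ F, dm Q (can F) = dm Q F) ∧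
    ∀ F G, dm Q F ≤ dm Q G → can F ⊆ can G := by
  let S : Option (Fin Q.nI) → Pc Q := fun j => Finset.univ.filter fun x => Q.vb x = j
  let ch : Option (Fin Q.nI) → ℕ → Pc Q := fun j c => ((S j).toList.take c).toFinset
  have h1 : ∀ j c x, x ∈ ch j c → Q.vb x = j := fun j c x hx =>
    (Finset.mem_filter.1 (Finset.mem_toList.1
      (List.take_subset _ _ (List.mem_toFinset.1 hx)))).2
  refine ⟨fun F => Finset.univ.filter fun x => x ∈ ch (Q.vb x) (dm Q F (Q.vb x)),
    fun F => funext fun j => ?_, fun F G h x hx => ?_⟩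
  · have h2 : ((Finset.univ.filter fun x => x ∈ ch (Q.vb x) (dm Q F (Q.vb x))).filter
        fun x => Q.vb x = j) = ch j (dm Q F j) := by
      ext x
      simp only [Finset.mem_filter, Finset.mem_univ, true_and]
      constructor
      · rintro ⟨hx, rfl⟩
        exact hx
      · intro hx
        obtain rfl := h1 _ _ _ hx
        exact ⟨hx, rfl⟩
    rw [dm, h2, List.toFinset_card_of_nodup ((Finset.nodup_toList _).sublist (List.take_sublist _ _)),
      List.length_take, Finset.length_toList]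
    exact min_eq_left (dm_mono (Finset.subset_univ F) j)
  · simp only [Finset.mem_filter, Finset.mem_univ, true_and] at hx ⊢
    exact List.mem_toFinset.2 (List.take_subset_take_left _ (h _) (List.mem_toFinset.1 hx))
theorem Nest_pair {α : Type} [DecidableEq α] {r : α → α → Prop} {L : List α}
    (h : ¬ L.Pairwise r) : ∃ a b R, L.Perm (a :: b :: R) ∧ ¬ r a b := by
  induction L with
  | nil => exact absurd List.Pairwise.nil h
  | cons a T ih =>
    by_cases h1 : ∀ b ∈ T, r a b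
    · obtain ⟨x, y, R, h2, h3⟩ := ih fun h2 => h (List.Pairwise.cons h1 h2)
      exact ⟨x, y, a :: R, (h2.cons a).trans ((List.Perm.swap x a _).trans
        ((List.Perm.swap y a _).cons x)), h3⟩
    · push Not at h1
      obtain ⟨b, hb, h2⟩ := h1
      exact ⟨a, b, T.erase b, (List.perm_cons_erase hb).cons a, h2⟩

theorem Nest_le {F G : Pc Q} (h : dm Q F ≤ dm Q G) (h' : G.card ≤ F.card) : dm Q G ≤ dm Q F := by
  rw [card_eq_sum_dm, card_eq_sum_dm] at h'
  have h1 := (Finset.sum_eq_sum_iff_of_le fun j (_ : j ∈ Finset.univ) => h j).1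
    (le_antisymm (Finset.sum_le_sum fun j _ => h j) h')
  exact fun j => (h1 j (Finset.mem_univ j)).ge

/-- Sort by cardinality, then replace every piece by its canonical form. -/
theorem desc_or_incomp (L : List (Pc Q)) :
    (∃ M, Desc Q M ∧ (M.map (dm Q)).Perm (L.map (dm Q))) ∨
      ∃ F F' R, L.Perm (F :: F' :: R) ∧ ¬ dm Q F ≤ dm Q F' ∧ ¬ dm Q F' ≤ dm Q F := by
  by_cases h : L.Pairwise fun F G => dm Q F ≤ dm Q G ∨ dm Q G ≤ dm Q F
  · obtain ⟨can, h1, h2⟩ := exists_can (Q := Q)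
    have p := List.mergeSort_perm L fun F G => decide (G.card ≤ F.card)
    have s := List.pairwise_mergeSort (le := fun F G : Pc Q => decide (G.card ≤ F.card))
      (fun a b c hab hbc => by simp only [decide_eq_true_eq] at *; omega)
      (fun a b => by simp only [Bool.or_eq_true, decide_eq_true_eq]; omega) L
    have t := (p.pairwise_iff fun {_ _} h => Or.symm h).2 h
    refine Or.inl ⟨(L.mergeSort fun F G => decide (G.card ≤ F.card)).map can, ?_, ?_⟩
    · refine List.pairwise_map.2 ((s.and t).imp fun {F G} hh => h2 _ _ ?_)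
      exact hh.2.elim (fun h3 => Nest_le h3 (of_decide_eq_true hh.1)) id
    · rw [List.map_map, show dm Q ∘ can = dm Q from funext h1]
      exact p.map _
  · obtain ⟨F, F', R, h1, h2⟩ := Nest_pair h
    exact Or.inr ⟨F, F', R, h1, fun h3 => h2 (Or.inl h3), fun h3 => h2 (Or.inr h3)⟩
theorem SP_nested {F F' : Pc Q} {m : Q.Lam} (h : m ∈ SP Q F F') :
    ∃ G G', G' ⊆ G ∧ LowR Q F F' G G' ∧ m = mu Q G + mu Q G' := by
  obtain ⟨G, G', h1, rfl⟩ := h
  refine ⟨G ∪ G', G ∩ G', Finset.inter_subset_left.trans Finset.subset_union_left,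
    ⟨(ms_union_inter_le G G').trans_lt h1.1, ?_⟩, (mu_union_inter G G').symm⟩
  rw [mu_union_inter, h1.2]
theorem Nest_sum_pair (F G : Pc Q) : sumL Q [F, G] = mu Q F + mu Q G := by
  rw [sumL_cons, sumL_cons, sumL_nil, add_zero]

theorem Nest_chg {F F' G G' : Pc Q} (h : dm Q G = dm Q F) (h' : dm Q G' = dm Q F') :
    chg Q (mu Q G + mu Q G') = chg Q (mu Q F + mu Q F') := by
  rw [chg_add, chg_add, chg_mu_congr h, chg_mu_congr h']

theorem SP_closed {F F' : Pc Q} {m : Q.Lam} (h : m ∈ SP Q F F') :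
    SuppL Q (chainOf Q m) ⊆ SP Q F F' := by
  obtain ⟨G, G', h1, h2, rfl⟩ := SP_nested h
  rw [← Nest_sum_pair, SuppL_chainOf (List.pairwise_pair.2 h1)]
  intro m hm
  obtain ⟨H, H', h3, h4, rfl⟩ := mem_SuppL_pair.1 hm
  refine ⟨H, H', ⟨?_, (Nest_chg h3 h4).trans h2.2⟩, rfl⟩
  rw [msS_congr h3, msS_congr h4]
  exact h2.1
theorem nested_of_not_SP {F F' : Pc Q} {m : Q.Lam} (h : m ∈ SuppL Q [F, F'])
    (hn : m ∉ SP Q F F') : ∃ G G', dm Q G = dm Q F ∧ dm Q G' = dm Q F' ∧
      (G ⊆ G' ∨ G' ⊆ G) ∧ m = mu Q G + mu Q G' := by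
  obtain ⟨G, G', h1, h2, rfl⟩ := mem_SuppL_pair.1 h
  refine ⟨G, G', h1, h2, by_contra fun h3 => hn ⟨G ∪ G', G ∩ G', ⟨?_, ?_⟩,
    (mu_union_inter G G').symm⟩, rfl⟩
  · rw [← msS_congr h1, ← msS_congr h2]
    exact ms_union_inter_lt (fun h4 => h3 (Or.inl h4)) fun h4 => h3 (Or.inr h4)
  · rw [mu_union_inter, Nest_chg h1 h2]
theorem Nest_card_zero {F : Pc Q} (h : ∀ j, dm Q F j = 0) : F.card = 0 := by
  rw [card_eq_sum_dm]
  exact Finset.sum_eq_zero fun j _ => h j

theorem Nest_none (F : Pc Q) : dm Q F none + dm Q Fᶜ none = 1 := by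
  rw [dm_add_compl, dm_none, if_pos (Finset.mem_univ _)]

theorem Nest_some (F : Pc Q) (j : Fin Q.nI) : dm Q F (some j) + dm Q Fᶜ (some j) = Q.dim j := by
  rw [dm_add_compl, dm_univ_some]

theorem compl_of_chg {F F' : Pc Q} (h : chg Q (mu Q F + mu Q F') = 0)
    (hp : 0 < msS Q F + msS Q F') : NT Q F ∧ dm Q F' = dm Q Fᶜ := by
  have h1 : ∀ j, (dm Q F (some j) : ℤ) + dm Q F' (some j) =
      ((dm Q F none : ℤ) + dm Q F' none) * Q.dim j := fun j => by
    have h2 := congrFun h j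
    rw [chg_add, Pi.add_apply, chg_mu, chg_mu, Pi.zero_apply] at h2
    linarith
  have a1 := Nest_none F
  have a2 := Nest_none F'
  have a3 := Nest_some F
  have a4 := Nest_some F'
  have key : dm Q F' = dm Q Fᶜ := by
    rcases (by omega : dm Q F none + dm Q F' none = 0 ∨ dm Q F none + dm Q F' none = 1 ∨
      dm Q F none + dm Q F' none = 2) with e | e | e
    · have e' : (dm Q F none : ℤ) + dm Q F' none = 0 := by exact_mod_cast e
      simp only [e', zero_mul] at h1
      have b1 : F.card = 0 := Nest_card_zero fun j => by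
        cases j with
        | none => omega
        | some j => have := h1 j; omega
      have b2 : F'.card = 0 := Nest_card_zero fun j => by
        cases j with
        | none => omega
        | some j => have := h1 j; omega
      simp [msS, b1, b2] at hp
    · have e' : (dm Q F none : ℤ) + dm Q F' none = 1 := by exact_mod_cast e
      simp only [e', one_mul] at h1
      funext j
      cases j with
      | none => omega
      | some j => have := h1 j; have := a3 j; omega
    · have e' : (dm Q F none : ℤ) + dm Q F' none = 2 := by exact_mod_cast e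
      simp only [e'] at h1
      have b1 : Fᶜ.card = 0 := Nest_card_zero fun j => by
        cases j with
        | none => omega
        | some j => have := h1 j; have := a3 j; have := a4 j; omega
      have b2 : F'ᶜ.card = 0 := Nest_card_zero fun j => by
        cases j with
        | none => omega
        | some j => have := h1 j; have := a3 j; have := a4 j; omega
      simp only [msS, b1, b2, mul_zero, add_zero, lt_self_iff_false] at hp
  refine ⟨msS_pos_iff.1 ?_, key⟩
  rw [msS_congr key] at hp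
  simp only [msS, compl_compl, mul_comm Fᶜ.card] at hp ⊢
  omega
theorem msL_step {L L' : List (Pc Q)} (h : Step Q L L') : msL Q L' < msL Q L := by
  obtain ⟨F, F', R, G, G', h1, rfl, h2⟩ := h
  have := h2.1
  rw [msL_perm h1]
  simp only [msL_cons]
  omega
/-- If a step leads to a trivial list, the list consists of two opposite pieces. -/
theorem step_triv {L L' : List (Pc Q)} (h : Step Q L L') (h0 : msL Q L' = 0) :
    ∃ F F' R, L.Perm (F :: F' :: R) ∧ NT Q F ∧ dm Q F' = dm Q Fᶜ ∧ ∀ G ∈ R, ¬ NT Q G := by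
  obtain ⟨F, F', R, G, G', h1, rfl, h2, h3⟩ := h
  simp only [msL_cons] at h0
  rw [mu_triv (F := G) fun h => by have := msS_pos_iff.2 h; omega,
    mu_triv (F := G') fun h => by have := msS_pos_iff.2 h; omega, add_zero, chg_zero] at h3
  obtain ⟨h4, h5⟩ := compl_of_chg h3.symm (by omega)
  refine ⟨F, F', R, h1, h4, h5, fun H hH h6 => ?_⟩
  have := msL_pos_iff.2 ⟨H, hH, h6⟩
  omega
theorem mem_Ss_of_cnt {L : List (Pc Q)} (h1 : cnt Q L none ≤ 1) (h0 : chg Q (sumL Q L) = 0) :
    SuppL Q L ⊆ Ss Q := by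
  intro m hm
  refine ⟨fun k => ?_, (chg_of_mem_SuppL hm).trans h0⟩
  obtain ⟨M, h2, rfl⟩ := hm
  have h3 : sumL Q M k = _ := lv_sumL M (some k)
  rw [h3, cnt_none_congr h2]
  omega
theorem Ss_closed {m : Q.Lam} (h : m ∈ Ss Q) : SuppL Q (chainOf Q m) ⊆ Ss Q := by
  refine mem_Ss_of_cnt ?_ (by rw [sumL_chainOf]; exact h.2)
  rcases Nat.eq_zero_or_pos (chainOf Q m).length with h0 | h0
  · exact (List.countP_le_length.trans h0.le).trans zero_le_one
  · obtain ⟨x, hx⟩ : ∃ x, x ∉ (chainOf Q m)[0] := by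
      by_contra h1
      push Not at h1
      exact (chainOf_NT m _ (List.getElem_mem h0)).2 (Finset.eq_univ_of_forall h1)
    rw [desc_mem_iff (chainOf_desc m) h0] at hx
    have h1 := lv_sumL (chainOf Q m) x
    rw [sumL_chainOf] at h1
    have h2 : -1 ≤ Q.lv m x := by
      cases x with
      | none => exact neg_one_lt_zero.le
      | some k => exact h.1 k
    omega
theorem Nest_cnt_Jr {ρ : Bt Q → ℕ} {N : ℕ} (hN : ∀ x, ρ x < N) (x : Bt Q) :
    cnt Q (rl Q N (Jr Q ρ)) x = 1 := by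
  rw [cnt_rl, Finset.card_eq_one]
  refine ⟨ρ x, Finset.ext fun i => ?_⟩
  simp only [Jr, Finset.mem_filter, Finset.mem_range, Finset.mem_univ, true_and,
    Finset.mem_singleton]
  exact ⟨fun h => h.2.symm, fun h => ⟨h ▸ hN x, h.symm⟩⟩

theorem sumL_Jr {ρ : Bt Q → ℕ} {N : ℕ} (hN : ∀ x, ρ x < N) :
    sumL Q (rl Q N (Jr Q ρ)) = 0 :=
  lv_ext fun x => by rw [lv_sumL, Nest_cnt_Jr hN, Nest_cnt_Jr hN, sub_self, lv_zero]
theorem SuppL_Jr {ρ : Bt Q → ℕ} {N : ℕ} (hN : ∀ x, ρ x < N) :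
    SuppL Q (rl Q N (Jr Q ρ)) ⊆ Ss Q :=
  mem_Ss_of_cnt (Nest_cnt_Jr hN none).le (by rw [sumL_Jr hN, chg_zero])
theorem msL_Jr_pos {ρ : Bt Q → ℕ} {N : ℕ} (hN : ∀ x, ρ x < N) (h : ∃ k l, ρ k ≠ ρ l) :
    0 < msL Q (rl Q N (Jr Q ρ)) := by
  obtain ⟨k, l, h⟩ := h
  refine msL_pos_iff.2 ⟨Jr Q ρ (ρ k), mem_rl.2 ⟨ρ k, hN k, rfl⟩,
    Finset.ne_empty_of_mem (a := k) (by simp [Jr]), fun e => h ?_⟩
  exact (Finset.mem_filter.1 (e.ge (Finset.mem_univ l))).2.symm
theorem SuppL_compl (F : Pc Q) : SuppL Q [F, Fᶜ] ⊆ U01 Q := by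
  intro m hm
  refine ⟨fun k => ?_, by rw [chg_of_mem_SuppL hm, Nest_sum_pair, mu_add_compl, chg_zero]⟩
  obtain ⟨G, G', h1, h2, rfl⟩ := mem_SuppL_pair.1 hm
  simp only [mu, Pi.add_apply, none_mem_congr h1, none_mem_congr h2, Finset.mem_compl]
  split_ifs <;> omega
theorem U01_wl {w : Equiv.Perm Q.Var} (hw : w ∈ Wl Q.lab) {l : Q.Lam} (h : l ∈ U01 Q) :
    Q.wl w l ∈ U01 Q := by
  refine ⟨fun k => ?_, (chg_wl hw l).trans h.2⟩
  show -1 ≤ Sum.elim l 0 (w.symm (Sum.inl k)) ∧ Sum.elim l 0 (w.symm (Sum.inl k)) ≤ 1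
  cases w.symm (Sum.inl k) with
  | inl k' => exact h.1 k'
  | inr a => exact ⟨neg_one_lt_zero.le, zero_le_one⟩
/-- The chain is `[up l 0, up l 1]`. -/
theorem U01_chain {l : Q.Lam} (h : l ∈ U01 Q) (h0 : l ≠ 0) :
    ∃ F, NT Q F ∧ (chainOf Q l).map (dm Q) = [F, Fᶜ].map (dm Q) := by
  have h1 : mu Q (up Q l 0) + mu Q (up Q l 1) = l := by
    funext k
    have := h.1 k
    simp only [mu, up, Pi.add_apply, Finset.mem_filter, Finset.mem_univ, true_and, Qv.lv,
      Option.elim]
    split_ifs <;> omega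
  obtain ⟨h2, h3⟩ := compl_of_chg (F := up Q l 0) (F' := up Q l 1) (by rw [h1]; exact h.2) (by
    by_contra h2
    rw [mu_triv (F := up Q l 0) fun h => by have := msS_pos_iff.2 h; omega,
      mu_triv (F := up Q l 1) fun h => by have := msS_pos_iff.2 h; omega, add_zero] at h1
    exact h0 h1.symm)
  have h4 : NT Q (up Q l 1) := (NT_congr h3).2 (NT_compl h2)
  have h5 := ntL_eq_chainOf (L := [up Q l 0, up Q l 1]) (List.pairwise_pair.2 fun x hx =>
    Finset.mem_filter.2 ⟨Finset.mem_univ _, zero_le_one.trans (Finset.mem_filter.1 hx).2⟩)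
  rw [Nest_sum_pair, h1] at h5
  refine ⟨up Q l 0, h2, ?_⟩
  rw [← h5]
  simp [ntL, h2, h4, h3]
theorem wt_eq_chg (θ : Fin Q.nI → ℤ) (l : Q.Lam) :
    ∑ i, θ (Q.vt i) * l i = ∑ j, θ j * chg Q l j := by
  rw [← Finset.sum_fiberwise Finset.univ Q.vt]
  refine Finset.sum_congr rfl fun j _ => ?_
  rw [chg, Finset.mul_sum]
  exact Finset.sum_congr rfl fun k hk => by rw [(Finset.mem_filter.1 hk).2]
theorem Nest_gen {θ : Fin Q.nI → ℤ} (hθ : Q.Generic θ) {F : Pc Q} (hF : F ≠ ∅) (hn : none ∉ F) :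
    ∑ i, θ (Q.vt i) * mu Q F i ≠ 0 := by
  have h0 : dm Q F none = 0 := by rw [dm_none, if_neg hn]
  rw [wt_eq_chg]
  simp only [chg_mu, h0, Nat.cast_zero, zero_mul, sub_zero]
  refine hθ (fun j => dm Q F (some j)) (fun j => ?_) fun e => hF (Finset.card_eq_zero.1
    (Nest_card_zero fun j => ?_))
  · rw [← Nest_some F j]
    exact Nat.le_add_right _ _
  · cases j with
    | none => exact h0
    | some j => exact congrFun e j

theorem generic_mu {θ : Fin Q.nI → ℤ} (hθ : Q.Generic θ) {F : Pc Q} (hF : NT Q F) :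
    ∑ i, θ (Q.vt i) * mu Q F i ≠ 0 := by
  by_cases hn : none ∈ F
  · intro e
    refine Nest_gen hθ (NT_compl hF).1 (Finset.notMem_compl.2 hn) ?_
    rw [← zero_add (∑ i, θ (Q.vt i) * mu Q Fᶜ i), ← e, ← Finset.sum_add_distrib]
    refine (Finset.sum_eq_zero fun i _ => ?_).trans e.symm
    rw [← mul_add, ← Pi.add_apply (mu Q F), mu_add_compl, Pi.zero_apply, mul_zero]
  · exact Nest_gen hθ hF.1 hn

end Pool.Agent.HK.AC
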