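import Pool.Agent.P.MP_1206ce_ag.AC.Czero
import Pool.Agent.P.MP_1206ce_ag.AC.Nest

/-! Constant coefficients and the ideal of decomposable classes. -/

noncomputable section

open MvPolynomial

namespace Pool.Agent.HK.AC

variable {Q : Qv}

theorem C0_add {x y : Q.AA} {p q : Q.Pol} (hx : C0 Q x p) (hy : C0 Q y q) :
    C0 Q (x + y) (p + q) := by
  unfold C0 at *
  rw [AddMonoidAlgebra.coeff_add, Finsupp.add_apply, add_mul, hx, hy, map_add]
theorem C0_sub {x y : Q.AA} {p q : Q.Pol} (hx : C0 Q x p) (hy : C0 Q y q) :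
    C0 Q (x - y) (p - q) := by
  unfold C0 at *
  rw [AddMonoidAlgebra.coeff_sub, Finsupp.sub_apply, sub_mul, hx, hy, map_sub]
theorem C0_smul (a : ℂ) {x : Q.AA} {p : Q.Pol} (hx : C0 Q x p) : C0 Q (a • x) (a • p) := by
  unfold C0 at *
  rw [AddMonoidAlgebra.coeff_smul, Finsupp.smul_apply, smul_mul_assoc, hx, al_smul]
theorem Cz2_ne : al Q (Dl Q.lab ^ 2) ≠ 0 := al_ne_zero (pow_ne_zero 2 (Dl_ne_zero _))
theorem C0_zero_iff {x : Q.AA} : C0 Q x 0 ↔ x.coeff 0 = 0 := by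
  unfold C0
  rw [(al Q).map_zero, mul_eq_zero, or_iff_left Cz2_ne]
theorem C0_unique {x : Q.AA} {p q : Q.Pol} (hp : C0 Q x p) (hq : C0 Q x q) : p = q :=
  al_injective (hp.symm.trans hq)
theorem C0_iota (h : Q.Pol) : C0 Q (Q.iota h) (h * Dl Q.lab ^ 2) := by
  unfold C0
  rw [iota_coeff_zero, map_mul]
theorem Cz2_zero : C0 Q 0 0 := C0_zero_iff.2 rfl
/-- `PL_rl_le` and `czero`. -/
theorem czero_ex {ρ : Bt Q → ℕ} {N : ℕ} (hN : ∀ x, ρ x < N) {y : Q.AA}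
    (hy : y ∈ PL Q (rl Q N (Jr Q ρ))) : ∃ G, C0 Q y (Sym Q.lab (G * DA Q ρ)) := by
  obtain ⟨κ, -, hκ⟩ := czero (Q := Q) hN
  let T : Submodule ℂ Q.AA :=
    { carrier := {y | ∃ G, C0 Q y (Sym Q.lab (G * DA Q ρ))}
      add_mem' := by
        rintro x y ⟨G, hG⟩ ⟨G', hG'⟩
        exact ⟨G + G', by rw [add_mul, map_add]; exact C0_add hG hG'⟩
      zero_mem' := ⟨0, by rw [zero_mul, map_zero]; exact Cz2_zero⟩
      smul_mem' := by
        rintro a x ⟨G, hG⟩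
        exact ⟨a • G, by rw [smul_mul_assoc, map_smul]; exact C0_smul a hG⟩ }
  refine PL_rl_le N (Jr Q ρ) T (fun f h hf hh => ?_) hy
  exact ⟨κ • ((∏ i ∈ Finset.range N, f i) * h), by
    rw [smul_mul_assoc, map_smul]; exact hκ f h hf hh⟩
/-- The span of the products `(∏ f i) * h` is a subalgebra; use `Rinv_labr_le`. -/
theorem czero_onto {ρ : Bt Q → ℕ} {N : ℕ} (hN : ∀ x, ρ x < N) {G : Q.Pol}
    (hG : G ∈ Rinv (Q.labr ρ)) :
    ∃ y ∈ PL Q (rl Q N (Jr Q ρ)), C0 Q y (Sym Q.lab (G * DA Q ρ)) := by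
  classical
  obtain ⟨κ, hκ0, hκ⟩ := czero (Q := Q) hN
  let T : Submodule ℂ Q.Pol :=
    { carrier := {G | ∃ y ∈ PL Q (rl Q N (Jr Q ρ)), C0 Q y (Sym Q.lab (G * DA Q ρ))}
      add_mem' := by
        rintro G G' ⟨x, hx, hG⟩ ⟨y, hy, hG'⟩
        exact ⟨x + y, add_mem hx hy, by rw [add_mul, map_add]; exact C0_add hG hG'⟩
      zero_mem' := ⟨0, zero_mem _, by rw [zero_mul, map_zero]; exact Cz2_zero⟩
      smul_mem' := by
        rintro a G ⟨x, hx, hG⟩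
        exact ⟨a • x, Submodule.smul_mem _ a hx, by
          rw [smul_mul_assoc, map_smul]; exact C0_smul a hG⟩ }
  let P : Submonoid Q.Pol :=
    { carrier := {p | ∃ (f : ℕ → Q.Pol) (h : Q.Pol), (∀ i < N, f i ∈ RL Q (mu Q (Jr Q ρ i))) ∧
        h ∈ Rinv Q.lab ∧ p = (∏ i ∈ Finset.range N, f i) * h}
      mul_mem' := by
        rintro _ _ ⟨f, h, hf, hh, rfl⟩ ⟨f', h', hf', hh', rfl⟩
        refine ⟨fun i => f i * f' i, h * h', fun i hi => mul_mem (hf i hi) (hf' i hi),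
          mul_mem hh hh', ?_⟩
        rw [Finset.prod_mul_distrib]
        ring
      one_mem' := ⟨fun _ => 1, 1, fun _ _ => one_mem _, one_mem _, by simp⟩ }
  have hPT : Submodule.span ℂ (P : Set Q.Pol) ≤ T := by
    rw [Submodule.span_le]
    rintro _ ⟨f, h, hf, hh, rfl⟩
    refine ⟨κ⁻¹ • ((∏ i ∈ Finset.range N, MF Q (Jr Q ρ i) (f i)) * Q.iota h),
      Submodule.smul_mem _ _ (prod_mem_PL_rl N _ f hh), ?_⟩
    have h1 := C0_smul κ⁻¹ (hκ f h hf hh)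
    rwa [smul_smul, inv_mul_cancel₀ hκ0, one_smul] at h1
  have hA : Rinv (Q.labr ρ) ≤ Algebra.adjoin ℂ (P : Set Q.Pol) := by
    refine Rinv_labr_le ρ _ (fun a => Algebra.subset_adjoin
      ⟨fun _ => 1, _, fun _ _ => one_mem _, X_inr_mem a, by simp⟩) fun i j a => ?_
    by_cases hi : i < N
    · refine Algebra.subset_adjoin ⟨fun k => if k = i then pS Q (Jr Q ρ i) j a else 1, 1,
        fun k _ => ?_, one_mem _, ?_⟩
      · by_cases hk : k = i
        · simp only [hk, if_true]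
          exact pS_mem_RL _ j a
        · simp only [hk, if_false]
          exact one_mem _
      · rw [Finset.prod_ite_eq' (Finset.range N) i fun _ => pS Q (Jr Q ρ i) j a,
          if_pos (Finset.mem_range.2 hi), mul_one]
    · have e : Jr Q ρ i = ∅ := Finset.eq_empty_of_forall_notMem fun x hx => by
        have := Czero_mem_Jr.1 hx
        have := hN x
        omega
      rw [e, pS_empty]
      exact zero_mem _
  have h2 : G ∈ Subalgebra.toSubmodule (Algebra.adjoin ℂ (P : Set Q.Pol)) := hA hG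
  rw [Algebra.adjoin_eq_span, Submonoid.closure_eq] at h2
  exact hPT h2
/-- `rename_Dl_labr`, `rename_Arho`. -/
theorem Sym_mem_Kdec {ρ : Bt Q → ℕ} (h : ∃ k l, ρ k ≠ ρ l) (G : Q.Pol) :
    Sym Q.lab (G * DA Q ρ) ∈ Q.Kdec := by
  rw [Sym_apply]
  refine Ideal.sum_mem _ fun w hw => ?_
  obtain ⟨s, -, hs⟩ := rename_Dl_labr hw ρ
  obtain ⟨k, l, hkl⟩ := h
  have h1 : Dl (Q.labr fun x => ρ (wb Q w⁻¹ x)) * Q.Arho (fun x => ρ (wb Q w⁻¹ x)) ∈ Q.Kdec :=
    Ideal.subset_span ⟨_, ⟨wb Q w k, wb Q w l, by simpa only [wb_inv_wb hw] using hkl⟩, rfl⟩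
  have e : rename w (G * DA Q ρ) = (rename w G * rename w (Dl (Q.labr ρ)) * C s) *
      (Dl (Q.labr fun x => ρ (wb Q w⁻¹ x)) * Q.Arho (fun x => ρ (wb Q w⁻¹ x))) := by
    unfold DA
    rw [map_mul, map_mul, map_pow, rename_Arho hw, pow_two]
    nth_rewrite 2 [hs]
    rw [smul_eq_C_mul]
    ring
  rw [e]
  exact Ideal.mul_mem_left _ _ h1
/-- `[F, Fᶜ] = rl 2 (Jr ρ)` for the indicator function `ρ` of `Fᶜ`. -/
theorem TT_C0 {t : Q.AA} (ht : t ∈ TT Q) : ∃ p ∈ Q.Kdec, C0 Q t p := by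
  classical
  let T : Submodule ℂ Q.AA :=
    { carrier := {t | ∃ p ∈ Q.Kdec, C0 Q t p}
      add_mem' := by
        rintro x y ⟨p, hp, hx⟩ ⟨q, hq, hy⟩
        exact ⟨p + q, add_mem hp hq, C0_add hx hy⟩
      zero_mem' := ⟨0, zero_mem _, Cz2_zero⟩
      smul_mem' := by
        rintro a x ⟨p, hp, hx⟩
        exact ⟨a • p, by rw [smul_eq_C_mul]; exact Ideal.mul_mem_left _ _ hp, C0_smul a hx⟩ }
  have hT : TT Q ≤ T := by
    refine iSup_le fun F => iSup_le fun hF => fun y hy => ?_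
    let ρ : Bt Q → ℕ := fun x => if x ∈ F then 0 else 1
    have hN : ∀ x, ρ x < 2 := fun x => by
      simp only [ρ]
      split_ifs <;> omega
    have e0 : Jr Q ρ 0 = F := by
      ext x
      rw [Czero_mem_Jr]
      simp [ρ]
    have e1 : Jr Q ρ 1 = Fᶜ := by
      ext x
      rw [Czero_mem_Jr]
      simp [ρ]
    have e : rl Q 2 (Jr Q ρ) = [F, Fᶜ] := by
      rw [← e1, ← e0]
      rfl
    rw [← e] at hy
    obtain ⟨G, hG⟩ := czero_ex hN hy
    refine ⟨_, Sym_mem_Kdec ?_ G, hG⟩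
    obtain ⟨k, hk⟩ := Finset.nonempty_iff_ne_empty.2 hF.1
    obtain ⟨l, hl⟩ : ∃ l, l ∉ F := by
      by_contra hc
      push Not at hc
      exact hF.2 (Finset.eq_univ_of_forall hc)
    exact ⟨k, l, by simp [ρ, hk, hl]⟩
  exact hT ht
/-- Average first over `Wl (labr ρ)`: `Sym (q * D * A) = D * A * Alt q` there, and
`Alt q = D * g` (`exists_Alt_eq`). -/
theorem Sym_gen (ρ : Bt Q → ℕ) (q : Q.Pol) : ∃ G ∈ Rinv (Q.labr ρ),
    Sym Q.lab (q * (Dl (Q.labr ρ) * Q.Arho ρ)) = Sym Q.lab (G * DA Q ρ) := by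
  obtain ⟨g, hg, hq⟩ := exists_Alt_eq (Q.labr ρ) q
  refine ⟨((Wl (Q.labr ρ)).card : ℂ)⁻¹ • g, Subalgebra.smul_mem _ hg _, ?_⟩
  have h1 : Sym Q.lab (Sym (Q.labr ρ) (q * (Dl (Q.labr ρ) * Q.Arho ρ))) =
      ((Wl (Q.labr ρ)).card : ℂ) • Sym Q.lab (q * (Dl (Q.labr ρ) * Q.Arho ρ)) := by
    rw [Sym_apply (Q.labr ρ), map_sum,
      Finset.sum_congr rfl fun u hu => Sym_rename (mem_Wl_labr.1 hu).1 _,
      Finset.sum_const, Nat.cast_smul_eq_nsmul]
  have h2 : Sym (Q.labr ρ) (q * (Dl (Q.labr ρ) * Q.Arho ρ)) = g * DA Q ρ := by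
    have h3 : Sym (Q.labr ρ) (q * (Dl (Q.labr ρ) * Q.Arho ρ)) =
        (Dl (Q.labr ρ) * Q.Arho ρ) * Alt (Q.labr ρ) q := by
      rw [Sym_apply, Alt_apply, Finset.mul_sum]
      refine Finset.sum_congr rfl fun u hu => ?_
      rw [map_mul, map_mul, rename_Dl hu, Arho_mem ρ u hu, smul_eq_C_mul, smul_eq_C_mul]
      ring
    rw [h3, hq]
    unfold DA
    ring
  rw [smul_mul_assoc, map_smul, ← h2, h1, smul_smul, inv_mul_cancel₀ (card_Wl_ne_zero _), one_smul]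
/-- Apply `Sym` to a presentation of `h * D ^ 2`. -/
theorem Kdec_c0 {h : Q.Pol} (hh : h ∈ Q.I0) :
    ∃ y ∈ II Q, (∀ m, y.coeff m ≠ 0 → m ∈ Ss Q) ∧ y.coeff 0 = al Q h := by
  have key : ∀ p ∈ Q.Kdec, ∀ q : Q.Pol, ∃ y ∈ II Q, (∀ m, y.coeff m ≠ 0 → m ∈ Ss Q) ∧
      C0 Q y (Sym Q.lab (q * p)) := by
    intro p hp
    induction hp using Submodule.span_induction with
    | mem p hp =>
      obtain ⟨ρ, hρ, rfl⟩ := hp
      intro q
      have hN : ∀ x, ρ x < Finset.univ.sup ρ + 1 := fun x =>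
        Nat.lt_succ_of_le (Finset.le_sup (f := ρ) (Finset.mem_univ x))
      obtain ⟨G, hG, e⟩ := Sym_gen ρ q
      obtain ⟨y, hy, hc⟩ := czero_onto hN hG
      exact ⟨y, PL_le_II (msL_Jr_pos hN hρ) hy, fun m hm => SuppL_Jr hN (supp_PL hy hm), e ▸ hc⟩
    | zero =>
      intro q
      exact ⟨0, zero_mem _, fun m hm => (hm rfl).elim, by rw [mul_zero, map_zero]; exact Cz2_zero⟩
    | add p p' _ _ h1 h2 =>
      intro q
      obtain ⟨y, hy, hs, hc⟩ := h1 q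
      obtain ⟨y', hy', hs', hc'⟩ := h2 q
      refine ⟨y + y', add_mem hy hy', fun m hm => ?_, by rw [mul_add, map_add]; exact C0_add hc hc'⟩
      by_cases h0 : y.coeff m = 0
      · refine hs' m fun h1 => hm ?_
        rw [AddMonoidAlgebra.coeff_add, Finsupp.add_apply, h0, h1, add_zero]
      · exact hs m h0
    | smul a p _ h1 =>
      intro q
      rw [smul_eq_mul, ← mul_assoc]
      exact h1 (q * a)
  obtain ⟨y, hy, hs, hc⟩ := key _ hh.2 1
  rw [one_mul, Sym_of_mem (mul_mem hh.1 Dl_sq_mem)] at hc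
  have h1 := C0_smul ((Wl Q.lab).card : ℂ)⁻¹ hc
  rw [smul_smul, inv_mul_cancel₀ (card_Wl_ne_zero _), one_smul] at h1
  refine ⟨_, Submodule.smul_mem _ ((Wl Q.lab).card : ℂ)⁻¹ hy, fun m hm => hs m fun h0 => hm ?_, ?_⟩
  · rw [AddMonoidAlgebra.coeff_smul, Finsupp.smul_apply, h0, smul_zero]
  · unfold C0 at h1
    rw [map_mul] at h1
    exact mul_right_cancel₀ Cz2_ne h1

end Pool.Agent.HK.AC
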