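import Pool.Agent.P.MP_1206ce_ag.AC.Lead

/-! The constant coefficient of a product over a partition. -/

noncomputable section

open MvPolynomial

namespace Pool.Agent.HK.AC

variable {Q : Qv}

theorem Czero_mem_Jr {ρ : Bt Q → ℕ} {i : ℕ} {x : Bt Q} : x ∈ Jr Q ρ i ↔ ρ x = i := by
  simp [Jr]

theorem Czero_cnt_Jr {ρ : Bt Q → ℕ} {N : ℕ} (hN : ∀ x, ρ x < N) (x : Bt Q) :
    cnt Q (rl Q N (Jr Q ρ)) x = 1 := by
  rw [cnt_rl, Finset.card_eq_one]
  refine ⟨ρ x, ?_⟩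
  ext i
  simp only [Finset.mem_filter, Finset.mem_range, Czero_mem_Jr, Finset.mem_singleton]
  exact ⟨fun h => h.2.symm, fun h => ⟨h ▸ hN x, h.symm⟩⟩

theorem Czero_sum_Jr {ρ : Bt Q → ℕ} {N : ℕ} (hN : ∀ x, ρ x < N) :
    ∑ i ∈ Finset.range N, mu Q (Jr Q ρ i) = 0 := by
  rw [← sumL_rl]
  refine lv_ext fun x => ?_
  rw [lv_sumL, Czero_cnt_Jr hN, Czero_cnt_Jr hN, lv_zero, sub_self]

theorem Czero_wS_inj {w : Equiv.Perm Q.Var} (hw : w ∈ Wl Q.lab) {F G : Pc Q} :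
    wS Q w F = wS Q w G ↔ F = G := by
  refine ⟨fun h => ?_, fun h => by rw [h]⟩
  ext x
  rw [← wb_mem_wS hw, h, wb_mem_wS hw]

theorem Czero_wl_sum (w : Equiv.Perm Q.Var) {ι : Type} (s : Finset ι) (l : ι → Q.Lam) :
    Q.wl w (∑ i ∈ s, l i) = ∑ i ∈ s, Q.wl w (l i) := by
  classical
  induction s using Finset.induction_on with
  | empty => rw [Finset.sum_empty, Finset.sum_empty, wl_zero]
  | insert a s ha ih => rw [Finset.sum_insert ha, Finset.sum_insert ha, wl_add, ih]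

/-- A family of pieces with sum zero and exactly one piece through `none` is a partition; families
with the dimension vectors of `Jr ρ` form one Weyl orbit (`exists_W_Jr`). -/
theorem exists_W_of_sum_zero {ρ : Bt Q → ℕ} {N : ℕ} (hN : ∀ x, ρ x < N) (G : ℕ → Pc Q)
    (hG : ∀ i < N, dm Q (G i) = dm Q (Jr Q ρ i)) (h0 : ∑ i ∈ Finset.range N, mu Q (G i) = 0) :
    ∃ w ∈ Wl Q.lab, ∀ i < N, G i = wS Q w (Jr Q ρ i) := by
  have h1 : ∀ x, ∃ a, (Finset.range N).filter (fun i => x ∈ G i) = {a} := by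
    intro x
    have e1 : Q.lv (sumL Q (rl Q N G)) x = 0 := by rw [sumL_rl, h0, lv_zero]
    rw [lv_sumL, cnt_none_congr (map_dm_rl hG), Czero_cnt_Jr hN, cnt_rl] at e1
    rw [← Finset.card_eq_one]
    omega
  choose ρ' hρ' using h1
  have h2 : ∀ x i, i < N ∧ x ∈ G i ↔ ρ' x = i := by
    intro x i
    have := Finset.ext_iff.1 (hρ' x) i
    rw [Finset.mem_filter, Finset.mem_range, Finset.mem_singleton] at this
    rw [this, eq_comm]
  have h3 : ∀ i < N, G i = Jr Q ρ' i := by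
    intro i hi
    ext x
    rw [Czero_mem_Jr, ← h2]
    exact ⟨fun h => ⟨hi, h⟩, fun h => h.2⟩
  have h4 : ∀ i, dm Q (Jr Q ρ i) = dm Q (Jr Q ρ' i) := by
    intro i
    by_cases hi : i < N
    · rw [← h3 i hi, hG i hi]
    · have e1 : Jr Q ρ i = ∅ := Finset.eq_empty_of_forall_notMem fun x hx =>
        hi (Czero_mem_Jr.1 hx ▸ hN x)
      have e2 : Jr Q ρ' i = ∅ := Finset.eq_empty_of_forall_notMem fun x hx =>
        hi ((h2 x i).2 (Czero_mem_Jr.1 hx)).1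
      rw [e1, e2]
  obtain ⟨w, hw, hρ⟩ := exists_W_Jr h4
  refine ⟨w, hw, fun i hi => ?_⟩
  rw [h3 i hi]
  ext x
  rw [mem_wS, Czero_mem_Jr, Czero_mem_Jr, ← hρ, wb_wb_inv hw]

/-- The coefficient of a monopole operator. -/
def Czero_c (Q : Qv) (F : Pc Q) (f : Q.Pol) : Q.Frac :=
  al Q (f * Q.phi (mu Q F)) / al Q (Q.eul (mu Q F))

theorem Czero_c_fix {F : Pc Q} {f : Q.Pol} (hf : f ∈ RL Q (mu Q F)) {u : Equiv.Perm Q.Var}
    (hu : u ∈ Wl (labl Q (mu Q F))) : Q.wF u (Czero_c Q F f) = Czero_c Q F f := by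
  unfold Czero_c
  rw [map_div₀, wF_al, wF_al, mem_Rinv.1 (mul_mem hf (phi_mem_RL _)) u hu,
    mem_Rinv.1 (eul_mem_RL _) u hu]

/-- The sum over a coset of the stabiliser of a piece. -/
theorem Czero_coset {F : Pc Q} {f : Q.Pol} (hf : f ∈ RL Q (mu Q F)) {w : Equiv.Perm Q.Var}
    (hw : w ∈ Wl Q.lab) :
    ∑ u ∈ Wl Q.lab, (if wS Q u F = wS Q w F then Q.wF u (Czero_c Q F f) else 0) =
      ((Wl (labl Q (mu Q F))).card : ℂ) • Q.wF w (Czero_c Q F f) := by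
  rw [← Sym_sum_left hw, ← Finset.sum_filter]
  have e : (Wl Q.lab).filter (fun u => wS Q (w * u) F = wS Q w F) = Wl (labl Q (mu Q F)) := by
    ext u
    rw [Finset.mem_filter, mem_Wl_mu, wS_mul hw, Czero_wS_inj hw]
  rw [e, Finset.sum_congr rfl fun u hu => by rw [wF_mul, Czero_c_fix hf hu], Finset.sum_const,
    Nat.cast_smul_eq_nsmul]

theorem Czero_stab {ρ : Bt Q → ℕ} {N : ℕ} (hN : ∀ x, ρ x < N) :
    (Wl Q.lab).filter (fun u => ∀ i : Fin N, Jr Q ρ i = wS Q u (Jr Q ρ i)) = Wl (Q.labr ρ) := by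
  ext u
  rw [Finset.mem_filter, mem_Wl_labr]
  refine and_congr_right fun hu => ⟨fun h x => ?_, fun h i => ?_⟩
  · have h1 : x ∈ Jr Q ρ (ρ x) := Czero_mem_Jr.2 rfl
    rw [← wb_mem_wS hu, ← h ⟨ρ x, hN x⟩] at h1
    exact Czero_mem_Jr.1 h1
  · ext x
    rw [mem_wS, Czero_mem_Jr, Czero_mem_Jr, ← h (wb Q u⁻¹ x), wb_wb_inv hu]

/-- The number of Weyl group elements that agree with a tuple. -/
theorem Czero_count {ρ : Bt Q → ℕ} {N : ℕ} (hN : ∀ x, ρ x < N) {t : Fin N → Equiv.Perm Q.Var}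
    (ht : ∀ i, t i ∈ Wl Q.lab) (c : Q.Frac) :
    ∑ w ∈ Wl Q.lab, (if ∀ i : Fin N, wS Q (t i) (Jr Q ρ i) = wS Q w (Jr Q ρ i) then c else 0) =
      ((Wl (Q.labr ρ)).card : ℂ) •
        if ∑ i : Fin N, Q.wl (t i) (mu Q (Jr Q ρ i)) = 0 then c else 0 := by
  by_cases h0 : ∑ i : Fin N, Q.wl (t i) (mu Q (Jr Q ρ i)) = 0
  · rw [if_pos h0]
    obtain ⟨w, hw, hG⟩ := exists_W_of_sum_zero hN
      (fun i => if h : i < N then wS Q (t ⟨i, h⟩) (Jr Q ρ i) else ∅)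
      (fun i hi => by rw [dif_pos hi, dm_wS (ht _)]) (by
        rw [Finset.sum_range, ← h0]
        exact Finset.sum_congr rfl fun i _ => by rw [dif_pos i.2, wl_mu (ht i)])
    have hG' : ∀ i : Fin N, wS Q (t i) (Jr Q ρ i) = wS Q w (Jr Q ρ i) := fun i => by
      have := hG i i.2
      rwa [dif_pos i.2] at this
    rw [← Sym_sum_left hw, ← Finset.sum_filter]
    have e : (Wl Q.lab).filter (fun u => ∀ i : Fin N, wS Q (t i) (Jr Q ρ i) =
        wS Q (w * u) (Jr Q ρ i)) = Wl (Q.labr ρ) := by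
      rw [← Czero_stab hN]
      refine Finset.filter_congr fun u _ => forall_congr' fun i => ?_
      rw [hG', wS_mul hw, Czero_wS_inj hw]
    rw [e, Finset.sum_const, Nat.cast_smul_eq_nsmul]
  · rw [if_neg h0, smul_zero]
    refine Finset.sum_eq_zero fun w hw => if_neg fun h => h0 ?_
    have e : ∑ i : Fin N, Q.wl (t i) (mu Q (Jr Q ρ i)) =
        ∑ i : Fin N, Q.wl w (mu Q (Jr Q ρ i)) :=
      Finset.sum_congr rfl fun i _ => by rw [wl_mu (ht i), wl_mu hw, h i]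
    rw [e, ← Czero_wl_sum, ← Finset.sum_range fun i => mu Q (Jr Q ρ i), Czero_sum_Jr hN, wl_zero]

theorem Czero_coeff_M0 {N : ℕ} (J : Fin N → Pc Q) (f : Fin N → Q.Pol) :
    (∏ i, M0 Q (J i) (f i)).coeff 0 = ∑ t ∈ Fintype.piFinset fun _ : Fin N => Wl Q.lab,
      if ∑ i, Q.wl (t i) (mu Q (J i)) = 0 then ∏ i, Q.wF (t i) (Czero_c Q (J i) (f i)) else 0 := by
  unfold M0
  rw [Finset.prod_univ_sum, AddMonoidAlgebra.coeff_sum, Finsupp.finsetSum_apply]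
  refine Finset.sum_congr rfl fun t _ => ?_
  rw [AddMonoidAlgebra.prod_single, AddMonoidAlgebra.coeff_single, Finsupp.single_apply]
  rfl

theorem Czero_main {ρ : Bt Q → ℕ} {N : ℕ} (hN : ∀ x, ρ x < N) (f : Fin N → Q.Pol)
    (hf : ∀ i : Fin N, f i ∈ RL Q (mu Q (Jr Q ρ i))) :
    ((Wl (Q.labr ρ)).card : ℂ) • (∏ i : Fin N, M0 Q (Jr Q ρ i) (f i)).coeff 0 =
      (∏ i : Fin N, ((Wl (labl Q (mu Q (Jr Q ρ i)))).card : ℂ)) •
        ∑ w ∈ Wl Q.lab, Q.wF w (∏ i : Fin N, Czero_c Q (Jr Q ρ i) (f i)) := by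
  rw [Czero_coeff_M0, Finset.smul_sum, Finset.smul_sum,
    Finset.sum_congr rfl fun t ht => (Czero_count hN (Fintype.mem_piFinset.1 ht) _).symm,
    Finset.sum_comm]
  refine Finset.sum_congr rfl fun w hw => ?_
  rw [map_prod, ← Finset.prod_smul, Finset.prod_congr rfl fun i _ => (Czero_coset (hf i) hw).symm,
    Finset.prod_univ_sum]
  refine Finset.sum_congr rfl fun t _ => ?_
  rw [Finset.prod_ite_zero]
  simp only [Finset.mem_univ, forall_const]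

/-- Expand the product over tuples `(w i)`; only tuples with `wS (w i) (J i) = wS w (J i)` for some
`w` contribute, the term is `wF w` of the product, and `w` is unique up to `Wl (labr ρ)`. -/
theorem coeff_zero_prod {ρ : Bt Q → ℕ} {N : ℕ} (hN : ∀ x, ρ x < N) (f : ℕ → Q.Pol)
    (hf : ∀ i < N, f i ∈ RL Q (mu Q (Jr Q ρ i))) :
    ((Wl (Q.labr ρ)).card : ℂ) • (∏ i ∈ Finset.range N, MF Q (Jr Q ρ i) (f i)).coeff 0 =
      ∑ w ∈ Wl Q.lab, Q.wF w (∏ i ∈ Finset.range N,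
        al Q (f i * Q.phi (mu Q (Jr Q ρ i))) / al Q (Q.eul (mu Q (Jr Q ρ i)))) := by
  have h1 := Czero_main hN (fun i => f i) fun i => hf i i.2
  have h2 : (∏ i : Fin N, ((Wl (labl Q (mu Q (Jr Q ρ i)))).card : ℂ)) ≠ 0 :=
    Finset.prod_ne_zero_iff.2 fun i _ => card_Wl_ne_zero _
  simp only [Finset.prod_range]
  unfold MF
  rw [Finset.prod_smul, AddMonoidAlgebra.coeff_smul_apply, smul_comm, h1, Finset.prod_inv_distrib,
    inv_smul_smul₀ h2]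
  rfl

/-- `prod_phi_Jr` and `Dl_sq_eq`. -/
theorem czero {ρ : Bt Q → ℕ} {N : ℕ} (hN : ∀ x, ρ x < N) : ∃ κ : ℂ, κ ≠ 0 ∧
    ∀ (f : ℕ → Q.Pol) (h : Q.Pol), (∀ i < N, f i ∈ RL Q (mu Q (Jr Q ρ i))) → h ∈ Rinv Q.lab →
      C0 Q ((∏ i ∈ Finset.range N, MF Q (Jr Q ρ i) (f i)) * Q.iota h)
        (κ • Sym Q.lab ((∏ i ∈ Finset.range N, f i) * h * DA Q ρ)) := by
  obtain ⟨s, hs, hD⟩ := Dl_sq_eq ρ hN
  have hr := card_Wl_ne_zero (Q.labr ρ)
  have hs0 : s ≠ 0 := fun h => by simp [h] at hs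
  refine ⟨((Wl (Q.labr ρ)).card : ℂ)⁻¹ * s, mul_ne_zero (inv_ne_zero hr) hs0,
    fun f h hf hh => ?_⟩
  have h1 := coeff_zero_prod hN f hf
  have he : al Q (∏ i ∈ Finset.range N, Q.eul (mu Q (Jr Q ρ i))) ≠ 0 :=
    al_ne_zero (Finset.prod_ne_zero_iff.2 fun i _ => eul_ne_zero _)
  have h2 : (∏ i ∈ Finset.range N,
      al Q (f i * Q.phi (mu Q (Jr Q ρ i))) / al Q (Q.eul (mu Q (Jr Q ρ i)))) *
      al Q (h * Dl Q.lab ^ 2) = s • al Q ((∏ i ∈ Finset.range N, f i) * h * DA Q ρ) := by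
    rw [Finset.prod_div_distrib, ← map_prod, ← map_prod, Finset.prod_mul_distrib,
      prod_phi_Jr ρ hN, hD, div_mul_eq_mul_div, div_eq_iff he, ← al_smul, ← map_mul, ← map_mul]
    congr 1
    unfold DA
    simp only [smul_eq_C_mul]
    ring
  have h3 : ∀ w ∈ Wl Q.lab, Q.wF w (∏ i ∈ Finset.range N,
      al Q (f i * Q.phi (mu Q (Jr Q ρ i))) / al Q (Q.eul (mu Q (Jr Q ρ i)))) *
      al Q (h * Dl Q.lab ^ 2) =
      s • al Q (rename w ((∏ i ∈ Finset.range N, f i) * h * DA Q ρ)) := by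
    intro w hw
    rw [← wF_al, ← wF_smul, ← h2, map_mul (Q.wF w), wF_al,
      mem_Rinv.1 (mul_mem hh Dl_sq_mem) w hw]
  unfold C0
  rw [mul_comm _ (Q.iota h), iota_mul_coeff, al_smul, mul_smul, eq_inv_smul_iff₀ hr,
    mul_comm (al Q h), mul_assoc, ← map_mul, ← smul_mul_assoc, h1, Finset.sum_mul,
    Finset.sum_congr rfl h3, Sym_apply, map_sum, Finset.smul_sum]

end Pool.Agent.HK.AC
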