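import Pool.Agent.P.MP_1206ce_ag.Alg.CDefs
import Pool.Agent.P.MP_1206ce_ag.Alg.Sym
import Pool.Agent.P.MP_1206ce_ag.Alg.Artin

/-! Monopole operators, chains of pieces and the ideal they generate: definitions. -/

noncomputable section

open MvPolynomial

namespace Pool.Agent.HK.AC

/-! ### Relations between fraction fields and transfer of submodules -/

/-- `c` is the value of the fraction `c'` under the partially defined extension of `ψ`. -/
def Rel {σ' σ : Type} (ψ : MvPolynomial σ' ℂ →ₐ[ℂ] MvPolynomial σ ℂ)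
    (c' : FractionRing (MvPolynomial σ' ℂ)) (c : FractionRing (MvPolynomial σ ℂ)) : Prop :=
  ∃ a d : MvPolynomial σ' ℂ, ψ d ≠ 0 ∧
    c' * algebraMap _ (FractionRing (MvPolynomial σ' ℂ)) d =
      algebraMap _ (FractionRing (MvPolynomial σ' ℂ)) a ∧
    c * algebraMap _ (FractionRing (MvPolynomial σ ℂ)) (ψ d) =
      algebraMap _ (FractionRing (MvPolynomial σ ℂ)) (ψ a)

/-- The relation `Rel`, coefficient by coefficient. -/
def RelA {σ' σ Λ : Type} (ψ : MvPolynomial σ' ℂ →ₐ[ℂ] MvPolynomial σ ℂ)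
    (z' : AddMonoidAlgebra (FractionRing (MvPolynomial σ' ℂ)) Λ)
    (z : AddMonoidAlgebra (FractionRing (MvPolynomial σ ℂ)) Λ) : Prop :=
  ∀ l, Rel ψ (z'.coeff l) (z.coeff l)

/-- A relation that is compatible with the algebra operations. -/
structure RCl {A' A : Type} [CommRing A'] [Algebra ℂ A'] [CommRing A] [Algebra ℂ A]
    (r : A' → A → Prop) : Prop where
  zero : r 0 0
  one : r 1 1
  add : ∀ {x' y' : A'} {x y : A}, r x' x → r y' y → r (x' + y') (x + y)
  smul : ∀ (a : ℂ) {x' : A'} {x : A}, r x' x → r (a • x') (a • x)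
  mul : ∀ {x' y' : A'} {x y : A}, r x' x → r y' y → r (x' * y') (x * y)

/-- Every element of `M'` has a partner in `M`. -/
def Tr {A' A : Type} [CommRing A'] [Algebra ℂ A'] [CommRing A] [Algebra ℂ A]
    (r : A' → A → Prop) (M' : Submodule ℂ A') (M : Submodule ℂ A) : Prop :=
  ∀ x' ∈ M', ∃ x ∈ M, r x' x

/-! ### Pieces and monopole operators -/

variable (Q : Qv)

/-- Basis vectors of `V ⊕ ℂ`. -/
abbrev Bt : Type := Option (Fin Q.nB)
/-- Pieces: sets of basis vectors. -/
abbrev Pc : Type := Finset (Bt Q)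
/-- Polynomials as fractions. -/
abbrev al : Q.Pol →+* Q.Frac := algebraMap Q.Pol Q.Frac

/-- The Weyl group acts on basis vectors. -/
def wb (w : Equiv.Perm Q.Var) (x : Bt Q) : Bt Q := x.bind fun k => (w (Sum.inl k)).getLeft?
/-- The Weyl group acts on pieces. -/
def wS (w : Equiv.Perm Q.Var) (F : Pc Q) : Pc Q := Finset.univ.filter fun x => wb Q w⁻¹ x ∈ F
/-- `m` lies in the Weyl orbit of `l`. -/
def WO (l m : Q.Lam) : Prop := ∃ w ∈ Wl Q.lab, m = Q.wl w l
/-- The minuscule cocharacter of a piece. -/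
def mu (F : Pc Q) : Q.Lam :=
  fun k => (if some k ∈ F then 1 else 0) - (if none ∈ F then 1 else 0)
/-- The dimension vector of a piece. -/
def dm (F : Pc Q) (j : Option (Fin Q.nI)) : ℕ := (F.filter fun x => Q.vb x = j).card
/-- The topological charge. -/
def chg (l : Q.Lam) (j : Fin Q.nI) : ℤ := ∑ k ∈ Finset.univ.filter (fun k => Q.vt k = j), l k
/-- Upper level sets. -/
def up (l : Q.Lam) (i : ℤ) : Pc Q := Finset.univ.filter fun x => i ≤ Q.lv l x
/-- Level sets of a level function. -/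
def Jr (ρ : Bt Q → ℕ) (i : ℕ) : Pc Q := Finset.univ.filter fun x => ρ x = i
/-- The list of the first `N` members of a family. -/
def rl (N : ℕ) (J : ℕ → Pc Q) : List (Pc Q) := (List.range N).map J
/-- The cocharacter of a list of pieces. -/
def sumL (L : List (Pc Q)) : Q.Lam := (L.map (mu Q)).sum
/-- The number of pieces that contain a basis vector. -/
def cnt (L : List (Pc Q)) (x : Bt Q) : ℕ := L.countP fun F => decide (x ∈ F)
/-- Decreasing lists. -/
def Desc (L : List (Pc Q)) : Prop := L.Pairwise fun F G => G ⊆ F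
/-- Nontrivial pieces. -/
def NT (F : Pc Q) : Prop := F ≠ ∅ ∧ F ≠ Finset.univ

instance instDecNT (F : Pc Q) : Decidable (NT Q F) :=
  inferInstanceAs (Decidable (F ≠ ∅ ∧ F ≠ Finset.univ))

/-- The nontrivial members of a list. -/
def ntL (L : List (Pc Q)) : List (Pc Q) := L.filter fun F => decide (NT Q F)
/-- The standard chain of a cocharacter. -/
def chainOf (l : Q.Lam) : List (Pc Q) :=
  ntL Q (rl Q (2 * (Q.nsq l).toNat) fun t => up Q l ((t : ℤ) + 1 - Q.nsq l))
/-- The measure of a piece. -/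
def msS (F : Pc Q) : ℕ := F.card * Fᶜ.card
/-- The measure of a list. -/
def msL (L : List (Pc Q)) : ℕ := (L.map (msS Q)).sum
/-- The possible support of a product of monopole operators. -/
def SuppL (L : List (Pc Q)) : Set Q.Lam :=
  {m | ∃ M : List (Pc Q), M.map (dm Q) = L.map (dm Q) ∧ sumL Q M = m}
/-- The labelling refined by a cocharacter. -/
def labl (l : Q.Lam) : Q.Var → (Fin Q.nI ⊕ Fin Q.nT) × ℤ := fun x => (Q.lab x, Sum.elim l 0 x)
/-- Invariants of the stabiliser of a cocharacter. -/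
def RL (l : Q.Lam) : Subalgebra ℂ Q.Pol := Rinv (labl Q l)
/-- Power sums of a piece at a vertex. -/
def pS (F : Pc Q) (j : Fin Q.nI) (a : ℕ) : Q.Pol :=
  ∑ k ∈ Finset.univ.filter (fun k => some k ∈ F ∧ Q.vt k = j), X (Sum.inl k) ^ a
/-- Dressed monopole operators, summed over the whole Weyl group. -/
def M0 (F : Pc Q) (f : Q.Pol) : Q.AA :=
  ∑ w ∈ Wl Q.lab, AddMonoidAlgebra.single (Q.wl w (mu Q F))
    (Q.wF w (al Q (f * Q.phi (mu Q F)) / al Q (Q.eul (mu Q F))))
/-- Dressed monopole operators. -/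
def MF (F : Pc Q) (f : Q.Pol) : Q.AA := ((Wl (labl Q (mu Q F))).card : ℂ)⁻¹ • M0 Q F f
/-- The space of monopole operators of one type. -/
def Mo (F : Pc Q) : Submodule ℂ Q.AA := Submodule.span ℂ (Set.range (M0 Q F))
/-- The invariant polynomials. -/
def Hs : Submodule ℂ Q.AA := (Subalgebra.toSubmodule (Rinv Q.lab)).map Q.iota.toLinearMap
/-- Products of monopole operators. -/
def PL (L : List (Pc Q)) : Submodule ℂ Q.AA := (L.map (Mo Q)).prod * Hs Q
/-- Standard products. -/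
def Sd (l : Q.Lam) : Submodule ℂ Q.AA := PL Q (chainOf Q l)
/-- The algebra generated by the monopole operators. -/
def AG : Submodule ℂ Q.AA := ⨆ L, PL Q L
/-- The ideal generated by the nontrivial monopole operators. -/
def II : Submodule ℂ Q.AA := ⨆ L, ⨆ (_ : 0 < msL Q L), PL Q L
/-- All elements of `AG` have the triangularity property. -/
def TRA : Prop := ∀ z ∈ AG Q, Q.TRp z
/-- The coefficient at `l` is `φ g / e`. -/
def Lead (l : Q.Lam) (z : Q.AA) (g : Q.Pol) : Prop :=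
  z.coeff l * al Q (Q.eul l) = al Q (Q.phi l * g)
/-- The pair `G, G'` is lower than the pair `F, F'`. -/
def LowR (F F' G G' : Pc Q) : Prop :=
  msS Q G + msS Q G' < msS Q F + msS Q F' ∧
    chg Q (mu Q G + mu Q G') = chg Q (mu Q F + mu Q F')
/-- Cocharacters of lower pairs. -/
def SP (F F' : Pc Q) : Set Q.Lam := {m | ∃ G G', LowR Q F F' G G' ∧ m = mu Q G + mu Q G'}
/-- Products of lower pairs. -/
def LowP (F F' : Pc Q) : Submodule ℂ Q.AA :=
  ⨆ G, ⨆ G', ⨆ (_ : LowR Q F F' G G'), PL Q [G, G']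
/-- Replace a pair by a lower pair. -/
def Step (L L' : List (Pc Q)) : Prop :=
  ∃ F F' R G G', L.Perm (F :: F' :: R) ∧ L' = G :: G' :: R ∧ LowR Q F F' G G'
/-- Products of lower lists. -/
def Low (L : List (Pc Q)) : Submodule ℂ Q.AA := ⨆ L', ⨆ (_ : Step Q L L'), PL Q L'
/-- Products of two opposite monopole operators. -/
def TT : Submodule ℂ Q.AA := ⨆ F, ⨆ (_ : NT Q F), PL Q [F, Fᶜ]
/-- Cocharacters of charge zero with values at least `-1`. -/
def Ss : Set Q.Lam := {m | (∀ k, -1 ≤ m k) ∧ chg Q m = 0}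
/-- Cocharacters of charge zero with values in `{-1, 0, 1}`. -/
def U01 : Set Q.Lam := {m | (∀ k, -1 ≤ m k ∧ m k ≤ 1) ∧ chg Q m = 0}
/-- There is a flavour direction in which every arrow has weight one. -/
def UF : Prop := ∃ a, ∀ h, Q.wt h a = 1
/-- The generator `D_ρ ^ 2 A_ρ`. -/
def DA (ρ : Bt Q → ℕ) : Q.Pol := Dl (Q.labr ρ) ^ 2 * Q.Arho ρ
/-- `D ^ 2` times the constant coefficient is the polynomial `p`. -/
def C0 (z : Q.AA) (p : Q.Pol) : Prop := z.coeff 0 * al Q (Dl Q.lab ^ 2) = al Q p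

/-- String data: `x ↦ (σ x, ρ x)` is a bijection onto the pairs `(y, i)` with `0 ≤ i ≤ l y`. -/
structure StrD (l : Q.Lam) (ρ : Bt Q → ℕ) (σ : Bt Q → Bt Q) : Prop where
  vb_eq : ∀ x, Q.vb (σ x) = Q.vb x
  zero_iff : ∀ x, ρ x = 0 ↔ 0 ≤ Q.lv l x
  fix : ∀ x, ρ x = 0 → σ x = x
  le : ∀ x, (ρ x : ℤ) ≤ Q.lv l (σ x)
  inj : ∀ x y, ρ x = ρ y → σ x = σ y → x = y
  surj : ∀ (y : Bt Q) (i : ℕ), (i : ℤ) ≤ Q.lv l y → ∃ x, ρ x = i ∧ σ x = y

/-- Identification of the variables along the strings. -/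
def resA (σ : Bt Q → Bt Q) : Q.Pol →ₐ[ℂ] Q.Pol :=
  aeval (Sum.elim (fun k => Q.xv (σ (some k))) fun a => X (Sum.inr a))
/-- Scaling of all variables. -/
def scl (t : ℂ) : Q.Pol →ₐ[ℂ] Q.Pol := aeval fun x => C t * X x

end Pool.Agent.HK.AC
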