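import Pool.Agent.P.MP_1206ce_ag.AC.TopC

/-! Equational flatness of invariant rings. -/

noncomputable section

open MvPolynomial

namespace Pool.Agent.HK.AC

variable {Q : Qv}

section Gen

variable {V ΛE : Type} [Fintype V] [DecidableEq V]

/-- The blocks of `labE` inside `E`, singletons outside `E`. -/
def Flat_labA (labE : V → ΛE) (E : Finset V) : V → ΛE ⊕ V :=
  fun k => if k ∈ E then Sum.inl (labE k) else Sum.inr k

theorem Flat_mem_WA {labE : V → ΛE} {E : Finset V} {w : Equiv.Perm V} :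
    w ∈ Wl (Flat_labA labE E) ↔
      (∀ k ∈ E, w k ∈ E ∧ labE (w k) = labE k) ∧ ∀ k, k ∉ E → w k = k := by
  rw [mem_Wl]
  constructor
  · intro h
    refine ⟨fun k hk => ?_, fun k hk => ?_⟩
    · have h1 := h k
      unfold Flat_labA at h1
      rw [if_pos hk] at h1
      by_cases h2 : w k ∈ E
      · rw [if_pos h2] at h1
        exact ⟨h2, Sum.inl.inj h1⟩
      · rw [if_neg h2] at h1
        exact absurd h1 Sum.inr_ne_inl
    · have h1 := h k
      unfold Flat_labA at h1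
      rw [if_neg hk] at h1
      by_cases h2 : w k ∈ E
      · rw [if_pos h2] at h1
        exact absurd h1 Sum.inl_ne_inr
      · rw [if_neg h2] at h1
        exact Sum.inr.inj h1
  · rintro ⟨h1, h2⟩ k
    unfold Flat_labA
    by_cases hk : k ∈ E
    · rw [if_pos hk, if_pos (h1 k hk).1, (h1 k hk).2]
    · rw [h2 k hk]

theorem Flat_posl {labE : V → ΛE} {E : Finset V} {k : V} (hk : k ∉ E) :
    posl (Flat_labA labE E) k = 0 := by
  unfold posl
  rw [Finset.card_eq_zero]
  refine Finset.eq_empty_of_forall_notMem fun l hl0 => ?_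
  simp only [Finset.mem_filter, Finset.mem_univ, true_and] at hl0
  obtain ⟨h1, h2⟩ := hl0
  unfold Flat_labA at h1
  rw [if_neg hk] at h1
  by_cases hl : l ∈ E
  · rw [if_pos hl] at h1
    exact absurd h1 Sum.inl_ne_inr
  · rw [if_neg hl] at h1
    rw [Sum.inr.inj h1] at h2
    exact lt_irrefl _ h2

theorem Flat_rename_xI {labE : V → ΛE} {E : Finset V} {u : Equiv.Perm V}
    (hu : ∀ k ∈ E, u k = k) (I : ArtI (Flat_labA labE E)) :
    rename u (xI (Flat_labA labE E) I) = xI (Flat_labA labE E) I := by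
  unfold xI
  rw [map_prod]
  refine Finset.prod_congr rfl fun k _ => ?_
  rw [map_pow, rename_X]
  by_cases hk : k ∈ E
  · rw [hu k hk]
  · have h0 : (I k : ℕ) = 0 := by
      have h1 := (I k).2
      have h2 := Flat_posl (labE := labE) hk
      omega
    rw [h0, pow_zero, pow_zero]

omit [Fintype V] in
theorem Flat_comm {E : Finset V} {u v : Equiv.Perm V} (hu : ∀ k ∈ E, u k = k)
    (hv : ∀ k, k ∉ E → v k = k) : v * u = u * v := by
  have hd : Equiv.Perm.Disjoint v u := fun k => by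
    by_cases hk : k ∈ E
    · exact Or.inr (hu k hk)
    · exact Or.inl (hv k hk)
  exact hd.commute.eq

theorem Flat_rename_mem {labE : V → ΛE} {E : Finset V} {u : Equiv.Perm V}
    (hu : ∀ k ∈ E, u k = k) {c : MvPolynomial V ℂ} (hc : c ∈ Rinv (Flat_labA labE E)) :
    rename u c ∈ Rinv (Flat_labA labE E) := by
  refine mem_Rinv.2 fun v hv => ?_
  rw [Sym_rename_mul, Flat_comm hu (Flat_mem_WA.1 hv).2, ← Sym_rename_mul, mem_Rinv.1 hc v hv]

/-- The part of a permutation that preserves `E` outside `E`. -/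
def Flat_out (E : Finset V) (w : Equiv.Perm V) (hw : ∀ k, w k ∈ E ↔ k ∈ E) : Equiv.Perm V where
  toFun k := if k ∈ E then k else w k
  invFun k := if k ∈ E then k else w.symm k
  left_inv k := by
    by_cases hk : k ∈ E
    · simp only [if_pos hk]
    · have h1 : w k ∉ E := fun h => hk ((hw k).1 h)
      simp only [if_neg hk, if_neg h1, Equiv.symm_apply_apply]
  right_inv k := by
    by_cases hk : k ∈ E
    · simp only [if_pos hk]
    · have h1 : w.symm k ∉ E := fun h => hk (by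
        have h2 := (hw (w.symm k)).2 h
        rwa [Equiv.apply_symm_apply] at h2)
      simp only [if_neg hk, if_neg h1, Equiv.apply_symm_apply]

theorem Flat_split {Λ' : Type} {lab' : V → Λ'} {labE : V → ΛE} {E : Finset V}
    (h2 : ∀ k l, labE k = labE l → (k ∈ E ↔ l ∈ E))
    (h3 : ∀ k l, k ∉ E → labE k = labE l → lab' k = lab' l) {w : Equiv.Perm V}
    (hw : w ∈ Wl labE) : ∃ v u : Equiv.Perm V, w = v * u ∧ v ∈ Wl (Flat_labA labE E) ∧
      u ∈ Wl lab' ∧ ∀ k ∈ E, u k = k := by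
  have hw' := mem_Wl.1 hw
  have hE : ∀ k, w k ∈ E ↔ k ∈ E := fun k => h2 _ _ (hw' k)
  have ha : ∀ k ∈ E, Flat_out E w hE k = k := fun k hk => if_pos hk
  have hb : ∀ k, k ∉ E → Flat_out E w hE k = w k := fun k hk => if_neg hk
  have ha' : ∀ k ∈ E, (Flat_out E w hE)⁻¹ k = k := fun k hk => if_pos hk
  have hb' : ∀ k, k ∉ E → (Flat_out E w hE)⁻¹ k = w.symm k := fun k hk => if_neg hk
  refine ⟨w * (Flat_out E w hE)⁻¹, Flat_out E w hE, by simp, ?_, ?_, ha⟩
  · refine Flat_mem_WA.2 ⟨fun k hk => ?_, fun k hk => ?_⟩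
    · rw [Equiv.Perm.mul_apply, ha' k hk]
      exact ⟨(hE k).2 hk, hw' k⟩
    · rw [Equiv.Perm.mul_apply, hb' k hk, Equiv.apply_symm_apply]
  · refine mem_Wl.2 fun k => ?_
    by_cases hk : k ∈ E
    · rw [ha k hk]
    · rw [hb k hk]
      exact (h3 k (w k) hk (hw' k).symm).symm

theorem Flat_coeff_inv {labE : V → ΛE} {E : Finset V} {u : Equiv.Perm V}
    (hu : ∀ k ∈ E, u k = k) {c : ArtI (Flat_labA labE E) → MvPolynomial V ℂ}
    (hc : ∀ I, c I ∈ Rinv (Flat_labA labE E))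
    (h : rename u (∑ I, c I * xI (Flat_labA labE E) I) = ∑ I, c I * xI (Flat_labA labE E) I)
    (I : ArtI (Flat_labA labE E)) : rename u (c I) = c I := by
  have h1 := artin_indep (lab := Flat_labA labE E) (c := fun I => rename u (c I) - c I)
    (fun I => sub_mem (Flat_rename_mem hu (hc I)) (hc I)) (by
      rw [map_sum] at h
      simp only [map_mul, Flat_rename_xI hu] at h
      simp only [sub_mul, Finset.sum_sub_distrib]
      exact sub_eq_zero.2 h)
  exact sub_eq_zero.1 (congrFun h1 I)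

theorem Flat_reindex {ι κ A : Type} [CommRing A] [Fintype ι] [Fintype κ] (P R : A → Prop)
    (a b : ι → A) (c : κ → ι → A) (π : κ → A) (h1 : ∀ I j, P (c I j)) (h2 : ∀ I, R (π I))
    (h3 : ∀ j, a j = ∑ I, c I j * π I) (h4 : ∀ I, ∑ j, b j * c I j = 0) :
    ∃ (n : ℕ) (c : Fin n → ι → A) (π : Fin n → A), (∀ I j, P (c I j)) ∧ (∀ I, R (π I)) ∧
      (∀ j, a j = ∑ I, c I j * π I) ∧ ∀ I, ∑ j, b j * c I j = 0 := by
  refine ⟨Fintype.card κ, fun I => c ((Fintype.equivFin κ).symm I),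
    fun I => π ((Fintype.equivFin κ).symm I), fun I j => h1 _ j, fun I => h2 _, fun j => ?_,
    fun I => h4 _⟩
  rw [h3 j]
  exact ((Fintype.equivFin κ).symm.sum_comp fun I => c I j * π I).symm

theorem Flat_sup {A : Type} [CommRing A] [Algebra ℂ A] {S T : Subalgebra ℂ A} {p : A}
    (hp : p ∈ S ⊔ T) : ∃ (n : ℕ) (α γ : Fin n → A), (∀ i, α i ∈ S) ∧ (∀ i, γ i ∈ T) ∧
      p = ∑ i, α i * γ i := by
  have h1 : p ∈ Subalgebra.toSubmodule S * Subalgebra.toSubmodule T := by
    rw [Subalgebra.mul_toSubmodule]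
    exact hp
  refine Submodule.mul_induction_on (C := fun p => ∃ (n : ℕ) (α γ : Fin n → A),
    (∀ i, α i ∈ S) ∧ (∀ i, γ i ∈ T) ∧ p = ∑ i, α i * γ i) h1 ?_ ?_
  · intro m hm n hn
    exact ⟨1, fun _ => m, fun _ => n, fun _ => hm, fun _ => hn, by simp⟩
  · rintro x y ⟨n, α, γ, h1, h2, rfl⟩ ⟨n', α', γ', h1', h2', rfl⟩
    refine ⟨n + n', Fin.append α α', Fin.append γ γ', fun i => ?_, fun i => ?_, ?_⟩
    · refine Fin.addCases (fun i => ?_) (fun i => ?_) i
      · rw [Fin.append_left]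
        exact h1 i
      · rw [Fin.append_right]
        exact h1' i
    · refine Fin.addCases (fun i => ?_) (fun i => ?_) i
      · rw [Fin.append_left]
        exact h2 i
      · rw [Fin.append_right]
        exact h2' i
    · rw [Fin.sum_univ_add]
      simp only [Fin.append_left, Fin.append_right]

end Gen

/-- Let `labA` have the blocks of `labE` inside `E` and singletons outside `E`. Expand `a j` in the
Artin basis of `labA` (`artin_span`); by `artin_indep` the coefficients are invariant under the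
permutations outside `E`, hence lie in `Rinv labE`, and the relation holds coefficientwise. Then
average over `Wl lab'`. -/
theorem flat_gen {V Λ' ΛE ι : Type} [Fintype V] [DecidableEq V] [Fintype ι] (lab' : V → Λ')
    (labE : V → ΛE) (E : Finset V) (h1 : Refines lab' labE)
    (h2 : ∀ k l, labE k = labE l → (k ∈ E ↔ l ∈ E))
    (h3 : ∀ k l, k ∉ E → labE k = labE l → lab' k = lab' l)
    (a b : ι → MvPolynomial V ℂ) (ha : ∀ j, a j ∈ Rinv lab')
    (hb : ∀ j, ∀ w ∈ Wl labE, (∀ k, k ∉ E → w k = k) → rename w (b j) = b j)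
    (h0 : ∑ j, b j * a j = 0) :
    ∃ (n : ℕ) (c : Fin n → ι → MvPolynomial V ℂ) (π : Fin n → MvPolynomial V ℂ),
      (∀ I j, c I j ∈ Rinv labE) ∧ (∀ I, π I ∈ Rinv lab') ∧
      (∀ j, a j = ∑ I, c I j * π I) ∧ ∀ I, ∑ j, b j * c I j = 0 := by
  choose c hc hac using fun j => artin_span (Flat_labA labE E) (a j)
  have hbA : ∀ j, b j ∈ Rinv (Flat_labA labE E) := fun j => mem_Rinv.2 fun w hw => by
    obtain ⟨h4, h5⟩ := Flat_mem_WA.1 hw
    refine hb j w (mem_Wl.2 fun k => ?_) h5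
    by_cases hk : k ∈ E
    · exact (h4 k hk).2
    · rw [h5 k hk]
  have hrel : ∀ I, ∑ j, b j * c j I = 0 := by
    have h4 := artin_indep (lab := Flat_labA labE E) (c := fun I => ∑ j, b j * c j I)
      (fun I => Subalgebra.sum_mem _ fun j _ => mul_mem (hbA j) (hc j I)) (by
        rw [← h0]
        simp only [Finset.sum_mul]
        rw [Finset.sum_comm]
        refine Finset.sum_congr rfl fun j _ => ?_
        rw [hac j, Finset.mul_sum]
        exact Finset.sum_congr rfl fun I _ => mul_assoc _ _ _)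
    exact fun I => congrFun h4 I
  have hcE : ∀ j I, c j I ∈ Rinv labE := fun j I => mem_Rinv.2 fun w hw => by
    obtain ⟨v, u, rfl, hv, hu, hu'⟩ := Flat_split h2 h3 hw
    have h4 : rename u (c j I) = c j I := by
      refine Flat_coeff_inv hu' (hc j) ?_ I
      rw [← hac j]
      exact mem_Rinv.1 (ha j) u hu
    rw [← Sym_rename_mul, h4, mem_Rinv.1 (hc j I) v hv]
  refine Flat_reindex (fun p => p ∈ Rinv labE) (fun p => p ∈ Rinv lab') a b
    (fun I j => c j I)
    (fun I => ((Wl lab').card : ℂ)⁻¹ • Sym lab' (xI (Flat_labA labE E) I))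
    (fun I j => hcE j I) (fun I => Subalgebra.smul_mem _ (Sym_mem_Rinv _ _) _) (fun j => ?_) hrel
  have h4 : Sym lab' (a j) = ∑ I, c j I * Sym lab' (xI (Flat_labA labE E) I) := by
    conv_lhs => rw [hac j]
    rw [map_sum]
    exact Finset.sum_congr rfl fun I _ => Sym_mul (Rinv_anti h1 (hcE j I)) _
  rw [Sym_of_mem (ha j)] at h4
  simp only [mul_smul_comm]
  rw [← Finset.smul_sum, ← h4, smul_smul, inv_mul_cancel₀ (card_Wl_ne_zero lab'), one_smul]

theorem Flat_cnt_zero {E : Pc Q} {L : List (Pc Q)} (h : Desc Q (E :: L)) {x : Bt Q}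
    (hx : x ∉ E) : cnt Q (E :: L) x = 0 := by
  unfold cnt
  rw [List.countP_eq_zero]
  intro G hG
  rw [decide_eq_true_eq]
  rcases List.mem_cons.1 hG with rfl | hG
  · exact hx
  · exact fun h1 => hx (List.rel_of_pairwise_cons h hG h1)

theorem Flat_cnt_pos {E : Pc Q} (L : List (Pc Q)) {x : Bt Q} (hx : x ∈ E) :
    cnt Q (E :: L) x ≠ 0 := by
  rw [Chain_cnt_cons, if_pos hx]
  omega

theorem Flat_sumL_eq (L : List (Pc Q)) (k : Fin Q.nB) :
    sumL Q L k = (cnt Q L (some k) : ℤ) - cnt Q L none := lv_sumL L (some k)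

theorem Flat_mu_iff {E : Pc Q} {k l : Fin Q.nB} :
    mu Q E k = mu Q E l ↔ (some k ∈ E ↔ some l ∈ E) := by
  unfold mu
  rw [sub_left_inj]
  by_cases h1 : some k ∈ E <;> by_cases h2 : some l ∈ E <;> simp [h1, h2]

theorem Flat_labl_iff {l : Q.Lam} {x y : Q.Var} : labl Q l x = labl Q l y ↔
    (∃ k k', x = Sum.inl k ∧ y = Sum.inl k' ∧ Q.vt k = Q.vt k' ∧ l k = l k') ∨
      ∃ a, x = Sum.inr a ∧ y = Sum.inr a := by
  unfold labl Qv.lab
  rcases x with k | a <;> rcases y with k' | a' <;> simp [eq_comm]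

/-- The variables of a piece. -/
def Flat_vars (E : Pc Q) : Finset Q.Var :=
  Finset.univ.filter fun x => ∃ k, x = Sum.inl k ∧ some k ∈ E

theorem Flat_inl_mem {E : Pc Q} {k : Fin Q.nB} : Sum.inl k ∈ Flat_vars E ↔ some k ∈ E := by
  simp [Flat_vars]

/-- The case of a chain `F ⊇ E ⊇ L`: apply `flat_gen` to `labl (sumL (E :: L))`, `labl (mu E)` and
the variables of `E`; then write each `π I` as a sum of products `α * γ` with `α ∈ RL (mu E)` and
`γ ∈ RL (sumL L)` (`RL_cons`, `Subalgebra.mul_toSubmodule`). -/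
theorem flat_chain {F E : Pc Q} {L : List (Pc Q)} (hD : Desc Q (F :: E :: L)) {ι : Type}
    [Fintype ι] (a b : ι → Q.Pol) (ha : ∀ j, a j ∈ RL Q (sumL Q (E :: L)))
    (hb : ∀ j, b j ∈ RL Q (mu Q F)) (h0 : ∑ j, b j * a j = 0) :
    ∃ (n : ℕ) (c : Fin n → ι → Q.Pol) (γ : Fin n → Q.Pol),
      (∀ I j, c I j ∈ RL Q (mu Q E)) ∧ (∀ I, γ I ∈ RL Q (sumL Q L)) ∧
      (∀ j, a j = ∑ I, c I j * γ I) ∧ ∀ I, ∑ j, b j * c I j = 0 := by
  have hE : Desc Q (E :: L) := List.Pairwise.of_cons hD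
  have hEF : E ⊆ F := List.rel_of_pairwise_cons hD List.mem_cons_self
  have h1 : Refines (labl Q (sumL Q (E :: L))) (labl Q (mu Q E)) := by
    intro x y h
    rcases Flat_labl_iff.1 h with ⟨k, k', rfl, rfl, h1, h2⟩ | ⟨a, rfl, rfl⟩
    · refine Flat_labl_iff.2 (Or.inl ⟨k, k', rfl, rfl, h1, Flat_mu_iff.2 ?_⟩)
      rw [Flat_sumL_eq, Flat_sumL_eq] at h2
      have h3 : cnt Q (E :: L) (some k) = cnt Q (E :: L) (some k') := by omega
      constructor
      · intro hk
        by_contra hk'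
        exact Flat_cnt_pos L hk (h3.trans (Flat_cnt_zero hE hk'))
      · intro hk'
        by_contra hk
        exact Flat_cnt_pos L hk' (h3.symm.trans (Flat_cnt_zero hE hk))
    · rfl
  have h2 : ∀ x y, labl Q (mu Q E) x = labl Q (mu Q E) y →
      (x ∈ Flat_vars E ↔ y ∈ Flat_vars E) := by
    intro x y h
    rcases Flat_labl_iff.1 h with ⟨k, k', rfl, rfl, -, h2⟩ | ⟨a, rfl, rfl⟩
    · rw [Flat_inl_mem, Flat_inl_mem]
      exact Flat_mu_iff.1 h2
    · rfl
  have h3 : ∀ x y, x ∉ Flat_vars E → labl Q (mu Q E) x = labl Q (mu Q E) y →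
      labl Q (sumL Q (E :: L)) x = labl Q (sumL Q (E :: L)) y := by
    intro x y hx h
    rcases Flat_labl_iff.1 h with ⟨k, k', rfl, rfl, h1, h2⟩ | ⟨a, rfl, rfl⟩
    · refine Flat_labl_iff.2 (Or.inl ⟨k, k', rfl, rfl, h1, ?_⟩)
      rw [Flat_inl_mem] at hx
      have hy : some k' ∉ E := fun h => hx ((Flat_mu_iff.1 h2).2 h)
      rw [Flat_sumL_eq, Flat_sumL_eq, Flat_cnt_zero hE hx, Flat_cnt_zero hE hy]
    · rfl
  have hb' : ∀ j, ∀ w ∈ Wl (labl Q (mu Q E)), (∀ x, x ∉ Flat_vars E → w x = x) →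
      rename w (b j) = b j := by
    intro j w hw hw'
    refine mem_Rinv.1 (hb j) w (mem_Wl.2 fun x => ?_)
    by_cases hx : x ∈ Flat_vars E
    · have h4 := mem_Wl.1 hw x
      have h5 := (h2 _ _ h4).2 hx
      rcases Flat_labl_iff.1 h4 with ⟨k, k', e1, rfl, h6, -⟩ | ⟨a, e1, rfl⟩
      · rw [e1] at h5 ⊢
        rw [Flat_inl_mem] at h5 hx
        exact Flat_labl_iff.2 (Or.inl ⟨k, k', rfl, rfl, h6,
          Flat_mu_iff.2 (iff_of_true (hEF h5) (hEF hx))⟩)
      · rw [e1]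
    · rw [hw' x hx]
  obtain ⟨n, c, π, hc, hπ, hac, hrel⟩ := flat_gen (labl Q (sumL Q (E :: L))) (labl Q (mu Q E))
    (Flat_vars E) h1 h2 h3 a b ha hb' h0
  have hπ' : ∀ I, π I ∈ RL Q (mu Q E) ⊔ RL Q (sumL Q L) := fun I => by
    rw [← RL_cons hE]
    exact hπ I
  choose m α γ hα hγ hs using fun I => Flat_sup (hπ' I)
  refine Flat_reindex (κ := (I : Fin n) × Fin (m I)) (fun p => p ∈ RL Q (mu Q E))
    (fun p => p ∈ RL Q (sumL Q L)) a b (fun I j => c I.1 j * α I.1 I.2) (fun I => γ I.1 I.2)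
    (fun I j => mul_mem (hc I.1 j) (hα I.1 I.2)) (fun I => hγ I.1 I.2) (fun j => ?_)
    (fun I => ?_)
  · rw [hac j, Fintype.sum_sigma]
    refine Finset.sum_congr rfl fun I _ => ?_
    rw [hs I, Finset.mul_sum]
    exact Finset.sum_congr rfl fun i _ => (mul_assoc _ _ _).symm
  · simp only [← mul_assoc]
    rw [← Finset.sum_mul, hrel, zero_mul]

end Pool.Agent.HK.AC
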