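import Pool.Agent.P.MP_1206ce_ag.AC.Orb
import Pool.Agent.P.MP_1206ce_ag.AC.Chain

/-! The top term of a decreasing chain. -/

noncomputable section

open MvPolynomial

namespace Pool.Agent.HK.AC

variable {Q : Qv}

/-- The inner product of two minuscule cocharacters. -/
theorem inner_mu (G G' : Pc Q) : ∑ k, mu Q G k * mu Q G' k =
    ((G ∩ G').card : ℤ) - (dm Q G' none : ℤ) * G.card - (dm Q G none : ℤ) * G'.card +
      (dm Q G none : ℤ) * (dm Q G' none : ℤ) * Fintype.card (Bt Q) := by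
  have h1 : ∑ k, mu Q G k * mu Q G' k = ∑ x : Bt Q, Q.lv (mu Q G) x * Q.lv (mu Q G') x := by
    rw [Fintype.sum_option]
    simp [Qv.lv]
  have hc : ∀ H : Pc Q, (H.card : ℤ) = ∑ x : Bt Q, if x ∈ H then 1 else 0 := fun H => by simp
  rw [h1, hc, hc G, hc G', dm_none, dm_none, Finset.mul_sum, Finset.mul_sum,
    ← Finset.card_univ, hc, Finset.mul_sum, ← Finset.sum_sub_distrib, ← Finset.sum_sub_distrib,
    ← Finset.sum_add_distrib]
  refine Finset.sum_congr rfl fun x _ => ?_
  rw [lv_mu, lv_mu]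
  by_cases h₁ : x ∈ G <;> by_cases h₂ : x ∈ G' <;> by_cases h₃ : none ∈ G <;>
    by_cases h₄ : none ∈ G' <;> simp [h₁, h₂, h₃, h₄]

/-- The standard inner product. -/
def TopC_ip (a b : Q.Lam) : ℤ := ∑ k, a k * b k

theorem TopC_nsq_add (a b : Q.Lam) : Q.nsq (a + b) = TopC_ip a a + 2 * TopC_ip a b + Q.nsq b := by
  simp only [Qv.nsq, TopC_ip, Finset.mul_sum, ← Finset.sum_add_distrib, Pi.add_apply]
  exact Finset.sum_congr rfl fun k _ => by ring

theorem TopC_ip_add (a b c : Q.Lam) : TopC_ip a (b + c) = TopC_ip a b + TopC_ip a c := by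
  simp only [TopC_ip, ← Finset.sum_add_distrib, Pi.add_apply, mul_add]

theorem TopC_card {F G : Pc Q} (h : dm Q G = dm Q F) : G.card = F.card := by
  rw [card_eq_sum_dm, card_eq_sum_dm, h]

theorem TopC_ip_le {F F' G G' : Pc Q} (h : dm Q G = dm Q F) (h' : dm Q G' = dm Q F')
    (hs : F' ⊆ F) : TopC_ip (mu Q G) (mu Q G') ≤ TopC_ip (mu Q F) (mu Q F') ∧
      (TopC_ip (mu Q F) (mu Q F') ≤ TopC_ip (mu Q G) (mu Q G') → G' ⊆ G) := by
  have h1 : (G ∩ G').card ≤ G'.card := Finset.card_le_card Finset.inter_subset_right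
  simp only [TopC_ip]
  rw [inner_mu, inner_mu, h, h', TopC_card h, Finset.inter_eq_right.2 hs, ← TopC_card h']
  refine ⟨by omega, fun h2 => Finset.inter_eq_right.1
    (Finset.eq_of_subset_of_card_le Finset.inter_subset_right (by omega))⟩

theorem TopC_ip_sum {F G : Pc Q} (h : dm Q G = dm Q F) {L : List (Pc Q)} :
    ∀ {M : List (Pc Q)}, M.map (dm Q) = L.map (dm Q) → (∀ F' ∈ L, F' ⊆ F) →
      TopC_ip (mu Q G) (sumL Q M) ≤ TopC_ip (mu Q F) (sumL Q L) ∧
      (TopC_ip (mu Q F) (sumL Q L) ≤ TopC_ip (mu Q G) (sumL Q M) → ∀ G' ∈ M, G' ⊆ G) := by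
  induction L with
  | nil =>
    intro M hM _
    obtain rfl : M = [] := by simpa using hM
    simp [sumL_nil, TopC_ip]
  | cons F' L ih =>
    intro M hM hL
    obtain ⟨G', M, rfl⟩ : ∃ G' M', M = G' :: M' := by
      cases M with
      | nil => simp at hM
      | cons G' M' => exact ⟨G', M', rfl⟩
    rw [List.map_cons, List.map_cons, List.cons.injEq] at hM
    have h1 := TopC_ip_le h hM.1 (hL F' List.mem_cons_self)
    have h2 := ih hM.2 fun F'' hF => hL F'' (List.mem_cons_of_mem _ hF)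
    rw [sumL_cons, sumL_cons, TopC_ip_add, TopC_ip_add]
    refine ⟨by omega, fun h3 G'' hG => ?_⟩
    rcases List.mem_cons.1 hG with rfl | hG
    · exact h1.2 (by omega)
    · exact h2.2 (by omega) G'' hG

/-- Expand the square; `|G ∩ G'| ≤ min |G| |G'|` with equality only for nested pieces. -/
theorem nsq_le_of_dm {L M : List (Pc Q)} (hL : Desc Q L) (h : M.map (dm Q) = L.map (dm Q)) :
    Q.nsq (sumL Q M) ≤ Q.nsq (sumL Q L) ∧
      (Q.nsq (sumL Q L) ≤ Q.nsq (sumL Q M) → Desc Q M) := by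
  induction L generalizing M with
  | nil =>
    obtain rfl : M = [] := by simpa using h
    exact ⟨le_rfl, fun _ => hL⟩
  | cons F L ih =>
    obtain ⟨G, M, rfl⟩ : ∃ G M', M = G :: M' := by
      cases M with
      | nil => simp at h
      | cons G M' => exact ⟨G, M', rfl⟩
    rw [List.map_cons, List.map_cons, List.cons.injEq] at h
    rw [Desc, List.pairwise_cons] at hL
    have h0 := (TopC_ip_le h.1 h.1 subset_rfl).1
    have h1 := TopC_ip_sum h.1 h.2 hL.1
    have h2 := ih hL.2 h.2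
    rw [sumL_cons, sumL_cons, TopC_nsq_add, TopC_nsq_add]
    refine ⟨by omega, fun h3 => ?_⟩
    rw [Desc, List.pairwise_cons]
    exact ⟨h1.2 (by omega), h2.2 (by omega)⟩

theorem TopC_cnt_le (L : List (Pc Q)) (x : Bt Q) : cnt Q L x ≤ L.length := List.countP_le_length

theorem TopC_mem_up (L : List (Pc Q)) (i : ℤ) (x : Bt Q) :
    x ∈ up Q (sumL Q L) i ↔ i + cnt Q L none ≤ cnt Q L x := by
  rw [up, Finset.mem_filter, lv_sumL]
  simp only [Finset.mem_univ, true_and]
  omega

/-- `exists_W_fib` for the functions `cnt L` and `cnt M`. -/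
theorem WO_of_desc {L M : List (Pc Q)} (hL : Desc Q L) (hM : Desc Q M)
    (h : M.map (dm Q) = L.map (dm Q)) : WO Q (sumL Q L) (sumL Q M) := by
  have hl : M.length = L.length := by simpa using congrArg List.length h
  have hc := cnt_none_congr h
  refine WO_of_dm_up fun i => ?_
  by_cases h0 : i + cnt Q L none ≤ 0
  · congr 1
    ext x
    rw [TopC_mem_up, TopC_mem_up]
    omega
  by_cases h1 : (L.length : ℤ) < i + cnt Q L none
  · congr 1
    ext x
    have := TopC_cnt_le L x
    have := TopC_cnt_le M x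
    rw [TopC_mem_up, TopC_mem_up]
    omega
  obtain ⟨t, ht⟩ : ∃ t : ℕ, i + cnt Q L none = t + 1 := ⟨(i + cnt Q L none - 1).toNat, by omega⟩
  have htL : t < L.length := by omega
  have htM : t < M.length := by omega
  have e1 : up Q (sumL Q L) i = L[t] := by
    ext x
    rw [TopC_mem_up, desc_mem_iff hL]
    omega
  have e2 : up Q (sumL Q M) i = M[t] := by
    ext x
    rw [TopC_mem_up, desc_mem_iff hM]
    omega
  have e3 := List.getElem_of_eq h (i := t) (by simpa using htM)
  rw [List.getElem_map, List.getElem_map] at e3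
  rw [e1, e2, e3]
theorem top_orb {L : List (Pc Q)} (hL : Desc Q L) {m : Q.Lam} (hm : m ∈ SuppL Q L) :
    Q.nsq m ≤ Q.nsq (sumL Q L) ∧ (Q.nsq (sumL Q L) ≤ Q.nsq m → WO Q (sumL Q L) m) := by
  obtain ⟨M, hM, rfl⟩ := hm
  have h1 := nsq_le_of_dm hL hM
  exact ⟨h1.1, fun h2 => WO_of_desc hL (h1.2 h2) hM⟩
theorem top_orb_chain {l m : Q.Lam} (hm : m ∈ SuppL Q (chainOf Q l)) :
    Q.nsq m ≤ Q.nsq l ∧ (Q.nsq l ≤ Q.nsq m → WO Q l m) := by
  have h1 := top_orb (chainOf_desc l) hm
  rwa [sumL_chainOf] at h1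
theorem split_unique {L M : List (Pc Q)} (h : Desc Q (L ++ M)) {a b : Q.Lam}
    (ha : a ∈ SuppL Q L) (hb : b ∈ SuppL Q M) (hab : a + b = sumL Q L + sumL Q M) :
    a = sumL Q L ∧ b = sumL Q M := by
  obtain ⟨L', hL, rfl⟩ := ha
  obtain ⟨M', hM, rfl⟩ := hb
  have hd : (L' ++ M').map (dm Q) = (L ++ M).map (dm Q) := by
    rw [List.map_append, List.map_append, hL, hM]
  have hs : sumL Q (L' ++ M') = sumL Q (L ++ M) := by rw [sumL_append, sumL_append, hab]
  have h1 := (nsq_le_of_dm h hd).2 (by rw [hs])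
  have h2 : L' ++ M' = L ++ M := by
    refine desc_ext h h1 (by simpa using congrArg List.length hd) fun x => ?_
    have e1 := lv_sumL (L' ++ M') x
    have e2 := cnt_none_congr hd
    rw [hs, lv_sumL] at e1
    omega
  obtain ⟨rfl, rfl⟩ := List.append_inj h2 (by simpa using congrArg List.length hL)
  exact ⟨rfl, rfl⟩
/-- The two sums are comonotone. -/
theorem comono {L M : List (Pc Q)} (h : Desc Q (L ++ M)) (x y : Bt Q)
    (hxy : Q.lv (sumL Q L) x < Q.lv (sumL Q L) y) :
    Q.lv (sumL Q M) x ≤ Q.lv (sumL Q M) y := by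
  rw [lv_sumL, lv_sumL] at hxy ⊢
  obtain ⟨F, hF, hx⟩ : ∃ F ∈ L, x ∉ F := by
    by_contra hn
    push Not at hn
    have h1 : cnt Q L x = L.length := List.countP_eq_length.2 fun F hF => by simpa using hn F hF
    have := TopC_cnt_le L y
    omega
  have h2 : cnt Q M x = 0 := List.countP_eq_zero.2 fun G hG => by
    have := (List.pairwise_append.1 h).2.2 F hF G hG
    simpa using fun hx' => hx (this hx')
  omega
theorem phi_add {l m : Q.Lam} (h : ∀ x y, Q.lv l x < Q.lv l y → Q.lv m x ≤ Q.lv m y) :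
    Q.phi (l + m) = Q.phi l * Q.phi m := by
  simp only [Qv.phi]
  rw [← Finset.prod_mul_distrib]
  refine Finset.prod_congr rfl fun p _ => ?_
  rw [← pow_add]
  congr 1
  have h1 := h p.2.1 p.2.2
  have h2 := h p.2.2 p.2.1
  simp only [Qv.prP, lv_add]
  omega
theorem eul_add {l m : Q.Lam} (h : ∀ x y, Q.lv l x < Q.lv l y → Q.lv m x ≤ Q.lv m y) :
    Q.eul (l + m) = Q.eul l * Q.eul m := by
  simp only [Qv.eul]
  rw [← Finset.prod_mul_distrib]
  refine Finset.prod_congr rfl fun p _ => ?_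
  rw [← pow_add]
  congr 1
  have h1 : l p.1 < l p.2 → m p.1 ≤ m p.2 := h (some p.1) (some p.2)
  have h2 : l p.2 < l p.1 → m p.2 ≤ m p.1 := h (some p.2) (some p.1)
  simp only [Pi.add_apply]
  omega

theorem TopC_refines {l m : Q.Lam} (h : ∀ x y, Q.lv l x < Q.lv l y → Q.lv m x ≤ Q.lv m y) :
    Refines (labl Q (l + m)) (labl Q l) ∧ Refines (labl Q (l + m)) (labl Q m) := by
  have key : ∀ x y, labl Q (l + m) x = labl Q (l + m) y →
      labl Q l x = labl Q l y ∧ labl Q m x = labl Q m y := by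
    intro x y hxy
    simp only [labl, Prod.mk.injEq] at hxy ⊢
    obtain ⟨h1, h2⟩ := hxy
    cases x with
    | inl k =>
      cases y with
      | inl k' =>
        have h3 : l k < l k' → m k ≤ m k' := h (some k) (some k')
        have h4 : l k' < l k → m k' ≤ m k := h (some k') (some k)
        simp only [Sum.elim_inl, Pi.add_apply] at h2 ⊢
        exact ⟨⟨h1, by omega⟩, h1, by omega⟩
      | inr a => simp [Qv.lab] at h1
    | inr a =>
      cases y with
      | inl k' => simp [Qv.lab] at h1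
      | inr a' => exact ⟨⟨h1, rfl⟩, h1, rfl⟩
  exact ⟨fun x y hxy => (key x y hxy).1, fun x y hxy => (key x y hxy).2⟩

theorem RL_le_add_left {l m : Q.Lam} (h : ∀ x y, Q.lv l x < Q.lv l y → Q.lv m x ≤ Q.lv m y) :
    RL Q l ≤ RL Q (l + m) := Rinv_anti (TopC_refines h).1
theorem RL_le_add_right {l m : Q.Lam} (h : ∀ x y, Q.lv l x < Q.lv l y → Q.lv m x ≤ Q.lv m y) :
    RL Q m ≤ RL Q (l + m) := Rinv_anti (TopC_refines h).2

theorem TopC_cnt_cons (F : Pc Q) (L : List (Pc Q)) (x : Bt Q) :
    cnt Q (F :: L) x = cnt Q L x + if x ∈ F then 1 else 0 := by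
  simp [cnt, List.countP_cons]

/-- `RL_le`: a level set of the sum is a level set of `sumL L` inside `F`, or `Fᶜ`, or the lowest
level set of `sumL L` minus `Fᶜ`. -/
theorem RL_cons {F : Pc Q} {L : List (Pc Q)} (h : Desc Q (F :: L)) :
    RL Q (sumL Q (F :: L)) = RL Q (mu Q F) ⊔ RL Q (sumL Q L) := by
  have hco : ∀ x y, Q.lv (mu Q F) x < Q.lv (mu Q F) y →
      Q.lv (sumL Q L) x ≤ Q.lv (sumL Q L) y := by
    have h1 := comono (L := [F]) (M := L) h
    rwa [sumL_cons, sumL_nil, add_zero] at h1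
  refine le_antisymm (RL_le _ _ (fun a => ?_) fun c j a => ?_)
    (by rw [sumL_cons]; exact sup_le (RL_le_add_left hco) (RL_le_add_right hco))
  · exact (le_sup_left : RL Q (mu Q F) ≤ _) (Rinv_le_RL _ (X_inr_mem a))
  have h0 : ∀ x, x ∉ F → cnt Q L x = 0 := fun x hx => List.countP_eq_zero.2 fun G hG => by
    have := (List.pairwise_cons.1 h).1 G hG
    simpa using fun hx' => hx (this hx')
  have hA : pS Q Fᶜ j a ∈ RL Q (mu Q F) ⊔ RL Q (sumL Q L) :=
    (le_sup_left : RL Q (mu Q F) ≤ _) (pS_compl_mem_RL F j a)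
  have hB : ∀ c', pS Q (Finset.univ.filter fun x => Q.lv (sumL Q L) x = c') j a ∈
      RL Q (mu Q F) ⊔ RL Q (sumL Q L) := fun c' =>
    (le_sup_right : RL Q (sumL Q L) ≤ _) (pS_level_mem_RL _ c' j a)
  have hm : ∀ x, x ∈ (Finset.univ.filter fun x => Q.lv (sumL Q (F :: L)) x = c) ↔
      (cnt Q L x : ℤ) + (if x ∈ F then 1 else 0) = c + cnt Q (F :: L) none := by
    intro x
    rw [Finset.mem_filter, lv_sumL, TopC_cnt_cons F L x]
    simp only [Finset.mem_univ, true_and]
    split_ifs <;> push_cast <;> omega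
  have hm' : ∀ c' x, x ∈ (Finset.univ.filter fun x => Q.lv (sumL Q L) x = c') ↔
      (cnt Q L x : ℤ) - cnt Q L none = c' := by
    intro c' x
    rw [Finset.mem_filter, lv_sumL]
    simp only [Finset.mem_univ, true_and]
  generalize (Finset.univ.filter fun x => Q.lv (sumL Q (F :: L)) x = c) = T at hm
  generalize c + cnt Q (F :: L) none = t at hm
  by_cases t0 : t = 0
  · have : T = Fᶜ := by
      ext x
      have := h0 x
      rw [hm, Finset.mem_compl]
      split_ifs with hx
      · simp only [hx, not_true, iff_false]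
        omega
      · simp only [hx, not_false_iff, iff_true]
        have := this hx
        omega
    exact this ▸ hA
  by_cases t1 : t = 1
  · have hd : Disjoint T Fᶜ := by
      rw [Finset.disjoint_left]
      intro x hx hx'
      rw [Finset.mem_compl] at hx'
      rw [hm, if_neg hx', h0 x hx'] at hx
      omega
    have hu : T ∪ Fᶜ = Finset.univ.filter fun x => Q.lv (sumL Q L) x = -cnt Q L none := by
      ext x
      rw [Finset.mem_union, hm, hm', Finset.mem_compl]
      split_ifs with hx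
      · simp only [hx, not_true, or_false]
        omega
      · simp only [hx, not_false_iff, or_true, true_iff]
        have := h0 x hx
        omega
    have h2 := pS_union hd j a
    rw [hu] at h2
    rw [eq_sub_of_add_eq h2.symm]
    exact sub_mem (hB _) hA
  · have : T = Finset.univ.filter fun x => Q.lv (sumL Q L) x = t - 1 - cnt Q L none := by
      ext x
      rw [hm, hm']
      split_ifs with hx
      · omega
      · have := h0 x hx
        omega
    exact this ▸ hB _
theorem RL_le_of_mem {F : Pc Q} {L : List (Pc Q)} (h : Desc Q L) (hF : F ∈ L) :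
    RL Q (mu Q F) ≤ RL Q (sumL Q L) := by
  induction L with
  | nil => simp at hF
  | cons G L ih =>
    rw [RL_cons h]
    rcases List.mem_cons.1 hF with rfl | hF
    · exact le_sup_left
    · exact (ih (List.pairwise_cons.1 h).2 hF).trans le_sup_right
/-- The invariants of a chain are generated by those of its members. -/
theorem RL_desc_le {L : List (Pc Q)} (h : Desc Q L) (A : Subalgebra ℂ Q.Pol)
    (h0 : Rinv Q.lab ≤ A) (h1 : ∀ F ∈ L, RL Q (mu Q F) ≤ A) : RL Q (sumL Q L) ≤ A := by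
  induction L with
  | nil => rwa [sumL_nil, RL_zero]
  | cons G L ih =>
    rw [RL_cons h]
    exact sup_le (h1 G List.mem_cons_self)
      (ih (List.pairwise_cons.1 h).2 fun F hF => h1 F (List.mem_cons_of_mem _ hF))

end Pool.Agent.HK.AC
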