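import Pool.Agent.P.MP_1206ce_ag.AC.Mono
import Pool.Agent.P.MP_1206ce_ag.AC.TopC

/-! Products of monopole operators and their leading coefficients. -/

noncomputable section

open MvPolynomial

namespace Pool.Agent.HK.AC

variable {Q : Qv}

theorem PL_nil : PL Q [] = Hs Q := by
  rw [PL, List.map_nil, List.prod_nil, one_mul]
theorem PL_cons (F : Pc Q) (L : List (Pc Q)) : PL Q (F :: L) = Mo Q F * PL Q L := by
  rw [PL, PL, List.map_cons, List.prod_cons, mul_assoc]
theorem PL_single (F : Pc Q) : PL Q [F] = Mo Q F := by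
  rw [PL_cons, PL_nil, Mo_mul_Hs]
theorem PL_pair (F G : Pc Q) : PL Q [F, G] = Mo Q F * Mo Q G := by
  rw [PL_cons, PL_single]
theorem PL_append (L M : List (Pc Q)) : PL Q (L ++ M) = PL Q L * PL Q M := by
  induction L with
  | nil =>
    rw [List.nil_append, PL_nil, Submodule.mul_comm, PL, mul_assoc, Hs_mul_Hs]
  | cons F L ih => rw [List.cons_append, PL_cons, PL_cons, ih, mul_assoc]
theorem PL_perm {L M : List (Pc Q)} (h : L.Perm M) : PL Q L = PL Q M := by
  induction h with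
  | nil => rfl
  | cons F _ ih => rw [PL_cons, PL_cons, ih]
  | swap F G L =>
    rw [PL_cons, PL_cons, PL_cons, PL_cons, ← mul_assoc, ← mul_assoc,
      Submodule.mul_comm (Mo Q G) (Mo Q F)]
  | trans _ _ ih1 ih2 => exact ih1.trans ih2
theorem Hs_mul_PL (L : List (Pc Q)) : Hs Q * PL Q L = PL Q L := by
  rw [← PL_nil, ← PL_append, List.nil_append]
theorem iota_mul_mem_PL {h : Q.Pol} (hh : h ∈ Rinv Q.lab) {L : List (Pc Q)} {z : Q.AA}
    (hz : z ∈ PL Q L) : Q.iota h * z ∈ PL Q L := by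
  rw [← Hs_mul_PL]
  exact Submodule.mul_mem_mul (iota_mem_Hs hh) hz
theorem PL_congr {L M : List (Pc Q)} (h : M.map (dm Q) = L.map (dm Q)) : PL Q M = PL Q L := by
  induction L generalizing M with
  | nil =>
    rw [List.map_nil, List.map_eq_nil_iff] at h
    rw [h]
  | cons F L ih =>
    cases M with
    | nil => simp at h
    | cons G M =>
      rw [List.map_cons, List.map_cons, List.cons.injEq] at h
      rw [PL_cons, PL_cons, Mo_congr h.1, ih h.2]
theorem PL_perm_dm {L M : List (Pc Q)} (h : (M.map (dm Q)).Perm (L.map (dm Q))) :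
    PL Q M = PL Q L := by
  induction L generalizing M with
  | nil =>
    rw [List.map_nil, List.perm_nil, List.map_eq_nil_iff] at h
    rw [h]
  | cons F L ih =>
    have h1 : dm Q F ∈ M.map (dm Q) := h.symm.subset (by simp)
    obtain ⟨G, hG, hGF⟩ := List.mem_map.1 h1
    have h2 : M.Perm (G :: M.erase G) := List.perm_cons_erase hG
    have h3 := (h2.map (dm Q)).symm.trans h
    rw [List.map_cons, List.map_cons, hGF] at h3
    rw [PL_perm h2, PL_cons, PL_cons, Mo_congr hGF, ih h3.cons_inv]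
theorem PL_ntL (L : List (Pc Q)) : PL Q (ntL Q L) = PL Q L := by
  induction L with
  | nil => rfl
  | cons F L ih =>
    by_cases hF : NT Q F
    · have h1 : ntL Q (F :: L) = F :: ntL Q L := by simp [ntL, hF]
      rw [h1, PL_cons, PL_cons, ih]
    · have h1 : ntL Q (F :: L) = ntL Q L := by simp [ntL, hF]
      rw [h1, PL_cons, Mo_triv hF, Hs_mul_PL, ih]
theorem PL_triv {L : List (Pc Q)} (h : ∀ F ∈ L, ¬ NT Q F) : PL Q L = Hs Q := by
  have h1 : ntL Q L = [] := by
    rw [ntL, List.filter_eq_nil_iff]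
    intro F hF
    simpa using h F hF
  rw [← PL_ntL, h1, PL_nil]
theorem PL_eq_Sd {L : List (Pc Q)} (h : Desc Q L) : PL Q L = Sd Q (sumL Q L) := by
  rw [Sd, ← ntL_eq_chainOf h, PL_ntL]
theorem Sd_wl {w : Equiv.Perm Q.Var} (hw : w ∈ Wl Q.lab) (l : Q.Lam) :
    Sd Q (Q.wl w l) = Sd Q l := PL_congr (chainOf_wl hw l)
theorem PL_le_AG (L : List (Pc Q)) : PL Q L ≤ AG Q := le_iSup (PL Q) L
theorem PL_le_II {L : List (Pc Q)} (h : 0 < msL Q L) : PL Q L ≤ II Q :=
  le_iSup₂_of_le (f := fun L (_ : 0 < msL Q L) => PL Q L) L h le_rfl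
theorem Sd_le_II {l : Q.Lam} (h : l ≠ 0) : Sd Q l ≤ II Q := PL_le_II (msL_chainOf_pos h)
theorem II_le_AG : II Q ≤ AG Q := iSup₂_le fun L _ => PL_le_AG L
theorem Hs_le_AG : Hs Q ≤ AG Q := by
  rw [← PL_nil]
  exact PL_le_AG _
theorem AG_mul_AG : AG Q * AG Q ≤ AG Q := by
  rw [AG, Submodule.iSup_mul]
  refine iSup_le fun L => ?_
  rw [Submodule.mul_iSup]
  refine iSup_le fun M => ?_
  rw [← PL_append]
  exact PL_le_AG _
theorem AG_mul_II : AG Q * II Q ≤ II Q := by
  rw [AG, Submodule.iSup_mul]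
  refine iSup_le fun L => ?_
  conv_lhs => rw [II, Submodule.mul_iSup]
  refine iSup_le fun M => ?_
  rw [Submodule.mul_iSup]
  refine iSup_le fun hM => ?_
  rw [← PL_append]
  refine PL_le_II ?_
  rw [msL_append]
  omega
theorem AG_le_sup : AG Q ≤ Hs Q ⊔ II Q := by
  refine iSup_le fun L => ?_
  by_cases h : 0 < msL Q L
  · exact (PL_le_II h).trans le_sup_right
  · rw [PL_triv fun F hF hN => h (msL_pos_iff.2 ⟨F, hF, hN⟩)]
    exact le_sup_left
theorem exists_iota_of_AG {z : Q.AA} (hz : z ∈ AG Q) :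
    ∃ h ∈ Rinv Q.lab, z - Q.iota h ∈ II Q := by
  obtain ⟨x, hx, y, hy, rfl⟩ := Submodule.mem_sup.1 (AG_le_sup hz)
  obtain ⟨h, hh, rfl⟩ := mem_Hs.1 hx
  exact ⟨h, hh, by rwa [add_sub_cancel_left]⟩
theorem AG_le_S {S : Subalgebra ℂ Q.AA} (hS : Q.IsCoul S) :
    AG Q ≤ Subalgebra.toSubmodule S := by
  refine iSup_le fun L => ?_
  induction L with
  | nil =>
    rw [PL_nil]
    exact Hs_le_S hS
  | cons F L ih =>
    rw [PL_cons]
    exact Submodule.mul_le.2 fun x hx y hy => S.mul_mem (Mo_le_S hS F hx) (ih hy)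
theorem TRA_of_coul {S : Subalgebra ℂ Q.AA} (hS : Q.IsCoul S) : TRA Q :=
  fun z hz => hS.2 z (AG_le_S hS hz)

theorem supp_mul {x y : Q.AA} {m : Q.Lam} (h : (x * y).coeff m ≠ 0) :
    ∃ a b, x.coeff a ≠ 0 ∧ y.coeff b ≠ 0 ∧ a + b = m := by
  classical
  by_contra hn
  refine h ?_
  rw [AddMonoidAlgebra.coeff_mul]
  refine Finset.sum_eq_zero fun a ha => Finset.sum_eq_zero fun b hb => if_neg fun e => ?_
  exact hn ⟨a, b, Finsupp.mem_support_iff.1 ha, Finsupp.mem_support_iff.1 hb, e⟩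
theorem coeff_mul_unique {x y : Q.AA} {a b : Q.Lam}
    (h : ∀ a' b', x.coeff a' ≠ 0 → y.coeff b' ≠ 0 → a' + b' = a + b → a' = a ∧ b' = b) :
    (x * y).coeff (a + b) = x.coeff a * y.coeff b := by
  classical
  rw [AddMonoidAlgebra.coeff_mul, Finsupp.sum, Finset.sum_eq_single a, Finsupp.sum,
    Finset.sum_eq_single b, if_pos rfl]
  · intro b' _ hb
    exact if_neg fun e => hb (add_left_cancel e)
  · intro hb
    rw [Finsupp.notMem_support_iff.1 hb, mul_zero, ite_self]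
  · intro a' ha' ha
    refine Finset.sum_eq_zero fun b' hb' => if_neg fun e => ha ?_
    exact (h a' b' (Finsupp.mem_support_iff.1 ha') (Finsupp.mem_support_iff.1 hb') e).1
  · intro ha
    refine Finset.sum_eq_zero fun b' _ => ?_
    simp only [Finsupp.notMem_support_iff.1 ha, zero_mul, ite_self]
theorem supp_PL {L : List (Pc Q)} {z : Q.AA} (hz : z ∈ PL Q L) {m : Q.Lam}
    (hm : z.coeff m ≠ 0) : m ∈ SuppL Q L := by
  induction L generalizing z m with
  | nil =>
    rw [PL_nil] at hz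
    obtain ⟨h, -, rfl⟩ := mem_Hs.1 hz
    rw [SuppL_nil]
    by_contra h0
    exact hm (iota_coeff_ne h h0)
  | cons F L ih =>
    rw [PL_cons] at hz
    revert hm
    refine Submodule.mul_induction_on hz (fun x hx y hy hm => ?_) fun x y hx hy hm => ?_
    · obtain ⟨a, b, ha, hb, rfl⟩ := supp_mul hm
      exact add_mem_SuppL (supp_Mo hx ha) (ih hy hb)
    · by_cases h1 : x.coeff m = 0
      · refine hy fun h2 => hm ?_
        rw [AddMonoidAlgebra.coeff_add, Finsupp.add_apply, h1, h2, add_zero]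
      · exact hx h1

theorem Lead_add {l : Q.Lam} {x y : Q.AA} {f g : Q.Pol} (hx : Lead Q l x f) (hy : Lead Q l y g) :
    Lead Q l (x + y) (f + g) := by
  rw [Lead] at hx hy ⊢
  rw [AddMonoidAlgebra.coeff_add, Finsupp.add_apply, add_mul, hx, hy, mul_add, map_add]
theorem Lead_sub {l : Q.Lam} {x y : Q.AA} {f g : Q.Pol} (hx : Lead Q l x f) (hy : Lead Q l y g) :
    Lead Q l (x - y) (f - g) := by
  rw [Lead] at hx hy ⊢
  rw [AddMonoidAlgebra.coeff_sub, Finsupp.sub_apply, sub_mul, hx, hy, mul_sub, map_sub]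
theorem Lead_smul {l : Q.Lam} (a : ℂ) {x : Q.AA} {f : Q.Pol} (hx : Lead Q l x f) :
    Lead Q l (a • x) (a • f) := by
  rw [Lead] at hx ⊢
  rw [AddMonoidAlgebra.coeff_smul, Finsupp.smul_apply, smul_mul_assoc, hx, mul_smul_comm, al_smul]
theorem Lead_sum {ι : Type} {l : Q.Lam} (s : Finset ι) {x : ι → Q.AA} {f : ι → Q.Pol}
    (h : ∀ i ∈ s, Lead Q l (x i) (f i)) : Lead Q l (∑ i ∈ s, x i) (∑ i ∈ s, f i) := by
  rw [Lead, AddMonoidAlgebra.coeff_sum, Finsupp.finsetSum_apply, Finset.sum_mul, Finset.mul_sum,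
    map_sum]
  exact Finset.sum_congr rfl h
theorem Lead_zero_iff {l : Q.Lam} {x : Q.AA} : Lead Q l x 0 ↔ x.coeff l = 0 := by
  rw [Lead, mul_zero, map_zero, mul_eq_zero, or_iff_left (al_ne_zero (eul_ne_zero l))]
theorem Lead_unique {l : Q.Lam} {x : Q.AA} {f g : Q.Pol} (hf : Lead Q l x f) (hg : Lead Q l x g) :
    f = g :=
  mul_left_cancel₀ (phi_ne_zero l) (al_injective (hf.symm.trans hg))
theorem Lead_coeff_eq {l : Q.Lam} {x y : Q.AA} {g : Q.Pol} (hx : Lead Q l x g)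
    (hy : Lead Q l y g) : x.coeff l = y.coeff l :=
  mul_right_cancel₀ (al_ne_zero (eul_ne_zero l)) (hx.trans hy.symm)
theorem Lead_iota (h : Q.Pol) : Lead Q 0 (Q.iota h) h := by
  rw [Lead, iota_coeff_zero, eul_zero, phi_zero, map_one, mul_one, one_mul]
theorem Lead_iota_mul (h : Q.Pol) {l : Q.Lam} {x : Q.AA} {f : Q.Pol} (hx : Lead Q l x f) :
    Lead Q l (Q.iota h * x) (h * f) := by
  rw [Lead] at hx ⊢
  rw [iota_mul_coeff, mul_assoc, hx, ← map_mul, mul_left_comm]
/-- `split_unique`, `coeff_mul_unique`, `phi_add`, `eul_add`. -/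
theorem lead_append {L M : List (Pc Q)} (h : Desc Q (L ++ M)) {x y : Q.AA} (hx : x ∈ PL Q L)
    (hy : y ∈ PL Q M) {f g : Q.Pol} (lx : Lead Q (sumL Q L) x f) (ly : Lead Q (sumL Q M) y g) :
    Lead Q (sumL Q L + sumL Q M) (x * y) (f * g) := by
  rw [Lead] at lx ly ⊢
  rw [coeff_mul_unique fun a b ha hb e => split_unique h (supp_PL hx ha) (supp_PL hy hb) e,
    eul_add (comono h), phi_add (comono h), map_mul, mul_mul_mul_comm, lx, ly, ← map_mul,
    mul_mul_mul_comm]
theorem lead_cons {F : Pc Q} {L : List (Pc Q)} (h : Desc Q (F :: L)) {f g : Q.Pol}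
    (hf : f ∈ RL Q (mu Q F)) {y : Q.AA} (hy : y ∈ PL Q L) (ly : Lead Q (sumL Q L) y g) :
    Lead Q (sumL Q (F :: L)) (MF Q F f * y) (f * g) := by
  have h1 : sumL Q [F] = mu Q F := by rw [sumL_cons, sumL_nil, add_zero]
  have h2 := lead_append (L := [F]) (M := L) h (x := MF Q F f) (by
    rw [PL_single]
    exact MF_mem_Mo F f) hy (f := f) (by
    rw [h1]
    exact lead_MF hf) ly
  rwa [h1, ← sumL_cons] at h2
theorem exists_lead {L : List (Pc Q)} (h : Desc Q L) {y : Q.AA} (hy : y ∈ PL Q L) :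
    ∃ g ∈ RL Q (sumL Q L), Lead Q (sumL Q L) y g := by
  induction L generalizing y with
  | nil =>
    rw [PL_nil] at hy
    obtain ⟨g, hg, rfl⟩ := mem_Hs.1 hy
    rw [sumL_nil]
    exact ⟨g, Rinv_le_RL _ hg, Lead_iota g⟩
  | cons F L ih =>
    rw [PL_cons] at hy
    refine Submodule.mul_induction_on hy (fun x hx z hz => ?_) fun x z hx hz => ?_
    · obtain ⟨f, hf, rfl⟩ := mem_Mo.1 hx
      obtain ⟨g, hg, lg⟩ := ih (List.pairwise_cons.1 h).2 hz
      refine ⟨f * g, ?_, lead_cons h hf hz lg⟩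
      rw [RL_cons h]
      exact Subalgebra.mul_mem _ (le_sup_left (a := RL Q (mu Q F)) hf)
        (le_sup_right (b := RL Q (sumL Q L)) hg)
    · obtain ⟨f, hf, lf⟩ := hx
      obtain ⟨g, hg, lg⟩ := hz
      exact ⟨f + g, Subalgebra.add_mem _ hf hg, Lead_add lf lg⟩
/-- Induction on the list with `RL_cons` and `Subalgebra.mul_toSubmodule`. -/
theorem lead_onto {L : List (Pc Q)} (h : Desc Q L) {g : Q.Pol} (hg : g ∈ RL Q (sumL Q L)) :
    ∃ y ∈ PL Q L, Lead Q (sumL Q L) y g := by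
  induction L generalizing g with
  | nil =>
    rw [sumL_nil] at hg ⊢
    rw [RL_zero] at hg
    rw [PL_nil]
    exact ⟨_, iota_mem_Hs hg, Lead_iota g⟩
  | cons F L ih =>
    rw [RL_cons h] at hg
    have h1 : g ∈ Subalgebra.toSubmodule (RL Q (mu Q F)) *
        Subalgebra.toSubmodule (RL Q (sumL Q L)) := by
      rw [Subalgebra.mul_toSubmodule]
      exact hg
    refine Submodule.mul_induction_on h1 (fun f hf k hk => ?_) fun f k hf hk => ?_
    · obtain ⟨y, hy, ly⟩ := ih (List.pairwise_cons.1 h).2 hk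
      refine ⟨_, ?_, lead_cons h hf hy ly⟩
      rw [PL_cons]
      exact Submodule.mul_mem_mul (MF_mem_Mo F f) hy
    · obtain ⟨x, hx, lx⟩ := hf
      obtain ⟨y, hy, ly⟩ := hk
      exact ⟨x + y, Submodule.add_mem _ hx hy, Lead_add lx ly⟩
theorem lead_onto_Sd {l : Q.Lam} {g : Q.Pol} (hg : g ∈ RL Q l) :
    ∃ y ∈ Sd Q l, Lead Q l y g := by
  have h1 := lead_onto (chainOf_desc l) (g := g) (by rwa [sumL_chainOf])
  rwa [sumL_chainOf] at h1

theorem prod_mem_PL_rl (N : ℕ) (J : ℕ → Pc Q) (f : ℕ → Q.Pol) {h : Q.Pol} (hh : h ∈ Rinv Q.lab) :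
    (∏ i ∈ Finset.range N, MF Q (J i) (f i)) * Q.iota h ∈ PL Q (rl Q N J) := by
  induction N with
  | zero =>
    rw [Finset.prod_range_zero, one_mul]
    exact PL_nil (Q := Q) ▸ iota_mem_Hs hh
  | succ N ih =>
    rw [Finset.prod_range_succ, rl_succ, PL_append, PL_single, mul_right_comm]
    exact Submodule.mul_mem_mul ih (MF_mem_Mo _ _)
theorem PL_rl_le (N : ℕ) (J : ℕ → Pc Q) (T : Submodule ℂ Q.AA)
    (hT : ∀ (f : ℕ → Q.Pol) (h : Q.Pol), (∀ i < N, f i ∈ RL Q (mu Q (J i))) → h ∈ Rinv Q.lab →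
      (∏ i ∈ Finset.range N, MF Q (J i) (f i)) * Q.iota h ∈ T) : PL Q (rl Q N J) ≤ T := by
  induction N generalizing T with
  | zero =>
    intro z hz
    have hz' : z ∈ Hs Q := PL_nil (Q := Q) ▸ hz
    obtain ⟨h, hh, rfl⟩ := mem_Hs.1 hz'
    have h1 := hT 0 h (fun i hi => absurd hi (Nat.not_lt_zero i)) hh
    rwa [Finset.prod_range_zero, one_mul] at h1
  | succ N ih =>
    rw [rl_succ, PL_append, PL_single]
    refine Submodule.mul_le.2 fun x hx y hy => ?_
    obtain ⟨g, hg, rfl⟩ := mem_Mo.1 hy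
    refine ih (T.comap (LinearMap.mulRight ℂ (MF Q (J N) g))) (fun f h hf hh => ?_) hx
    have h1 := hT (Function.update f N g) h (fun i hi => by
      rcases Nat.lt_succ_iff_lt_or_eq.1 hi with h2 | rfl
      · rw [Function.update_of_ne h2.ne]
        exact hf i h2
      · rw [Function.update_self]
        exact hg) hh
    rw [Finset.prod_range_succ, Function.update_self, Finset.prod_congr rfl
      (g := fun i => MF Q (J i) (f i)) fun i hi => by
        rw [Function.update_of_ne (Finset.mem_range.1 hi).ne], mul_right_comm] at h1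
    exact h1
theorem Lead_rl_one {N : ℕ} {J : ℕ → Pc Q} (hD : Desc Q (rl Q N J)) {f : ℕ → Q.Pol}
    (hf : ∀ i < N, f i ∈ RL Q (mu Q (J i))) :
    Lead Q (sumL Q (rl Q N J)) ((∏ i ∈ Finset.range N, MF Q (J i) (f i)) * Q.iota 1)
      (∏ i ∈ Finset.range N, f i) := by
  induction N with
  | zero =>
    rw [Finset.prod_range_zero, Finset.prod_range_zero, one_mul]
    exact sumL_nil (Q := Q) ▸ Lead_iota 1
  | succ N ih =>
    rw [rl_succ] at hD
    have hD' : Desc Q (rl Q N J) := (List.pairwise_append.1 hD).1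
    have h1 : sumL Q [J N] = mu Q (J N) := by rw [sumL_cons, sumL_nil, add_zero]
    have h2 := lead_append hD (prod_mem_PL_rl N J f (Subalgebra.one_mem _))
      (y := MF Q (J N) (f N)) (by
        rw [PL_single]
        exact MF_mem_Mo _ _) (ih hD' fun i hi => hf i (Nat.lt_succ_of_lt hi)) (g := f N) (by
        rw [h1]
        exact lead_MF (hf N (Nat.lt_succ_self N)))
    rw [← sumL_append, ← rl_succ, mul_right_comm] at h2
    rw [Finset.prod_range_succ, Finset.prod_range_succ]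
    exact h2
theorem lead_rl {N : ℕ} {J : ℕ → Pc Q} (hD : Desc Q (rl Q N J)) {f : ℕ → Q.Pol}
    (hf : ∀ i < N, f i ∈ RL Q (mu Q (J i))) (h : Q.Pol) :
    Lead Q (sumL Q (rl Q N J)) ((∏ i ∈ Finset.range N, MF Q (J i) (f i)) * Q.iota h)
      ((∏ i ∈ Finset.range N, f i) * h) := by
  have h3 := Lead_iota_mul h (Lead_rl_one hD hf)
  rwa [map_one, mul_one, mul_comm (Q.iota h), mul_comm h] at h3

end Pool.Agent.HK.AC
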