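import Pool.Agent.P.MP_1206ce_ag.AC.Rel
import Pool.Agent.P.MP_1206ce_ag.AC.Lead

/-! The grading. -/

noncomputable section

open MvPolynomial

namespace Pool.Agent.HK.AC

variable {Q : Qv}

theorem scl_hom (t : ℂ) {p : Q.Pol} {d : ℕ} (h : p.IsHomogeneous d) :
    scl Q t p = t ^ d • p := by
  conv_lhs => rw [p.as_sum]
  conv_rhs => rw [p.as_sum]
  rw [map_sum, Finset.smul_sum]
  refine Finset.sum_congr rfl fun m hm => ?_
  rw [h.degree_eq_sum_deg_support hm, scl, aeval_monomial, monomial_eq, Finsupp.prod, Finsupp.prod]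
  simp only [mul_pow, Finset.prod_mul_distrib, ← C_pow, ← map_prod, Finset.prod_pow_eq_pow_sum,
    smul_eq_C_mul, algebraMap_eq]
  ring

theorem scl_rename (t : ℂ) (w : Equiv.Perm Q.Var) (p : Q.Pol) :
    scl Q t (rename w p) = rename w (scl Q t p) := by
  have h : (scl Q t).comp (rename w) = (rename w).comp (scl Q t) := by
    refine algHom_ext fun x => ?_
    simp [scl]
  exact DFunLike.congr_fun h p

theorem Grade_xv (x : Bt Q) : (Q.xv x).IsHomogeneous 1 := by
  rcases x with _ | k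
  · exact isHomogeneous_zero _ _ _
  · exact isHomogeneous_X _ _

theorem Grade_wtP (p : Q.Ps) : (Q.wtP p).IsHomogeneous 1 :=
  ((Grade_xv _).sub (Grade_xv _)).add
    (IsHomogeneous.sum _ _ _ fun _ _ => isHomogeneous_C_mul_X _ _)

theorem phi_hom (l : Q.Lam) : ∃ d, (Q.phi l).IsHomogeneous d :=
  ⟨_, IsHomogeneous.prod _ _ _ fun p _ => (Grade_wtP p).pow _⟩

theorem eul_hom (l : Q.Lam) : ∃ d, (Q.eul l).IsHomogeneous d :=
  ⟨_, IsHomogeneous.prod _ _ _ fun _ _ => ((isHomogeneous_X _ _).sub (isHomogeneous_X _ _)).pow _⟩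

theorem scl_M0 {t : ℂ} (ht : t ≠ 0) (F : Pc Q) (f : Q.Pol) :
    ∃ a : ℂ, RelA (scl Q t) (M0 Q F f) (a • M0 Q F (scl Q t f)) := by
  obtain ⟨a, ha⟩ := phi_hom (mu Q F)
  obtain ⟨b, hb⟩ := eul_hom (mu Q F)
  refine ⟨t ^ a / t ^ b, ?_⟩
  rw [M0, M0, Finset.smul_sum]
  refine RelA_cl.sum _ fun w _ => ?_
  rw [AddMonoidAlgebra.smul_single]
  refine RelA_single _ ?_
  have h0 : rename w (Q.eul (mu Q F)) ≠ 0 := fun h =>
    eul_ne_zero _ (rename_injective w w.injective (h.trans (map_zero _).symm))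
  have h1 : scl Q t (rename w (Q.eul (mu Q F))) = t ^ b • rename w (Q.eul (mu Q F)) :=
    scl_hom t hb.rename_isHomogeneous
  have h2 := Rel_div (ψ := scl Q t) (rename w (f * Q.phi (mu Q F)))
    (d := rename w (Q.eul (mu Q F))) (by rw [h1]; exact smul_ne_zero (pow_ne_zero _ ht) h0)
  rw [map_div₀, map_div₀, wF_al, wF_al, wF_al]
  convert h2 using 1
  rw [h1, scl_rename, map_mul (scl Q t), scl_hom t ha, mul_smul_comm, map_smul]
  change _ = al Q _ / al Q _
  rw [al_smul, al_smul, Algebra.smul_def, Algebra.smul_def, Algebra.smul_def, map_div₀,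
    mul_div_mul_comm]

theorem scl_iota (t : ℂ) (h : Q.Pol) : RelA (scl Q t) (Q.iota h) (Q.iota (scl Q t h)) := by
  rw [iota_eq, iota_eq]
  exact RelA_single _ (Rel_alg h)

theorem scl_II {t : ℂ} (ht : t ≠ 0) : Tr (RelA (scl Q t)) (II Q) (II Q) := by
  refine Tr_biSup RelA_cl _ fun L => Tr_mul RelA_cl (Tr_prod RelA_cl (fun F => ?_) L) ?_
  · refine Tr_span RelA_cl ?_
    rintro _ ⟨f, rfl⟩
    obtain ⟨a, ha⟩ := scl_M0 ht F f
    exact ⟨_, Submodule.smul_mem _ a (M0_mem_Mo F _), ha⟩
  · intro z hz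
    obtain ⟨h, hh, rfl⟩ := mem_Hs.1 hz
    refine ⟨_, iota_mem_Hs fun w hw => ?_, scl_iota t h⟩
    rw [← scl_rename, hh w hw]

theorem scl_FDeg {t : ℂ} (ht : t ≠ 0) {e : ℤ} {c : Q.Frac} (h : Q.FDeg (2 * e) c) :
    Rel (scl Q t) c (t ^ e • c) := by
  rcases h with rfl | ⟨a, b, da, db, ha, hb, h0, h1, h2⟩
  · rw [smul_zero]
    exact Rel_cl.zero
  · refine ⟨a, b, ?_, h1, ?_⟩
    · rw [scl_hom t hb]
      exact smul_ne_zero (pow_ne_zero _ ht) h0
    · have h3 : t ^ e * t ^ db = t ^ da := by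
        rw [← zpow_natCast, ← zpow_natCast, ← zpow_add₀ ht]
        congr 1
        omega
      rw [scl_hom t ha, scl_hom t hb]
      change _ * al Q _ = al Q _
      rw [al_smul, al_smul, smul_mul_smul_comm, h3, h1]

/-- Test against linear forms that vanish on `N`; a polynomial in `t` with infinitely many roots
vanishes. -/
theorem vander {M : Type} [AddCommGroup M] [Module ℂ M] (N : Submodule ℂ M) (n : ℕ) (v : ℕ → M)
    (e : ℤ) (h : ∀ t : ℂ, t ≠ 0 → ∑ d ∈ Finset.range n, (t ^ d - t ^ e) • v d ∈ N) :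
    ∀ d < n, (d : ℤ) ≠ e → v d ∈ N := by
  intro d hd hne
  by_contra hv
  obtain ⟨f, hf, hN⟩ := Submodule.exists_le_ker_of_notMem hv
  let P : Polynomial ℂ := ∑ i ∈ Finset.range n, Polynomial.C (f (v i)) *
    (Polynomial.X ^ (i + (-e).toNat) - Polynomial.X ^ e.toNat)
  have hP : P = 0 := by
    refine Polynomial.eq_zero_of_infinite_isRoot P
      (((Set.finite_singleton (0 : ℂ)).infinite_compl).mono fun t ht => ?_)
    have ht0 : t ≠ 0 := ht
    have h1 : f _ = 0 := hN (h t ht0)
    have h2 : t ^ e.toNat = t ^ e * t ^ (-e).toNat := by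
      rw [← zpow_natCast, ← zpow_natCast, ← zpow_add₀ ht0]
      congr 1
      omega
    have h3 : P.eval t = f (∑ d ∈ Finset.range n, (t ^ d - t ^ e) • v d) * t ^ (-e).toNat := by
      simp only [P, Polynomial.eval_finsetSum, Polynomial.eval_mul, Polynomial.eval_C,
        Polynomial.eval_sub, Polynomial.eval_pow, Polynomial.eval_X, map_sum, map_smul,
        smul_eq_mul, Finset.sum_mul, h2, pow_add]
      exact Finset.sum_congr rfl fun i _ => by ring
    change P.eval t = 0
    rw [h3, h1, zero_mul]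
  have h4 := congrArg (fun p : Polynomial ℂ => p.coeff (d + (-e).toNat)) hP
  simp only [P, Polynomial.finsetSum_coeff, Polynomial.coeff_C_mul, Polynomial.coeff_sub,
    Polynomial.coeff_X_pow, Polynomial.coeff_zero] at h4
  rw [Finset.sum_eq_single d (fun i _ hi => by
    rw [if_neg (by omega), if_neg (by omega), sub_zero, mul_zero])
    (fun hi => absurd (Finset.mem_range.2 hd) hi), if_pos rfl, if_neg (by omega), sub_zero,
    mul_one] at h4
  exact hf h4

theorem grade {z : Q.AA} (hz : z ∈ AG Q) (j : ℤ) (hd : ∀ l, Q.FDeg j (z.coeff l)) :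
    ∃ h ∈ Rinv Q.lab, (h = 0 ∨ ∃ d : ℕ, j = 2 * (d : ℤ) ∧ h.IsHomogeneous d) ∧
      z - Q.iota h ∈ II Q := by
  rcases Int.even_or_odd' j with ⟨e, rfl | rfl⟩
  swap
  · have h0 : z = 0 := by
      ext l
      rcases hd l with h | ⟨a, b, da, db, -, -, -, -, h⟩
      · simpa using h
      · omega
    exact ⟨0, zero_mem _, Or.inl rfl, by simp [h0]⟩
  obtain ⟨h, hh, hI⟩ := exists_iota_of_AG hz
  have hs : Q.iota h = ∑ d ∈ Finset.range (h.totalDegree + 1),
      Q.iota (homogeneousComponent d h) := by rw [← map_sum, sum_homogeneousComponent]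
  have key := vander (II Q) (h.totalDegree + 1) (fun d => Q.iota (homogeneousComponent d h)) e
    fun t ht => by
      have r1 : RelA (scl Q t) z (t ^ e • z) := fun l => by
        simpa using scl_FDeg ht (hd l)
      obtain ⟨x, hx, r2⟩ := scl_II ht _ hI
      rw [RelA_unique r2 (RelA_cl.sub r1 (scl_iota t h))] at hx
      have h1 := sub_mem (Submodule.smul_mem _ (t ^ e) hI) hx
      have h2 : scl Q t h = ∑ d ∈ Finset.range (h.totalDegree + 1),
          t ^ d • homogeneousComponent d h := by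
        conv_lhs => rw [← sum_homogeneousComponent h, map_sum]
        exact Finset.sum_congr rfl fun d _ => scl_hom t (homogeneousComponent_isHomogeneous d h)
      have h3 : Q.iota (scl Q t h) = ∑ d ∈ Finset.range (h.totalDegree + 1),
          t ^ d • Q.iota (homogeneousComponent d h) := by
        rw [h2, map_sum]
        exact Finset.sum_congr rfl fun d _ => map_smul _ _ _
      convert h1 using 1
      simp only [sub_smul, Finset.sum_sub_distrib, ← Finset.smul_sum, ← h3, ← hs, smul_sub]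
      abel
  by_cases he : ∃ d ∈ Finset.range (h.totalDegree + 1), (d : ℤ) = e
  · obtain ⟨d, hd1, rfl⟩ := he
    refine ⟨homogeneousComponent d h, homogeneousComponent_mem_Rinv hh d,
      Or.inr ⟨d, rfl, homogeneousComponent_isHomogeneous d h⟩, ?_⟩
    have h3 : ∑ i ∈ (Finset.range (h.totalDegree + 1)).erase d,
        Q.iota (homogeneousComponent i h) ∈ II Q :=
      Submodule.sum_mem _ fun i hi => key i (Finset.mem_range.1 (Finset.mem_of_mem_erase hi))
        (by exact_mod_cast (Finset.mem_erase.1 hi).1)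
    have h4 := add_mem hI h3
    rw [hs, ← Finset.add_sum_erase _ _ hd1] at h4
    convert h4 using 1
    abel
  · refine ⟨0, zero_mem _, Or.inl rfl, ?_⟩
    have h3 : Q.iota h ∈ II Q := by
      rw [hs]
      exact Submodule.sum_mem _ fun i hi => key i (Finset.mem_range.1 hi) fun h => he ⟨i, hi, h⟩
    simpa using add_mem hI h3

end Pool.Agent.HK.AC
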