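import Pool.Agent.P.MP_1206ce_ag.AC.Lead
import Pool.Agent.P.MP_1206ce_ag.AC.Nest

/-! Induction on the top of the support and triangularity. -/

noncomputable section

open MvPolynomial

namespace Pool.Agent.HK.AC

variable {Q : Qv}

theorem Tri_coeff_sub (x y : Q.AA) (m : Q.Lam) : (x - y).coeff m = x.coeff m - y.coeff m := by
  rw [AddMonoidAlgebra.coeff_sub, Finsupp.sub_apply]

theorem Tri_eq_zero {z : Q.AA} (h : ∀ m, z.coeff m = 0) : z = 0 := by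
  ext m
  rw [h m, AddMonoidAlgebra.coeff_zero, Finsupp.zero_apply]

/-- Induction on the largest value of `nsq` on the support and on the number of points of the
support with that value. -/
theorem top_ind (Z : Set Q.AA) (T : Submodule ℂ Q.AA)
    (step : ∀ z ∈ Z, ∀ l, z.coeff l ≠ 0 → (∀ m, z.coeff m ≠ 0 → Q.nsq m ≤ Q.nsq l) →
      ∃ y ∈ T, z - y ∈ Z ∧ (z - y).coeff l = 0 ∧
        ∀ m, Q.nsq l ≤ Q.nsq m → (z - y).coeff m ≠ 0 → z.coeff m ≠ 0) :
    ∀ z ∈ Z, z ∈ T := by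
  have main : ∀ n : ℕ, ∀ z ∈ Z, (∀ m, z.coeff m ≠ 0 → Q.nsq m < n) → z ∈ T := by
    intro n
    induction n with
    | zero =>
      intro z _ hb
      rw [Tri_eq_zero (z := z) fun m => by
        by_contra hn
        exact absurd (hb m hn) (not_lt.2 (by exact_mod_cast nsq_nonneg m))]
      exact T.zero_mem
    | succ n ih =>
      have inner : ∀ c : ℕ, ∀ z ∈ Z, (∀ m, z.coeff m ≠ 0 → Q.nsq m < (n + 1 : ℕ)) →
          (z.coeff.support.filter fun m => (n : ℤ) ≤ Q.nsq m).card < c → z ∈ T := by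
        intro c
        induction c with
        | zero => exact fun z _ _ hc => absurd hc (Nat.not_lt_zero _)
        | succ c ihc =>
          intro z hz hb hc
          by_cases he : ∀ m, z.coeff m ≠ 0 → Q.nsq m < n
          · exact ih z hz he
          · push Not at he
            obtain ⟨l, hl, hn⟩ := he
            have hmax : ∀ m, z.coeff m ≠ 0 → Q.nsq m ≤ Q.nsq l := fun m hm => by
              have := hb m hm
              push_cast at this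
              omega
            obtain ⟨y, hy, h1, h2, h3⟩ := step z hz l hl hmax
            have hln := hb l hl
            push_cast at hln
            have h4 : z - y ∈ T := by
              refine ihc _ h1 (fun m hm => ?_) ?_
              · by_cases h5 : Q.nsq l ≤ Q.nsq m
                · exact hb m (h3 m h5 hm)
                · push_cast
                  omega
              · refine lt_of_lt_of_le (Finset.card_lt_card ?_) (Nat.lt_succ_iff.1 hc)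
                refine ⟨fun m hm => ?_, fun hsub => ?_⟩
                · rw [Finset.mem_filter, Finsupp.mem_support_iff] at hm ⊢
                  exact ⟨h3 m (by omega) hm.1, hm.2⟩
                · have h6 := hsub (Finset.mem_filter.2 ⟨Finsupp.mem_support_iff.2 hl, hn⟩)
                  exact Finsupp.mem_support_iff.1 (Finset.mem_filter.1 h6).1 h2
            have h7 := T.add_mem h4 hy
            rwa [sub_add_cancel] at h7
      exact fun z hz hb => inner _ z hz hb (Nat.lt_succ_self _)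
  intro z hz
  refine main (z.coeff.support.sup (fun m => (Q.nsq m).toNat) + 1) z hz fun m hm => ?_
  have h1 : (Q.nsq m).toNat ≤ z.coeff.support.sup fun m => (Q.nsq m).toNat :=
    Finset.le_sup (f := fun m => (Q.nsq m).toNat) (Finsupp.mem_support_iff.2 hm)
  omega

theorem Tri_lead_top {z : Q.AA} (hz : Q.TRp z) {l : Q.Lam}
    (hl : ∀ m, z.coeff m ≠ 0 → Q.nsq m ≤ Q.nsq l) : ∃ g ∈ RL Q l, Lead Q l z g := by
  obtain ⟨g, hg⟩ := hz.2 l hl
  refine ⟨g, fun w hw => ?_, hg⟩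
  obtain ⟨h1, h2⟩ := mem_Wl_labl.1 hw
  have h3 := hz.1 w h1 l
  rw [h2] at h3
  have h4 := congrArg (Q.wF w) hg
  rw [map_mul, ← h3, wF_al, wF_al, map_mul, rename_eul h1, rename_phi h1, h2, hg] at h4
  exact (mul_left_cancel₀ (phi_ne_zero l) (al_injective h4)).symm

theorem lead_top (hT : TRA Q) {z : Q.AA} (hz : z ∈ AG Q) {l : Q.Lam}
    (hl : ∀ m, z.coeff m ≠ 0 → Q.nsq m ≤ Q.nsq l) : ∃ g ∈ RL Q l, Lead Q l z g :=
  Tri_lead_top (hT z hz) hl

theorem Tri_coeff_WO {z : Q.AA} (hz : Q.TRp z) {l m : Q.Lam} (h : WO Q l m)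
    (h0 : z.coeff l = 0) : z.coeff m = 0 := by
  obtain ⟨w, hw, rfl⟩ := h
  rw [hz.1 w hw l, h0, map_zero]

theorem coeff_WO (hT : TRA Q) {z : Q.AA} (hz : z ∈ AG Q) {l m : Q.Lam} (h : WO Q l m)
    (h0 : z.coeff l = 0) : z.coeff m = 0 := Tri_coeff_WO (hT z hz) h h0

theorem Tri_sub_top {z y : Q.AA} (hz : Q.TRp (z - y)) {l : Q.Lam} (hy : y ∈ Sd Q l)
    (h : z.coeff l = y.coeff l) {m : Q.Lam} (hm : (z - y).coeff m ≠ 0) :
    ¬ WO Q l m ∧ (Q.nsq l ≤ Q.nsq m → z.coeff m ≠ 0) := by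
  have h1 : ¬ WO Q l m := fun hw => hm (Tri_coeff_WO hz hw (by rw [Tri_coeff_sub, h, sub_self]))
  refine ⟨h1, fun h2 h3 => h1 ((top_orb_chain (supp_PL hy fun h4 => hm ?_)).2 h2)⟩
  rw [Tri_coeff_sub, h3, h4, sub_self]

theorem Tri_Sd_le_AG (l : Q.Lam) : Sd Q l ≤ AG Q := PL_le_AG _

/-- After subtracting a standard product with the same coefficient at `l`, the support at level
at least `nsq l` lies in the old support and avoids the orbit of `l`. -/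
theorem sub_top (hT : TRA Q) {z y : Q.AA} (hz : z ∈ AG Q) {l : Q.Lam} (hy : y ∈ Sd Q l)
    (h : z.coeff l = y.coeff l) {m : Q.Lam} (hm : (z - y).coeff m ≠ 0) :
    ¬ WO Q l m ∧ (Q.nsq l ≤ Q.nsq m → z.coeff m ≠ 0) :=
  Tri_sub_top (hT _ ((AG Q).sub_mem hz (Tri_Sd_le_AG l hy))) hy h hm

theorem Tri_ind2 (Z : Set Q.AA) (hZ : ∀ z ∈ Z, Q.TRp z) (T : Submodule ℂ Q.AA)
    (step : ∀ z ∈ Z, ∀ l, z.coeff l ≠ 0 → (∀ m, z.coeff m ≠ 0 → Q.nsq m ≤ Q.nsq l) →
      ∀ g ∈ RL Q l, Lead Q l z g → ∃ y ∈ T, y ∈ Sd Q l ∧ Lead Q l y g ∧ z - y ∈ Z) :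
    ∀ z ∈ Z, z ∈ T := by
  refine top_ind Z T fun z hz l hl hmax => ?_
  obtain ⟨g, hg, lg⟩ := Tri_lead_top (hZ z hz) hmax
  obtain ⟨y, h1, h2, h3, h4⟩ := step z hz l hl hmax g hg lg
  have h5 := Lead_coeff_eq lg h3
  exact ⟨y, h1, h4, by rw [Tri_coeff_sub, h5, sub_self],
    fun m h6 h7 => (Tri_sub_top (hZ _ h4) h2 h5 h7).2 h6⟩

theorem top_ind2 (hT : TRA Q) (Z : Set Q.AA) (hZ : ∀ z ∈ Z, z ∈ AG Q) (T : Submodule ℂ Q.AA)
    (step : ∀ z ∈ Z, ∀ l, z.coeff l ≠ 0 → (∀ m, z.coeff m ≠ 0 → Q.nsq m ≤ Q.nsq l) →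
      ∀ g ∈ RL Q l, Lead Q l z g → ∃ y ∈ T, y ∈ Sd Q l ∧ Lead Q l y g ∧ z - y ∈ Z) :
    ∀ z ∈ Z, z ∈ T := Tri_ind2 Z (fun z hz => hT z (hZ z hz)) T step

theorem tri (hT : TRA Q) (U : Set Q.Lam) (hU : ∀ m ∈ U, SuppL Q (chainOf Q m) ⊆ U)
    (T : Submodule ℂ Q.AA) (hUT : ∀ m ∈ U, Sd Q m ≤ T) {z : Q.AA} (hz : z ∈ AG Q)
    (hs : ∀ m, z.coeff m ≠ 0 → m ∈ U) : z ∈ T := by
  refine top_ind2 hT {z | z ∈ AG Q ∧ ∀ m, z.coeff m ≠ 0 → m ∈ U} (fun z hz => hz.1) T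
    (fun z hz l hl _ g hg _ => ?_) z ⟨hz, hs⟩
  obtain ⟨y, h1, h2⟩ := lead_onto_Sd hg
  refine ⟨y, hUT l (hz.2 l hl) h1, h1, h2, (AG Q).sub_mem hz.1 (Tri_Sd_le_AG l h1),
    fun m hm => ?_⟩
  by_cases h3 : z.coeff m = 0
  · refine hU l (hz.2 l hl) (supp_PL h1 fun h4 => hm ?_)
    rw [Tri_coeff_sub, h3, h4, sub_self]
  · exact hz.2 m h3

/-- The same induction inside `S` itself. -/
theorem S_le_AG {S : Subalgebra ℂ Q.AA} (hS : Q.IsCoul S) {z : Q.AA} (hz : z ∈ S) :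
    z ∈ AG Q := by
  refine Tri_ind2 (S : Set Q.AA) hS.2 (AG Q) (fun z hz l _ _ g hg _ => ?_) z hz
  obtain ⟨y, h1, h2⟩ := lead_onto_Sd hg
  exact ⟨y, Tri_Sd_le_AG l h1, h1, h2, S.sub_mem hz (AG_le_S hS (Tri_Sd_le_AG l h1))⟩

theorem Tri_wt_SuppL (θ : Fin Q.nI → ℤ) {L : List (Pc Q)} {m : Q.Lam} (h : m ∈ SuppL Q L) :
    ∑ i, θ (Q.vt i) * m i = ∑ i, θ (Q.vt i) * sumL Q L i := by
  rw [wt_eq_chg, wt_eq_chg, chg_of_mem_SuppL h]

theorem mem_II_of_wt (hT : TRA Q) {θ : Fin Q.nI → ℤ} {k : ℤ} (hk : k ≠ 0) {z : Q.AA}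
    (hz : z ∈ AG Q) (hw : Q.WtA θ k z) : z ∈ II Q := by
  refine tri hT {m | ∑ i, θ (Q.vt i) * m i = k} (fun m hm m' hm' => ?_) (II Q)
    (fun m hm => Sd_le_II fun h0 => hk ?_) hz hw
  · have h1 := Tri_wt_SuppL θ hm'
    rw [sumL_chainOf] at h1
    exact h1.trans hm
  · have h1 : ∑ i, θ (Q.vt i) * m i = k := hm
    rw [← h1, h0]
    simp

theorem IA_iff {θ : Fin Q.nI → ℤ} (hθ : Q.Generic θ) {S : Subalgebra ℂ Q.AA} (hS : Q.IsCoul S)
    (z : S) : z ∈ Q.IA θ S ↔ z.1 ∈ II Q := by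
  constructor
  · intro hz
    refine Submodule.span_induction (p := fun (x : S) _ => x.1 ∈ II Q) ?_ ?_ ?_ ?_ hz
    · rintro x ⟨k, hk, hx⟩
      exact mem_II_of_wt (TRA_of_coul hS) hk (S_le_AG hS x.2) hx
    · exact (II Q).zero_mem
    · exact fun x y _ _ hx hy => (II Q).add_mem hx hy
    · exact fun c x _ hx => AG_mul_II (Submodule.mul_mem_mul (S_le_AG hS c.2) hx)
  · intro hz
    have key : II Q ≤ ((Q.IA θ S).restrictScalars ℂ).map S.val.toLinearMap := by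
      refine iSup_le fun L => iSup_le fun hL => ?_
      obtain ⟨F, hF, hN⟩ := msL_pos_iff.1 hL
      rw [PL_perm (List.perm_cons_erase hF), PL_cons, Submodule.mul_le]
      intro x hx y hy
      have hxS : x ∈ S := Mo_le_S hS F hx
      have hyS : y ∈ S := AG_le_S hS (PL_le_AG _ hy)
      refine ⟨⟨x, hxS⟩ * ⟨y, hyS⟩, Ideal.mul_mem_right _ _ (Ideal.subset_span
        ⟨_, generic_mu hθ hN, fun m hm => ?_⟩), rfl⟩
      rw [Tri_wt_SuppL θ (supp_Mo hx hm), sumL_cons, sumL_nil, add_zero]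
    obtain ⟨x, hx, he⟩ := key hz
    have h1 : x = z := Subtype.ext he
    exact h1 ▸ hx

end Pool.Agent.HK.AC
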