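import Pool.Agent.P.MP_1206ce_ag.AC.Spec
import Pool.Agent.P.MP_1206ce_ag.AC.Tri

/-! Specialisation of the extra flavour variable: the kernel. -/

noncomputable section

open MvPolynomial

namespace Pool.Agent.HK.AC

variable {Q : Qv}

theorem Ker_tr_AG : Tr (RelA Q.spec) (AG Q.bdef) (AG Q) :=
  Tr_iSup RelA_cl (tr_PL (Q := Q))

theorem Ker_b_rel {u : Q.bdef.AA} (hu : u ∈ AG Q.bdef) :
    RelA Q.spec (Q.bdef.iota (X (Sum.inr (0 : Fin (Q.nT + 1)))) * u) (0 : Q.AA) := by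
  obtain ⟨v, -, hv⟩ := Ker_tr_AG u hu
  have h1 := RelA_cl.mul (spec_iota (Q := Q) (X (Sum.inr (0 : Fin (Q.nT + 1))))) hv
  rwa [spec_b, map_zero, zero_mul] at h1

/-- `top_ind2` for `Q.bdef`: the top coefficient `φ g / e` is related to `0`, so `spec g = 0`,
`g = b * g'` with `g'` invariant; subtract `iota b * y'` where `y'` has lead `g'`. -/
theorem spec_ker (hT : TRA Q.bdef) {z : Q.bdef.AA} (hz : z ∈ AG Q.bdef)
    (h0 : RelA Q.spec z (0 : Q.AA)) :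
    ∃ u ∈ AG Q.bdef, z = Q.bdef.iota (X (Sum.inr (0 : Fin (Q.nT + 1)))) * u := by
  have key := top_ind2 hT {z | z ∈ AG Q.bdef ∧ RelA Q.spec z (0 : Q.AA)} (fun z hz => hz.1)
    ((AG Q.bdef).map
      (LinearMap.mulLeft ℂ (Q.bdef.iota (X (Sum.inr (0 : Fin (Q.nT + 1))))))) ?_ z ⟨hz, h0⟩
  · obtain ⟨u, hu, e⟩ := key
    exact ⟨u, hu, e.symm⟩
  rintro z ⟨hz, h0⟩ l - - g hg lg
  have hb : (X (Sum.inr (0 : Fin (Q.nT + 1))) : Q.bdef.Pol) ∈ Rinv Q.bdef.lab :=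
    X_inr_mem (Q := Q.bdef) (0 : Fin (Q.nT + 1))
  have he : Q.spec (Q.bdef.eul l) ≠ 0 := by
    rw [spec_eul]
    exact eul_ne_zero (Q := Q) l
  have h1 := Rel_div (ψ := Q.spec) (Q.bdef.phi l * g) he
  have e1 : z.coeff l = al Q.bdef (Q.bdef.phi l * g) / al Q.bdef (Q.bdef.eul l) :=
    eq_div_of_mul_eq (al_ne_zero (eul_ne_zero l)) lg
  have h2 := h0 l
  rw [e1] at h2
  have e2 := Rel_unique h1 h2
  have e3 : al Q (Q.spec (Q.bdef.phi l * g)) = 0 := by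
    rcases div_eq_zero_iff.1 e2 with h | h
    · exact h
    · exact absurd h (al_ne_zero he)
  have e4 : Q.spec g = 0 := by
    have h3 : Q.spec (Q.bdef.phi l * g) = 0 := al_injective (by rw [e3, map_zero])
    rw [map_mul, spec_phi] at h3
    exact (mul_eq_zero.1 h3).resolve_left (phi_ne_zero (Q := Q) l)
  obtain ⟨g', rfl⟩ := dvd_of_spec_eq_zero e4
  have hg' : g' ∈ RL Q.bdef l := by
    refine mem_Rinv.2 fun w hw => ?_
    have h3 := mem_Rinv.1 hg w hw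
    rw [map_mul, mem_Rinv.1 (Rinv_le_RL l hb) w hw] at h3
    exact mul_left_cancel₀ (X_ne_zero _) h3
  obtain ⟨y, hy, ly⟩ := lead_onto_Sd hg'
  have hyA : y ∈ AG Q.bdef := PL_le_AG _ hy
  refine ⟨_, ⟨y, hyA, rfl⟩, iota_mul_mem_PL hb hy, Lead_iota_mul _ ly,
    sub_mem hz (PL_le_AG _ (iota_mul_mem_PL hb hy)), ?_⟩
  have h4 := RelA_cl.sub h0 (Ker_b_rel hyA)
  rwa [sub_zero] at h4

/-- Lift `iota h` to `z' ∈ II` and `h` to `h''`; `z' - iota h'' = b * u`, `u = iota h₁ + u₁`;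
take `h' = h'' + b * h₁`. -/
theorem II_iff_spec (hT : TRA Q.bdef) {h : Q.Pol} (hh : h ∈ Rinv Q.lab) :
    Q.iota h ∈ II Q ↔ ∃ h' ∈ Rinv Q.bdef.lab, Q.bdef.iota h' ∈ II Q.bdef ∧ Q.spec h' = h := by
  have hb : (X (Sum.inr (0 : Fin (Q.nT + 1))) : Q.bdef.Pol) ∈ Rinv Q.bdef.lab :=
    X_inr_mem (Q := Q.bdef) (0 : Fin (Q.nT + 1))
  constructor
  · intro hI
    obtain ⟨z, hz, hr⟩ := tr_II' _ hI
    obtain ⟨k, hk, ek⟩ := exists_lift_Rinv hh
    have h1 := RelA_cl.sub hr (spec_iota k)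
    rw [ek, sub_self] at h1
    obtain ⟨u, hu, eu⟩ := spec_ker hT (sub_mem (II_le_AG hz) (Hs_le_AG (iota_mem_Hs hk))) h1
    obtain ⟨k₁, hk₁, hu₁⟩ := exists_iota_of_AG hu
    refine ⟨k + X (Sum.inr (0 : Fin (Q.nT + 1))) * k₁, add_mem hk (mul_mem hb hk₁), ?_, ?_⟩
    · have h2 : Q.bdef.iota (X (Sum.inr (0 : Fin (Q.nT + 1)))) * (u - Q.bdef.iota k₁) ∈
          II Q.bdef := AG_mul_II (Submodule.mul_mem_mul (Hs_le_AG (iota_mem_Hs hb)) hu₁)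
      have e : Q.bdef.iota (k + X (Sum.inr (0 : Fin (Q.nT + 1))) * k₁) =
          z - Q.bdef.iota (X (Sum.inr (0 : Fin (Q.nT + 1)))) * (u - Q.bdef.iota k₁) := by
        rw [mul_sub, ← eu, map_add, map_mul]
        abel
      rw [e]
      exact sub_mem hz h2
    · rw [map_add, map_mul, spec_b, zero_mul, add_zero, ek]
  · rintro ⟨k, -, hI, rfl⟩
    obtain ⟨z, hz, hr⟩ := tr_II _ hI
    rw [RelA_unique (spec_iota k) hr]
    exact hz

end Pool.Agent.HK.AC
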