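import Pool.Agent.P.MP_1206ce_ag.AC.Tri
import Pool.Agent.P.MP_1206ce_ag.AC.Flat

/-! Products with vanishing leading coefficient are lower. -/

noncomputable section

open MvPolynomial

namespace Pool.Agent.HK.AC

variable {Q : Qv}

theorem Key_perm_map {α β : Type} (f : α → β) {l : List α} {m : List β} (h : m.Perm (l.map f)) :
    ∃ l' : List α, l'.map f = m ∧ l'.Perm l := by
  have h2 := List.eq_map_comp_perm f
  obtain ⟨l', h3, h4⟩ := (congrFun (congrFun h2 m) l).mpr h
  exact ⟨l', h3.symm, h4⟩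

theorem Key_sumL_single (F : Pc Q) : sumL Q [F] = mu Q F := by
  rw [sumL_cons, sumL_nil, add_zero]

theorem Key_sumL_pair (F G : Pc Q) : sumL Q [F, G] = mu Q F + mu Q G := by
  rw [sumL_cons, Key_sumL_single]

theorem Key_desc_pair {F G : Pc Q} (h : G ⊆ F) : Desc Q [F, G] := by
  simpa [Desc] using h

theorem Key_PL_le_LowP {F F' G G' : Pc Q} (h : LowR Q F F' G G') : PL Q [G, G'] ≤ LowP Q F F' :=
  le_iSup_of_le G (le_iSup_of_le G' (le_iSup_of_le h le_rfl))

theorem Key_PL_le_Low {L L' : List (Pc Q)} (h : Step Q L L') : PL Q L' ≤ Low Q L :=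
  le_iSup_of_le L' (le_iSup_of_le h le_rfl)

theorem Key_LowR_congr {F F' A A' G G' : Pc Q} (h : dm Q A = dm Q F) (h' : dm Q A' = dm Q F')
    (hl : LowR Q F F' G G') : LowR Q A A' G G' := by
  refine ⟨?_, ?_⟩
  · rw [msS_congr h, msS_congr h']
    exact hl.1
  · rw [hl.2, chg_add, chg_add, chg_mu_congr h, chg_mu_congr h']

theorem Key_Low_le {L M : List (Pc Q)} (h : (M.map (dm Q)).Perm (L.map (dm Q))) :
    Low Q M ≤ Low Q L := by
  refine iSup_le fun M' => iSup_le fun hs => ?_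
  obtain ⟨F, F', R, G, G', hp, rfl, hl⟩ := hs
  obtain ⟨L2, h2, h3⟩ := Key_perm_map (dm Q) ((hp.map (dm Q)).symm.trans h)
  match L2, h2, h3 with
  | [], h2, _ => simp at h2
  | [_], h2, _ => simp at h2
  | A :: A' :: R2, h2, h3 =>
    simp only [List.map_cons, List.cons.injEq] at h2
    obtain ⟨hA, hA', hR⟩ := h2
    have e : PL Q (G :: G' :: R) = PL Q (G :: G' :: R2) :=
      PL_congr (by simp only [List.map_cons, hR])
    rw [e]
    exact Key_PL_le_Low ⟨A, A', R2, G, G', h3.symm, rfl, Key_LowR_congr hA hA' hl⟩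

/-- `tri` with `U = SP F F'` (`SP_closed`, `SP_nested`, `PL_eq_Sd`). -/
theorem pair_low (hT : TRA Q) {F F' : Pc Q} {z : Q.AA} (hz : z ∈ AG Q)
    (hs : ∀ m, z.coeff m ≠ 0 → m ∈ SP Q F F') : z ∈ LowP Q F F' := by
  refine tri hT (SP Q F F') (fun m hm => SP_closed hm) _ (fun m hm => ?_) hz hs
  obtain ⟨G, G', hG, hl, rfl⟩ := SP_nested hm
  rw [← Key_sumL_pair, ← PL_eq_Sd (Key_desc_pair hG)]
  exact Key_PL_le_LowP hl

theorem pair_incomp (hT : TRA Q) {F F' : Pc Q} (h : ¬ dm Q F ≤ dm Q F') (h' : ¬ dm Q F' ≤ dm Q F) :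
    PL Q [F, F'] ≤ LowP Q F F' := by
  intro z hz
  refine pair_low hT (PL_le_AG _ hz) fun m hm => ?_
  by_contra hn
  obtain ⟨G, G', hG, hG', hc, -⟩ := nested_of_not_SP (supp_PL hz hm) hn
  rcases hc with hc | hc
  · exact h (by rw [← hG, ← hG']; exact dm_mono hc)
  · exact h' (by rw [← hG, ← hG']; exact dm_mono hc)

theorem pair_nested (hT : TRA Q) {F E : Pc Q} (h : E ⊆ F) {z : Q.AA} (hz : z ∈ PL Q [F, E])
    (h0 : z.coeff (mu Q F + mu Q E) = 0) : z ∈ LowP Q F E := by
  refine pair_low hT (PL_le_AG _ hz) fun m hm => ?_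
  by_contra hn
  obtain ⟨G, G', hG, hG', hc, rfl⟩ := nested_of_not_SP (supp_PL hz hm) hn
  have hsub : G' ⊆ G := by
    rcases hc with hc | hc
    · have hcard : G'.card ≤ G.card := by
        rw [card_eq_sum_dm, card_eq_sum_dm, hG, hG']
        exact Finset.sum_le_sum fun j _ => dm_mono h j
      exact (Finset.eq_of_subset_of_card_le hc hcard).ge
    · exact hc
  have hW : WO Q (sumL Q [F, E]) (sumL Q [G, G']) :=
    WO_of_desc (Key_desc_pair h) (Key_desc_pair hsub) (by simp only [List.map_cons, hG, hG'])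
  rw [Key_sumL_pair, Key_sumL_pair] at hW
  exact hm (coeff_WO hT (PL_le_AG _ hz) hW h0)

theorem LowP_mul_PL {F F' : Pc Q} {L R : List (Pc Q)} (h : L.Perm (F :: F' :: R)) :
    LowP Q F F' * PL Q R ≤ Low Q L := by
  rw [LowP, Submodule.iSup_mul]
  refine iSup_le fun G => ?_
  rw [Submodule.iSup_mul]
  refine iSup_le fun G' => ?_
  rw [Submodule.iSup_mul]
  refine iSup_le fun hl => ?_
  rw [← PL_append]
  exact Key_PL_le_Low ⟨F, F', R, G, G', h, rfl, hl⟩

theorem Mo_mul_Low (F : Pc Q) (L : List (Pc Q)) : Mo Q F * Low Q L ≤ Low Q (F :: L) := by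
  rw [Low, Submodule.mul_iSup]
  refine iSup_le fun L' => ?_
  rw [Submodule.mul_iSup]
  refine iSup_le fun hs => ?_
  obtain ⟨A, A', R, G, G', hp, rfl, hl⟩ := hs
  have p1 : (F :: G :: G' :: R).Perm (G :: G' :: F :: R) :=
    (List.Perm.swap G F _).trans ((List.Perm.swap G' F _).cons G)
  have p2 : (F :: L).Perm (A :: A' :: F :: R) :=
    (hp.cons F).trans ((List.Perm.swap A F _).trans ((List.Perm.swap A' F _).cons A))
  rw [← PL_cons, PL_perm p1]
  exact Key_PL_le_Low ⟨A, A', F :: R, G, G', p2, rfl, hl⟩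

theorem Low_perm_dm {L M : List (Pc Q)} (h : (M.map (dm Q)).Perm (L.map (dm Q))) :
    Low Q M = Low Q L :=
  le_antisymm (Key_Low_le h) (Key_Low_le h.symm)

theorem incomp_low (hT : TRA Q) {L R : List (Pc Q)} {F F' : Pc Q} (hL : L.Perm (F :: F' :: R))
    (h : ¬ dm Q F ≤ dm Q F') (h' : ¬ dm Q F' ≤ dm Q F) : PL Q L ≤ Low Q L := by
  have e : PL Q L = PL Q [F, F'] * PL Q R := by
    rw [PL_perm hL, ← PL_append]
    rfl
  rw [e]
  exact (mul_le_mul_left (pair_incomp hT h h') _).trans (LowP_mul_PL hL)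

theorem mem_PL_cons {F : Pc Q} {L : List (Pc Q)} {z : Q.AA} (hz : z ∈ PL Q (F :: L)) :
    ∃ (n : ℕ) (b : Fin n → Q.Pol) (y : Fin n → Q.AA), (∀ j, b j ∈ RL Q (mu Q F)) ∧
      (∀ j, y j ∈ PL Q L) ∧ z = ∑ j, MF Q F (b j) * y j := by
  rw [PL_cons, Submodule.mul_eq_span_mul_set, Submodule.mem_span_set'] at hz
  obtain ⟨n, c, g, rfl⟩ := hz
  have h1 : ∀ j, ∃ b ∈ RL Q (mu Q F), ∃ y ∈ PL Q L, c j • (g j : Q.AA) = MF Q F b * y := by
    intro j
    obtain ⟨x, hx, y, hy, hxy⟩ := Set.mem_mul.1 (g j).2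
    obtain ⟨b, hb, rfl⟩ := mem_Mo.1 hx
    exact ⟨b, hb, c j • y, Submodule.smul_mem _ _ hy, by rw [← hxy, mul_smul_comm]⟩
  choose b hb y hy hby using h1
  exact ⟨n, b, y, hb, hy, Finset.sum_congr rfl fun j _ => hby j⟩

/-- Induction on the list. For `F :: E :: L` write `z = ∑ MF F (b j) * y j`, let `a j` be the lead
of `y j`; `flat_chain` gives `c, γ`; take `v I ∈ PL L` with lead `γ I`. Then
`y j - ∑ I, MF E (c I j) * v I` has lead zero (induction, `Mo_mul_Low`) and
`∑ j, MF F (b j) * MF E (c I j)` has lead zero (`pair_nested`, `LowP_mul_PL`). -/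
theorem key (hT : TRA Q) {L : List (Pc Q)} (hL : Desc Q L) {z : Q.AA} (hz : z ∈ PL Q L)
    (h0 : z.coeff (sumL Q L) = 0) : z ∈ Low Q L := by
  induction L generalizing z with
  | nil =>
    rw [PL_nil] at hz
    obtain ⟨h, -, rfl⟩ := mem_Hs.1 hz
    rw [sumL_nil] at h0
    rw [Lead_unique (Lead_iota h) (Lead_zero_iff.2 h0), map_zero]
    exact Submodule.zero_mem _
  | cons F L ih =>
    cases L with
    | nil =>
      rw [PL_single] at hz
      obtain ⟨f, hf, rfl⟩ := mem_Mo.1 hz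
      rw [Key_sumL_single] at h0
      rw [Lead_unique (lead_MF hf) (Lead_zero_iff.2 h0), MF_zero]
      exact Submodule.zero_mem _
    | cons E L =>
      have hEL : Desc Q (E :: L) := (List.pairwise_cons.1 hL).2
      have hL' : Desc Q L := (List.pairwise_cons.1 hEL).2
      have hEF : E ⊆ F := (List.pairwise_cons.1 hL).1 E List.mem_cons_self
      obtain ⟨n, b, y, hb, hy, rfl⟩ := mem_PL_cons hz
      choose a ha la using fun j => exists_lead hEL (hy j)
      have hz0 : ∑ j, b j * a j = 0 :=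
        Lead_unique (Lead_sum Finset.univ fun j _ => lead_cons hL (hb j) (hy j) (la j))
          (Lead_zero_iff.2 h0)
      obtain ⟨k, c, γ, hc, hγ, hac, hbc⟩ := flat_chain hL a b ha hb hz0
      choose v hv lv using fun I => lead_onto hL' (hγ I)
      have hm : ∀ I j, MF Q E (c I j) * v I ∈ PL Q (E :: L) := fun I j => by
        rw [PL_cons]
        exact Submodule.mul_mem_mul (MF_mem_Mo _ _) (hv I)
      have h1 : ∀ j, y j - ∑ I, MF Q E (c I j) * v I ∈ Low Q (E :: L) := fun j => by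
        refine ih hEL (Submodule.sub_mem _ (hy j) (Submodule.sum_mem _ fun I _ => hm I j)) ?_
        have h2 := Lead_sub (la j)
          (Lead_sum Finset.univ fun I _ => lead_cons hEL (hc I j) (hv I) (lv I))
        rw [← hac j, sub_self] at h2
        exact Lead_zero_iff.1 h2
      have h2 : ∀ I, ∑ j, MF Q F (b j) * MF Q E (c I j) ∈ LowP Q F E := fun I => by
        refine pair_nested hT hEF (Submodule.sum_mem _ fun j _ => ?_) ?_
        · rw [PL_pair]
          exact Submodule.mul_mem_mul (MF_mem_Mo _ _) (MF_mem_Mo _ _)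
        · have h3 : ∀ j, Lead Q (sumL Q [F, E]) (MF Q F (b j) * MF Q E (c I j)) (b j * c I j) :=
            fun j => lead_cons (Key_desc_pair hEF) (hb j)
              (by rw [PL_single]; exact MF_mem_Mo _ _)
              (by rw [Key_sumL_single]; exact lead_MF (hc I j))
          have h4 := Lead_sum Finset.univ fun j _ => h3 j
          rw [hbc I, Key_sumL_pair] at h4
          exact Lead_zero_iff.1 h4
      have e : ∑ j, MF Q F (b j) * y j =
          ∑ j, MF Q F (b j) * (y j - ∑ I, MF Q E (c I j) * v I) +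
            ∑ I, (∑ j, MF Q F (b j) * MF Q E (c I j)) * v I := by
        simp only [mul_sub, Finset.sum_sub_distrib, Finset.mul_sum, Finset.sum_mul, mul_assoc]
        rw [Finset.sum_comm, sub_add_cancel]
      rw [e]
      refine Submodule.add_mem _ (Submodule.sum_mem _ fun j _ => ?_)
        (Submodule.sum_mem _ fun I _ => ?_)
      · exact Mo_mul_Low F _ (Submodule.mul_mem_mul (MF_mem_Mo _ _) (h1 j))
      · exact LowP_mul_PL (List.Perm.refl _) (Submodule.mul_mem_mul (h2 I) (hv I))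

end Pool.Agent.HK.AC
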