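import Pool.Agent.P.MP_1206ce_ag.AC.Str

/-! The restriction to strings kills all lower generators. -/

noncomputable section

open MvPolynomial

namespace Pool.Agent.HK.AC

variable {Q : Qv}

theorem Kill_range (T : Finset ℕ) :
    ∑ i ∈ Finset.range T.card, i + (Finset.range T.card \ T).card ≤ ∑ i ∈ T, i := by
  have h1 := Finset.sum_inter_add_sum_sdiff T (Finset.range T.card) fun i => i
  have h2 := Finset.sum_inter_add_sum_sdiff (Finset.range T.card) T fun i => i
  have h3 : (T \ Finset.range T.card).card = (Finset.range T.card \ T).card :=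
    Finset.card_sdiff_comm (Finset.card_range _).symm
  have h4 := Finset.card_nsmul_le_sum (T \ Finset.range T.card) (fun i => i) T.card fun i hi =>
    not_lt.1 fun h => (Finset.mem_sdiff.1 hi).2 (Finset.mem_range.2 h)
  have h5 := Finset.sum_le_card_nsmul (Finset.range T.card \ T) (fun i => i + 1) T.card
    fun i hi => Finset.mem_range.1 (Finset.mem_sdiff.1 hi).1
  rw [Finset.sum_add_distrib, ← Finset.card_eq_sum_ones] at h5
  rw [h3] at h4
  rw [Finset.inter_comm] at h2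
  omega

/-- On the string over `y` (the fibre of `σ`, of size `c + 1`) an injective function has sum at
least `0 + ... + c`, with equality only if its image is `{0, ..., c}`. Then `exists_W_fib` for
`x ↦ (σ x, ρ x)` and `x ↦ (σ x, ρ' x)`. -/
theorem str_count {l : Q.Lam} {ρ : Bt Q → ℕ} {σ : Bt Q → Bt Q} (h : StrD Q l ρ σ)
    (ρ' : Bt Q → ℕ) (hi : ∀ x y, σ x = σ y → ρ' x = ρ' y → x = y)
    (hs : ∑ x, ρ' x ≤ ∑ x, ρ x) :
    ∃ u ∈ Wl Q.lab, (∀ x, σ (wb Q u x) = σ x) ∧ ∀ x, ρ' (wb Q u x) = ρ x := by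
  let S : Bt Q → Finset (Bt Q) := fun y => Finset.univ.filter fun x => σ x = y
  have hS : ∀ {x y}, x ∈ S y ↔ σ x = y := by simp [S]
  have i1 : ∀ y, Set.InjOn ρ (S y) := fun y x hx x' hx' e =>
    h.inj x x' e ((hS.1 hx).trans (hS.1 hx').symm)
  have i2 : ∀ y, Set.InjOn ρ' (S y) := fun y x hx x' hx' e =>
    hi x x' ((hS.1 hx).trans (hS.1 hx').symm) e
  have e1 : ∀ y, (S y).image ρ = Finset.range ((S y).image ρ').card := fun y => by
    have e : (S y).image ρ = Finset.range (Q.lv l y + 1).toNat := by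
      ext i
      rw [Finset.mem_image, Finset.mem_range]
      constructor
      · rintro ⟨x, hx, rfl⟩
        have := h.le x
        rw [hS.1 hx] at this
        omega
      · intro hi
        obtain ⟨x, h1, h2⟩ := h.surj y i (by omega)
        exact ⟨x, hS.2 h2, h1⟩
    rw [Finset.card_image_of_injOn (i2 y), ← Finset.card_image_of_injOn (i1 y), e,
      Finset.card_range]
  have e2 : ∀ y, ∑ x ∈ S y, ρ x + ((S y).image ρ \ (S y).image ρ').card ≤ ∑ x ∈ S y, ρ' x :=
    fun y => by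
      have h1 := Kill_range ((S y).image ρ')
      rwa [← e1, Finset.sum_image (i1 y), Finset.sum_image (i2 y)] at h1
  have e3 := Finset.sum_le_sum fun y (_ : y ∈ Finset.univ) => e2 y
  rw [Finset.sum_add_distrib, Finset.sum_fiberwise, Finset.sum_fiberwise] at e3
  have e4 : ∀ x, ∃ x', σ x' = σ x ∧ ρ' x' = ρ x := fun x => by
    have h1 := Finset.single_le_sum (f := fun y => ((S y).image ρ \ (S y).image ρ').card)
      (fun _ _ => Nat.zero_le _) (Finset.mem_univ (σ x))
    have h2 : (S (σ x)).image ρ ⊆ (S (σ x)).image ρ' :=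
      Finset.sdiff_eq_empty_iff_subset.1 (Finset.card_eq_zero.1 (by omega))
    obtain ⟨x', h3, h4⟩ := Finset.mem_image.1 (h2 (Finset.mem_image_of_mem ρ (hS.2 rfl)))
    exact ⟨x', hS.1 h3, h4⟩
  choose e he he' using e4
  have hinj : Function.Injective e := fun x y hxy =>
    h.inj x y (by rw [← he', hxy, he']) (by rw [← he, hxy, he])
  obtain ⟨u, hu, hu'⟩ := exists_W_of_perm
    (Equiv.ofBijective e (Finite.injective_iff_bijective.1 hinj)) fun x => by
      rw [Equiv.ofBijective_apply, ← h.vb_eq, he, h.vb_eq]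
  exact ⟨u, hu, fun x => by rw [hu']; exact he x, fun x => by rw [hu']; exact he' x⟩
theorem Kill_inl (σ : Bt Q → Bt Q) (k : Fin Q.nB) :
    resA Q σ (X (Sum.inl k)) = Q.xv (σ (some k)) := aeval_X _ _

theorem Kill_zero {σ : Bt Q → Bt Q} {ρ' : Bt Q → ℕ} {a b : Fin Q.nB}
    (hab : ordV (Sum.inl a : Q.Var) < ordV (Sum.inl b : Q.Var)) (h0 : Q.vt a = Q.vt b)
    (h1 : σ (some a) = σ (some b)) (h2 : ρ' (some a) = ρ' (some b)) :
    resA Q σ (Dl (Q.labr ρ')) = 0 := by
  unfold Dl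
  rw [map_prod]
  refine Finset.prod_eq_zero (i := (Sum.inl a, Sum.inl b)) ?_ ?_
  · simp only [Finset.mem_filter, Finset.mem_univ, true_and]
    exact ⟨Prod.ext (congrArg Sum.inl h0) h2, hab⟩
  · rw [map_sub, Kill_inl, Kill_inl, h1, sub_self]

theorem Kill_xv {x y : Bt Q} (h : Q.xv x = Q.xv y) : x = y := by
  cases x with
  | none =>
    cases y with
    | none => rfl
    | some b => exact absurd h.symm (X_ne_zero _)
  | some a =>
    cases y with
    | none => exact absurd h (X_ne_zero _)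
    | some b => exact congrArg some (Sum.inl_injective (X_injective h))

theorem res_Dl_eq_zero {σ : Bt Q → Bt Q} (hv : ∀ x, Q.vb (σ x) = Q.vb x) {ρ' : Bt Q → ℕ}
    {x y : Bt Q} (hxy : x ≠ y) (h1 : σ x = σ y) (h2 : ρ' x = ρ' y) :
    resA Q σ (Dl (Q.labr ρ')) = 0 := by
  have h0 : Q.vb x = Q.vb y := by rw [← hv, h1, hv]
  cases x with
  | none =>
    cases y with
    | none => exact absurd rfl hxy
    | some b => exact absurd h0 (by simp [Qv.vb])
  | some a =>
    cases y with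
    | none => exact absurd h0 (by simp [Qv.vb])
    | some b =>
      have h3 : Q.vt a = Q.vt b := Option.some_injective _ h0
      rcases lt_trichotomy (ordV (Sum.inl a : Q.Var)) (ordV (Sum.inl b : Q.Var)) with h | h | h
      · exact Kill_zero h h3 h1 h2
      · exact absurd (congrArg some (Sum.inl_injective (ordV_injective h))) hxy
      · exact Kill_zero h h3.symm h1.symm h2.symm
theorem res_Dl_ne_zero {l : Q.Lam} {ρ : Bt Q → ℕ} {σ : Bt Q → Bt Q} (h : StrD Q l ρ σ) :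
    resA Q σ (Dl (Q.labr ρ)) ≠ 0 := by
  unfold Dl
  rw [map_prod]
  refine Finset.prod_ne_zero_iff.2 ?_
  rintro ⟨a, b⟩ hp
  simp only [Finset.mem_filter, Finset.mem_univ, true_and] at hp
  obtain ⟨h1, h2⟩ := hp
  have h3 : a ≠ b := fun e => h2.ne (congrArg ordV e)
  have h4 : Q.lab a = Q.lab b := congrArg Prod.fst h1
  cases a with
  | inl a =>
    cases b with
    | inl b =>
      rw [map_sub, Kill_inl, Kill_inl, sub_ne_zero]
      exact fun e => h3 (congrArg Sum.inl (Option.some_injective _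
        (h.inj _ _ (congrArg Prod.snd h1) (Kill_xv e))))
    | inr b => exact absurd h4 Sum.inl_ne_inr
  | inr a =>
    cases b with
    | inl b => exact absurd h4 Sum.inr_ne_inl
    | inr b => exact absurd (congrArg Sum.inr (Sum.inr_injective h4)) h3
/-- Every weight has coefficient one at the distinguished flavour variable. -/
theorem res_Arho_ne_zero (hU : UF Q) (σ : Bt Q → Bt Q) (ρ : Bt Q → ℕ) :
    resA Q σ (Q.Arho ρ) ≠ 0 := by
  obtain ⟨a, ha⟩ := hU
  let φ : Q.Pol →ₐ[ℂ] ℂ := aeval (Sum.elim (fun _ => 0) fun b => if b = a then 1 else 0)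
  have h1 : ∀ x, φ (Q.xv x) = 0 := fun x => by
    cases x with
    | none => exact map_zero φ
    | some k => exact aeval_X _ _
  have h2 : ∀ x, φ (resA Q σ (Q.xv x)) = 0 := fun x => by
    cases x with
    | none => exact (congrArg φ (map_zero _)).trans (map_zero φ)
    | some k => exact (congrArg φ (Kill_inl σ k)).trans (h1 _)
  have h3 : ∀ h, φ (resA Q σ (Q.bw h)) = 1 := fun h => by
    simp [Qv.bw, res_X_inr, φ, ha]
  unfold Qv.Arho
  rw [map_prod]
  refine Finset.prod_ne_zero_iff.2 fun p _ e => ?_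
  have h4 := congrArg φ e
  rw [Qv.wtP, map_add, map_sub, map_add, map_sub, h2, h2, h3, map_zero, sub_self, zero_add] at h4
  exact one_ne_zero h4
/-- A term which survives comes from a permutation of the strings. -/
theorem Kill_term {l : Q.Lam} {ρ ρ' : Bt Q → ℕ} {σ : Bt Q → Bt Q} (h : StrD Q l ρ σ)
    (hs : ∑ x, ρ' x ≤ ∑ x, ρ x) (G : Q.Pol) {w : Equiv.Perm Q.Var} (hw : w ∈ Wl Q.lab)
    (h0 : resA Q σ (rename w (G * DA Q ρ')) ≠ 0) :
    ∃ u ∈ Wl Q.lab, (∀ x, σ (wb Q u x) = σ x) ∧ ∀ x, ρ' (wb Q (w⁻¹ * u) x) = ρ x := by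
  have a1 : ∀ x y, σ x = σ y → ρ' (wb Q w⁻¹ x) = ρ' (wb Q w⁻¹ y) → x = y := fun x y h1 h2 => by
    by_contra hxy
    obtain ⟨s, -, e⟩ := rename_Dl_labr hw ρ'
    refine h0 ?_
    simp only [DA, map_mul, map_pow, e, map_smul,
      res_Dl_eq_zero h.vb_eq (ρ' := fun x => ρ' (wb Q w⁻¹ x)) hxy h1 h2]
    simp
  obtain ⟨u, hu, h1, h2⟩ := str_count h (fun x => ρ' (wb Q w⁻¹ x)) a1
    (by rwa [(wb_bijective (inv_mem_Wl hw)).sum_comp ρ'])
  exact ⟨u, hu, h1, fun x => by rw [wb_mul hu]; exact h2 x⟩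

/-- Every term of the sum is `0` or `res (G * DA ρ)`, and `w = 1` gives the second case. -/
theorem res_sym (hU : UF Q) {l : Q.Lam} {ρ : Bt Q → ℕ} {σ : Bt Q → Bt Q} (h : StrD Q l ρ σ)
    {G : Q.Pol} (hG : G ∈ Rinv (Q.labr ρ)) (h0 : resA Q σ (Sym Q.lab (G * DA Q ρ)) = 0) :
    resA Q σ G = 0 := by
  classical
  have h1 : ∀ w ∈ Wl Q.lab, resA Q σ (rename w (G * DA Q ρ)) ≠ 0 →
      resA Q σ (rename w (G * DA Q ρ)) = resA Q σ (G * DA Q ρ) := fun w hw hne => by
    obtain ⟨u, hu, h1, h2⟩ := Kill_term h le_rfl G hw hne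
    have h3 : (w⁻¹ * u)⁻¹ ∈ Wl (Q.labr ρ) :=
      inv_mem_Wl (mem_Wl_labr.2 ⟨mul_mem_Wl (inv_mem_Wl hw) hu, h2⟩)
    have h4 := mem_Rinv.1 (mul_mem hG (DA_mem ρ)) _ h3
    have h5 : w = u * (w⁻¹ * u)⁻¹ := by group
    rw [← res_rename hu h1 (G * DA Q ρ)]
    conv_rhs => rw [← h4, Sym_rename_mul, ← h5]
  rw [Sym_apply, map_sum, ← Finset.sum_filter_ne_zero, Finset.sum_congr rfl fun w hw =>
    h1 w (Finset.mem_filter.1 hw).1 (Finset.mem_filter.1 hw).2, Finset.sum_const] at h0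
  have h2 : resA Q σ (G * DA Q ρ) = 0 := by
    by_contra hne
    rcases smul_eq_zero.1 h0 with h3 | h3
    · refine Finset.card_ne_zero.2 ⟨1, Finset.mem_filter.2 ⟨one_mem_Wl _, ?_⟩⟩ h3
      rwa [Equiv.Perm.coe_one, rename_id, AlgHom.id_apply]
    · exact hne h3
  rw [DA, map_mul, map_mul, map_pow] at h2
  exact (mul_eq_zero.1 h2).resolve_right
    (mul_ne_zero (pow_ne_zero _ (res_Dl_ne_zero h)) (res_Arho_ne_zero hU σ ρ))
/-- A surviving term would give equal dimension vectors of all levels, so `WO l m`. -/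
theorem res_sym_lower {l m : Q.Lam} (hl : l ∈ Ss Q) (hm : m ∈ Ss Q) {ρ ρ' : Bt Q → ℕ}
    {σ σ' : Bt Q → Bt Q} (h : StrD Q l ρ σ) (h' : StrD Q m ρ' σ') (hle : Q.nsq m ≤ Q.nsq l)
    (hn : ¬ WO Q l m) (G : Q.Pol) : resA Q σ (Sym Q.lab (G * DA Q ρ')) = 0 := by
  rw [Sym_apply, map_sum]
  refine Finset.sum_eq_zero fun w hw => by_contra fun hne => hn (WO_of_dm_up fun i => ?_)
  have hs : ∑ x, ρ' x ≤ ∑ x, ρ x := by
    have h1 := strD_sum hl h
    have h2 := strD_sum hm h'
    have h3 : ∑ x, (ρ' x : ℤ) ≤ ∑ x, (ρ x : ℤ) := by omega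
    exact_mod_cast h3
  obtain ⟨u, hu, -, h2⟩ := Kill_term h hs G hw hne
  have hv := mul_mem_Wl (inv_mem_Wl hw) hu
  rcases le_or_gt 0 i with hi | hi
  · obtain ⟨n, rfl⟩ := Int.eq_ofNat_of_zero_le hi
    rw [← strD_dm h, ← strD_dm h', ← dm_wS hv, wS_Jr]
    congr 2
    funext x
    rw [← h2, wb_wb_inv hv]
  · have e : ∀ {n : Q.Lam}, n ∈ Ss Q → up Q n i = Finset.univ := fun {n} hn =>
      Finset.filter_true_of_mem fun x _ => by
        cases x with
        | none => exact hi.le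
        | some k => exact le_trans (by omega) (hn.1 k)
    rw [e hl, e hm]

end Pool.Agent.HK.AC
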