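import Pool.Agent.P.MP_1206ce_ag.AC.Orb
import Pool.Agent.P.MP_1206ce_ag.AC.Chain

/-! Single monopole operators. -/

noncomputable section

open MvPolynomial

namespace Pool.Agent.HK.AC

variable {Q : Qv}

theorem iota_eq (h : Q.Pol) : Q.iota h = AddMonoidAlgebra.single 0 (al Q h) := rfl
theorem iota_coeff_zero (h : Q.Pol) : (Q.iota h).coeff 0 = al Q h := by
  rw [iota_eq, AddMonoidAlgebra.coeff_single, Finsupp.single_eq_same]
theorem iota_coeff_ne (h : Q.Pol) {m : Q.Lam} (hm : m ≠ 0) : (Q.iota h).coeff m = 0 := by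
  rw [iota_eq, AddMonoidAlgebra.coeff_single, Finsupp.single_eq_of_ne hm]
theorem iota_mul_coeff (h : Q.Pol) (z : Q.AA) (m : Q.Lam) :
    (Q.iota h * z).coeff m = al Q h * z.coeff m := by
  rw [iota_eq, AddMonoidAlgebra.coeff_single_zero_mul]
theorem mem_Hs {z : Q.AA} : z ∈ Hs Q ↔ ∃ h ∈ Rinv Q.lab, z = Q.iota h :=
  ⟨fun ⟨h, h1, h2⟩ => ⟨h, h1, h2.symm⟩, fun ⟨h, h1, h2⟩ => ⟨h, h1, h2.symm⟩⟩
theorem iota_mem_Hs {h : Q.Pol} (hh : h ∈ Rinv Q.lab) : Q.iota h ∈ Hs Q := mem_Hs.2 ⟨h, hh, rfl⟩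
theorem one_mem_Hs : (1 : Q.AA) ∈ Hs Q := mem_Hs.2 ⟨1, one_mem _, (map_one _).symm⟩
theorem Hs_mul_Hs : Hs Q * Hs Q = Hs Q := by
  refine le_antisymm (Submodule.mul_le.2 fun x hx y hy => ?_) fun x hx => ?_
  · obtain ⟨a, ha, rfl⟩ := mem_Hs.1 hx
    obtain ⟨b, hb, rfl⟩ := mem_Hs.1 hy
    rw [← map_mul]
    exact iota_mem_Hs (mul_mem ha hb)
  · rw [← mul_one x]
    exact Submodule.mul_mem_mul hx one_mem_Hs

/-- The coefficient of a monopole operator at its base point. -/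
def Mono_c (Q : Qv) (F : Pc Q) (f : Q.Pol) : Q.Frac :=
  al Q (f * Q.phi (mu Q F)) / al Q (Q.eul (mu Q F))

theorem Mono_M0 (F : Pc Q) (f : Q.Pol) : M0 Q F f =
    ∑ w ∈ Wl Q.lab, AddMonoidAlgebra.single (Q.wl w (mu Q F)) (Q.wF w (Mono_c Q F f)) := rfl

theorem Mono_c_add (F : Pc Q) (f g : Q.Pol) :
    Mono_c Q F (f + g) = Mono_c Q F f + Mono_c Q F g := by
  unfold Mono_c
  rw [add_mul, map_add, add_div]

theorem Mono_c_smul (F : Pc Q) (a : ℂ) (f : Q.Pol) : Mono_c Q F (a • f) = a • Mono_c Q F f := by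
  unfold Mono_c
  rw [smul_mul_assoc, al_smul, smul_div_assoc]

theorem Mono_c_mul (F : Pc Q) (h f : Q.Pol) : Mono_c Q F (h * f) = al Q h * Mono_c Q F f := by
  unfold Mono_c
  rw [mul_assoc, map_mul, mul_div_assoc]

theorem Mono_c_wS {w : Equiv.Perm Q.Var} (hw : w ∈ Wl Q.lab) (F : Pc Q) (f : Q.Pol) :
    Mono_c Q (wS Q w F) (rename w f) = Q.wF w (Mono_c Q F f) := by
  unfold Mono_c
  rw [map_div₀, wF_al, wF_al, map_mul (rename w), rename_phi hw, rename_eul hw, wl_mu hw]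

theorem M0_add (F : Pc Q) (f g : Q.Pol) : M0 Q F (f + g) = M0 Q F f + M0 Q F g := by
  simp only [Mono_M0, Mono_c_add, map_add, AddMonoidAlgebra.single_add, Finset.sum_add_distrib]
theorem M0_smul (F : Pc Q) (a : ℂ) (f : Q.Pol) : M0 Q F (a • f) = a • M0 Q F f := by
  simp only [Mono_M0, Mono_c_smul, wF_smul, Finset.smul_sum, AddMonoidAlgebra.smul_single]
theorem MF_add (F : Pc Q) (f g : Q.Pol) : MF Q F (f + g) = MF Q F f + MF Q F g := by
  unfold MF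
  rw [M0_add, smul_add]
theorem MF_smul (F : Pc Q) (a : ℂ) (f : Q.Pol) : MF Q F (a • f) = a • MF Q F f := by
  unfold MF
  rw [M0_smul, smul_comm]
theorem MF_zero (F : Pc Q) : MF Q F 0 = 0 := by
  have h := MF_smul F 0 0
  rwa [zero_smul, zero_smul] at h
theorem MF_sum {ι : Type} (F : Pc Q) (s : Finset ι) (f : ι → Q.Pol) :
    MF Q F (∑ i ∈ s, f i) = ∑ i ∈ s, MF Q F (f i) := by
  classical
  induction s using Finset.induction_on with
  | empty => rw [Finset.sum_empty, Finset.sum_empty, MF_zero]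
  | insert a s ha ih => rw [Finset.sum_insert ha, Finset.sum_insert ha, MF_add, ih]
theorem M0_wS {w : Equiv.Perm Q.Var} (hw : w ∈ Wl Q.lab) (F : Pc Q) (f : Q.Pol) :
    M0 Q (wS Q w F) (rename w f) = M0 Q F f := by
  rw [Mono_M0, Mono_M0, ← Sym_sum_right hw fun u =>
    AddMonoidAlgebra.single (Q.wl u (mu Q F)) (Q.wF u (Mono_c Q F f))]
  refine Finset.sum_congr rfl fun u hu => ?_
  rw [Mono_c_wS hw, ← wl_mu hw, wl_mul hu, wF_mul]

theorem Mono_conj {w u : Equiv.Perm Q.Var} (hw : w ∈ Wl Q.lab) {l : Q.Lam}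
    (hu : u ∈ Wl (labl Q l)) : w * u * w⁻¹ ∈ Wl (labl Q (Q.wl w l)) := by
  obtain ⟨h1, h2⟩ := mem_Wl_labl.1 hu
  refine mem_Wl_labl.2 ⟨mul_mem_Wl (mul_mem_Wl hw h1) (inv_mem_Wl hw), ?_⟩
  rw [wl_mul (mul_mem_Wl hw h1), wl_inv_wl hw, wl_mul hw, h2]

theorem Mono_card_le {w : Equiv.Perm Q.Var} (hw : w ∈ Wl Q.lab) (l : Q.Lam) :
    (Wl (labl Q l)).card ≤ (Wl (labl Q (Q.wl w l))).card :=
  Finset.card_le_card_of_injOn (fun u => w * u * w⁻¹) (fun _ hu => Mono_conj hw hu)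
    fun _ _ _ _ h => mul_left_cancel (mul_right_cancel h)

theorem Mono_card {w : Equiv.Perm Q.Var} (hw : w ∈ Wl Q.lab) (l : Q.Lam) :
    (Wl (labl Q (Q.wl w l))).card = (Wl (labl Q l)).card := by
  refine le_antisymm ?_ (Mono_card_le hw l)
  have h := Mono_card_le (inv_mem_Wl hw) (Q.wl w l)
  rwa [wl_inv_wl hw] at h

/-- The stabilisers are conjugate, so they have the same cardinality. -/
theorem MF_wS {w : Equiv.Perm Q.Var} (hw : w ∈ Wl Q.lab) (F : Pc Q) (f : Q.Pol) :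
    MF Q (wS Q w F) (rename w f) = MF Q F f := by
  unfold MF
  rw [M0_wS hw, ← wl_mu hw, Mono_card hw]
theorem M0_mem_Mo (F : Pc Q) (f : Q.Pol) : M0 Q F f ∈ Mo Q F := Submodule.subset_span ⟨f, rfl⟩
theorem MF_mem_Mo (F : Pc Q) (f : Q.Pol) : MF Q F f ∈ Mo Q F :=
  Submodule.smul_mem _ _ (M0_mem_Mo F f)

theorem Mono_MF_rename {F : Pc Q} {u : Equiv.Perm Q.Var} (hu : u ∈ Wl (labl Q (mu Q F)))
    (f : Q.Pol) : MF Q F (rename u f) = MF Q F f := by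
  obtain ⟨h1, h2⟩ := mem_Wl_mu.1 hu
  have h := MF_wS h1 F f
  rwa [h2] at h

theorem Mono_M0_eq (F : Pc Q) (f : Q.Pol) : M0 Q F f = MF Q F (Sym (labl Q (mu Q F)) f) := by
  rw [Sym_apply, MF_sum, Finset.sum_congr rfl fun u hu => Mono_MF_rename hu f, Finset.sum_const,
    ← Nat.cast_smul_eq_nsmul ℂ, MF, smul_inv_smul₀ (card_Wl_ne_zero _)]

/-- `M0 F f = MF F (Sym (labl (mu F)) f)`. -/
theorem mem_Mo {F : Pc Q} {z : Q.AA} :
    z ∈ Mo Q F ↔ ∃ f ∈ RL Q (mu Q F), z = MF Q F f := by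
  constructor
  · intro hz
    induction hz using Submodule.span_induction with
    | mem z hz =>
      obtain ⟨f, rfl⟩ := hz
      exact ⟨_, Sym_mem_Rinv _ f, Mono_M0_eq F f⟩
    | zero => exact ⟨0, zero_mem _, (MF_zero F).symm⟩
    | add x y _ _ hx hy =>
      obtain ⟨f, hf, rfl⟩ := hx
      obtain ⟨g, hg, rfl⟩ := hy
      exact ⟨f + g, add_mem hf hg, (MF_add F f g).symm⟩
    | smul a x _ hx =>
      obtain ⟨f, hf, rfl⟩ := hx
      exact ⟨a • f, Subalgebra.smul_mem _ hf a, (MF_smul F a f).symm⟩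
  · rintro ⟨f, -, rfl⟩
    exact MF_mem_Mo F f

theorem Mono_coeff (F : Pc Q) (f : Q.Pol) (m : Q.Lam) : (M0 Q F f).coeff m =
    ∑ w ∈ Wl Q.lab, if Q.wl w (mu Q F) = m then Q.wF w (Mono_c Q F f) else 0 := by
  rw [Mono_M0, AddMonoidAlgebra.coeff_sum, Finsupp.finsetSum_apply]
  exact Finset.sum_congr rfl fun w _ => Finsupp.single_apply

theorem lead_MF {F : Pc Q} {f : Q.Pol} (hf : f ∈ RL Q (mu Q F)) :
    Lead Q (mu Q F) (MF Q F f) f := by
  have e : (Wl Q.lab).filter (fun w => Q.wl w (mu Q F) = mu Q F) = Wl (labl Q (mu Q F)) := by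
    ext u
    rw [Finset.mem_filter, mem_Wl_labl]
  have h1 : ∀ u ∈ Wl (labl Q (mu Q F)), Q.wF u (Mono_c Q F f) = Mono_c Q F f := by
    intro u hu
    obtain ⟨h1, h2⟩ := mem_Wl_mu.1 hu
    rw [← Mono_c_wS h1, h2, mem_Rinv.1 hf u hu]
  have h2 : (MF Q F f).coeff (mu Q F) = Mono_c Q F f := by
    rw [MF, AddMonoidAlgebra.coeff_smul_apply, Mono_coeff, ← Finset.sum_filter, e,
      Finset.sum_congr rfl h1, Finset.sum_const, ← Nat.cast_smul_eq_nsmul ℂ,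
      inv_smul_smul₀ (card_Wl_ne_zero _)]
  rw [Lead, h2, Mono_c, div_mul_cancel₀ _ (al_ne_zero (eul_ne_zero _)), mul_comm]
theorem supp_Mo {F : Pc Q} {z : Q.AA} (hz : z ∈ Mo Q F) {m : Q.Lam} (hm : z.coeff m ≠ 0) :
    m ∈ SuppL Q [F] := by
  obtain ⟨f, -, rfl⟩ := mem_Mo.1 hz
  rw [MF, AddMonoidAlgebra.coeff_smul_apply, Mono_coeff] at hm
  obtain ⟨w, hw, h⟩ := Finset.exists_ne_zero_of_sum_ne_zero (right_ne_zero_of_smul hm)
  refine mem_SuppL_single.2 ⟨wS Q w F, dm_wS hw F, ?_⟩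
  rw [← wl_mu hw]
  by_contra hn
  exact h (if_neg hn)

theorem Mono_Mo_le {F G : Pc Q} (h : dm Q G = dm Q F) : Mo Q G ≤ Mo Q F := by
  obtain ⟨w, hw, rfl⟩ := exists_W_dm h
  refine Submodule.span_le.2 ?_
  rintro _ ⟨f, rfl⟩
  rw [← M0_wS hw]
  exact M0_mem_Mo _ _

theorem Mo_congr {F G : Pc Q} (h : dm Q G = dm Q F) : Mo Q G = Mo Q F :=
  le_antisymm (Mono_Mo_le h) (Mono_Mo_le h.symm)
theorem iota_mul_MF {h : Q.Pol} (hh : h ∈ Rinv Q.lab) (F : Pc Q) (f : Q.Pol) :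
    Q.iota h * MF Q F f = MF Q F (h * f) := by
  unfold MF
  rw [mul_smul_comm, Mono_M0, Mono_M0, Finset.mul_sum]
  congr 1
  refine Finset.sum_congr rfl fun w hw => ?_
  rw [iota_eq, AddMonoidAlgebra.single_mul_single, zero_add, Mono_c_mul, map_mul, wF_al,
    mem_Rinv.1 hh w hw]
theorem Mo_mul_Hs (F : Pc Q) : Mo Q F * Hs Q = Mo Q F := by
  refine le_antisymm (Submodule.mul_le.2 fun x hx y hy => ?_) fun x hx => ?_
  · obtain ⟨f, -, rfl⟩ := mem_Mo.1 hx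
    obtain ⟨b, hb, rfl⟩ := mem_Hs.1 hy
    rw [mul_comm, iota_mul_MF hb]
    exact MF_mem_Mo _ _
  · rw [← mul_one x]
    exact Submodule.mul_mem_mul hx one_mem_Hs

theorem Mono_M0_triv {F : Pc Q} (h : ¬ NT Q F) (f : Q.Pol) :
    M0 Q F f = Q.iota (Sym Q.lab f) := by
  rw [Sym_apply, map_sum, Mono_M0]
  refine Finset.sum_congr rfl fun w _ => ?_
  rw [Mono_c, mu_triv h, wl_zero, phi_zero, eul_zero, mul_one, map_one, div_one, wF_al, iota_eq]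

theorem Mo_triv {F : Pc Q} (h : ¬ NT Q F) : Mo Q F = Hs Q := by
  refine le_antisymm (Submodule.span_le.2 ?_) fun x hx => ?_
  · rintro _ ⟨f, rfl⟩
    rw [Mono_M0_triv h]
    exact iota_mem_Hs (Sym_mem_Rinv _ f)
  · obtain ⟨b, hb, rfl⟩ := mem_Hs.1 hx
    have h1 := Submodule.smul_mem _ ((Wl Q.lab).card : ℂ)⁻¹ (M0_mem_Mo F b)
    rwa [Mono_M0_triv h, Sym_of_mem hb, map_smul, inv_smul_smul₀ (card_Wl_ne_zero _)] at h1

theorem Mono_div_smul {s : ℂ} (hs : s * s = 1) (x y : Q.Frac) : x / (s • y) = s • (x / y) := by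
  have h : (algebraMap ℂ Q.Frac s)⁻¹ = algebraMap ℂ Q.Frac s :=
    inv_eq_of_mul_eq_one_right (by rw [← map_mul, hs, map_one])
  rw [Algebra.smul_def, Algebra.smul_def, div_eq_mul_inv, mul_inv, h, div_eq_mul_inv]
  ring

/-- `M0 F f = ± mono (mu F) (f * Dl (labl (mu F)))` by `Dl_eq_mu` and `rename_Dl`. -/
theorem Mo_le_S {S : Subalgebra ℂ Q.AA} (hS : Q.IsCoul S) (F : Pc Q) :
    Mo Q F ≤ Subalgebra.toSubmodule S := by
  obtain ⟨s, hs, hD⟩ := Dl_eq_mu F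
  refine Submodule.span_le.2 ?_
  rintro _ ⟨f, rfl⟩
  have h1 : al Q (f * Dl (labl Q (mu Q F)) * Q.phi (mu Q F)) / al Q (Dl Q.lab) =
      s • Mono_c Q F f := by
    rw [hD, al_smul, Mono_div_smul hs, Mono_c, mul_right_comm, map_mul,
      mul_comm (Dl (labl Q (mu Q F))), map_mul (al Q) (Q.eul _),
      mul_div_mul_right _ _ (al_ne_zero (Dl_ne_zero _))]
  have h2 : Q.mono (mu Q F) (f * Dl (labl Q (mu Q F))) = s • M0 Q F f := by
    rw [Mono_M0, Finset.smul_sum, Qv.mono]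
    refine Finset.sum_congr rfl fun w hw => ?_
    rw [AddMonoidAlgebra.smul_single, ← wF_smul, ← h1, map_div₀, wF_al, wF_al, rename_Dl hw,
      al_smul, al_smul, Mono_div_smul (sgn_mul_self w), smul_div_assoc]
  have h3 := S.smul_mem (hS.1 (mu Q F) (f * Dl (labl Q (mu Q F)))) s
  rwa [h2, smul_smul, hs, one_smul] at h3
theorem Hs_le_S {S : Subalgebra ℂ Q.AA} (hS : Q.IsCoul S) :
    Hs Q ≤ Subalgebra.toSubmodule S := by
  rw [← Mo_triv (F := ∅) fun h => h.1 rfl]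
  exact Mo_le_S hS _

end Pool.Agent.HK.AC
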