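import Pool.Agent.P.MP_1206ce_ag.AC.Act

/-! Orbits of the Weyl group, power sums of pieces and products over pairs. -/

noncomputable section

open MvPolynomial

namespace Pool.Agent.HK.AC

variable {Q : Qv}

theorem mem_Wl_sumCongr {u : Equiv.Perm (Fin Q.nB)} :
    (Equiv.sumCongr u (Equiv.refl _) : Equiv.Perm Q.Var) ∈ Wl Q.lab ↔ u ∈ Wl Q.vt := by
  rw [mem_Wl, mem_Wl]
  constructor
  · intro h k
    have := h (Sum.inl k)
    simpa [Qv.lab] using this
  · intro h k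
    rcases k with k | a
    · simpa [Qv.lab] using h k
    · simp [Qv.lab]

theorem Orb_wb_sumCongr (u : Equiv.Perm (Fin Q.nB)) (k : Fin Q.nB) :
    wb Q (Equiv.sumCongr u (Equiv.refl _) : Equiv.Perm Q.Var) (some k) = some (u k) :=
  wb_some rfl

/-- Extend `u` (it fixes `none`) by the identity on the flavour variables. -/
theorem exists_W_of_perm (u : Equiv.Perm (Bt Q)) (hu : ∀ x, Q.vb (u x) = Q.vb x) :
    ∃ w ∈ Wl Q.lab, ∀ x, wb Q w x = u x := by
  have h0 : u none = none := by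
    have := hu none
    simpa [Qv.vb] using this
  have hs : ∀ k, some (Equiv.removeNone u k) = u (some k) := fun k => by
    refine Equiv.removeNone_some u ?_
    rcases h : u (some k) with _ | k'
    · exact absurd (u.injective (h.trans h0.symm)) (by simp)
    · exact ⟨k', rfl⟩
  refine ⟨Equiv.sumCongr (Equiv.removeNone u) (Equiv.refl _), ?_, fun x => ?_⟩
  · refine mem_Wl_sumCongr.2 (mem_Wl.2 fun k => ?_)
    have := hu (some k)
    rw [← hs k] at this
    simpa [Qv.vb] using this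
  · rcases x with _ | k
    · rw [wb_none, h0]
    · rw [Orb_wb_sumCongr, hs]
/-- `Equiv.ofFiberEquiv` and `Fintype.equivOfCardEq`. -/
theorem exists_equiv_fib {A B J : Type} [Fintype A] [Fintype B] [DecidableEq J] (f : A → J)
    (g : B → J) (h : ∀ j, (Finset.univ.filter fun a => f a = j).card =
      (Finset.univ.filter fun b => g b = j).card) : ∃ e : A ≃ B, ∀ a, g (e a) = f a := by
  have e : ∀ j, {a // f a = j} ≃ {b // g b = j} := fun j =>
    Fintype.equivOfCardEq (by rw [Fintype.card_subtype, Fintype.card_subtype]; exact h j)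
  exact ⟨Equiv.ofFiberEquiv e, fun a => Equiv.ofFiberEquiv_map e a⟩
theorem exists_W_fib {J : Type} [DecidableEq J] (f g : Bt Q → J)
    (h : ∀ j c, (Finset.univ.filter fun x => Q.vb x = j ∧ f x = c).card =
      (Finset.univ.filter fun x => Q.vb x = j ∧ g x = c).card) :
    ∃ w ∈ Wl Q.lab, ∀ x, g (wb Q w x) = f x := by
  obtain ⟨e, he⟩ := exists_equiv_fib (fun x => (Q.vb x, f x)) (fun x => (Q.vb x, g x))
    (fun j => by
      obtain ⟨j, c⟩ := j
      simp only [Prod.mk.injEq]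
      exact h j c)
  obtain ⟨w, hw, hwe⟩ := exists_W_of_perm e fun x => congrArg Prod.fst (he x)
  exact ⟨w, hw, fun x => by rw [hwe]; exact congrArg Prod.snd (he x)⟩

theorem Orb_dm (F : Pc Q) (j : Option (Fin Q.nI)) (p : Bt Q → Prop) [DecidablePred p]
    (hp : ∀ x, p x ↔ x ∈ F) :
    (Finset.univ.filter fun x => Q.vb x = j ∧ p x).card = dm Q F j := by
  unfold dm
  congr 1
  ext x
  simp [hp, and_comm]

theorem Orb_dm_union {F G : Pc Q} (h : Disjoint F G) (j : Option (Fin Q.nI)) :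
    dm Q (F ∪ G) j = dm Q F j + dm Q G j := by
  unfold dm
  rw [Finset.filter_union, Finset.card_union_of_disjoint
    (Finset.disjoint_filter_filter h)]

theorem exists_W_dm {F G : Pc Q} (h : dm Q F = dm Q G) : ∃ w ∈ Wl Q.lab, wS Q w F = G := by
  have hc : ∀ j, dm Q Fᶜ j = dm Q Gᶜ j := fun j => by
    have h1 := Orb_dm_union (disjoint_compl_right (a := F)) j
    have h2 := Orb_dm_union (disjoint_compl_right (a := G)) j
    rw [Finset.union_compl] at h1 h2
    have h3 := congrFun h j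
    omega
  obtain ⟨w, hw, hwe⟩ := exists_W_fib (fun x => decide (x ∈ F)) (fun x => decide (x ∈ G))
    (fun j c => by
      cases c
      · rw [Orb_dm Fᶜ j _ (fun x => by simp), Orb_dm Gᶜ j _ (fun x => by simp), hc]
      · rw [Orb_dm F j _ (fun x => by simp), Orb_dm G j _ (fun x => by simp), h])
  refine ⟨w, hw, ?_⟩
  ext x
  have := hwe (wb Q w⁻¹ x)
  rw [wb_wb_inv hw] at this
  rw [mem_wS]
  simpa using this.symm
/-- The fibre of the value `c` is `up c` minus `up (c + 1)`. -/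
theorem WO_of_dm_up {l m : Q.Lam} (h : ∀ i, dm Q (up Q l i) = dm Q (up Q m i)) : WO Q l m := by
  have key : ∀ (n : Q.Lam) (c : ℤ) j, dm Q (up Q n c) j =
      dm Q (Finset.univ.filter fun x => Q.lv n x = c) j + dm Q (up Q n (c + 1)) j := by
    intro n c j
    rw [← Orb_dm_union]
    · congr 1
      ext x
      simp only [up, Finset.mem_filter, Finset.mem_univ, true_and, Finset.mem_union]
      omega
    · rw [Finset.disjoint_left]
      intro x hx hx'
      simp only [up, Finset.mem_filter, Finset.mem_univ, true_and] at hx hx'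
      omega
  obtain ⟨w, hw, hwe⟩ := exists_W_fib (Q.lv l) (Q.lv m) (fun j c => by
    rw [Orb_dm (Finset.univ.filter fun x => Q.lv l x = c) j _ (fun x => by simp),
      Orb_dm (Finset.univ.filter fun x => Q.lv m x = c) j _ (fun x => by simp)]
    have h1 := key l c j
    have h2 := key m c j
    have h3 := congrFun (h c) j
    have h4 := congrFun (h (c + 1)) j
    omega)
  refine ⟨w, hw, lv_ext fun x => ?_⟩
  have h1 := hwe (wb Q w⁻¹ x)
  have h2 := lv_wl hw l (wb Q w⁻¹ x)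
  rw [wb_wb_inv hw] at h1 h2
  rw [h1, h2]
theorem exists_W_Jr {ρ ρ' : Bt Q → ℕ} (h : ∀ i, dm Q (Jr Q ρ i) = dm Q (Jr Q ρ' i)) :
    ∃ w ∈ Wl Q.lab, ∀ x, ρ' (wb Q w x) = ρ x :=
  exists_W_fib ρ ρ' fun j c => by
    rw [Orb_dm (Jr Q ρ c) j _ (fun x => by simp [Jr]),
      Orb_dm (Jr Q ρ' c) j _ (fun x => by simp [Jr]), h c]
theorem exists_sumCongr {w : Equiv.Perm Q.Var} (hw : w ∈ Wl Q.lab) :
    ∃ u ∈ Wl Q.vt, w = Equiv.sumCongr u (Equiv.refl _) := by
  choose u hu hv using W_inl hw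
  have hi : Function.Injective u := fun a b hab => by
    have : w (Sum.inl a) = w (Sum.inl b) := by rw [hu, hu, hab]
    exact Sum.inl_injective (w.injective this)
  refine ⟨Equiv.ofBijective u (Finite.injective_iff_bijective.1 hi), mem_Wl.2 hv, ?_⟩
  ext x
  rcases x with k | a
  · rw [hu]
    rfl
  · rw [W_inr hw]
    rfl
/-- The Weyl group is the group of vertex preserving permutations of the basis of `V`. -/
theorem sum_Wl_eq {M : Type} [AddCommMonoid M] (g : Equiv.Perm Q.Var → M) :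
    ∑ w ∈ Wl Q.lab, g w = ∑ u ∈ Wl Q.vt, g (Equiv.sumCongr u (Equiv.refl _)) := by
  symm
  refine Finset.sum_bij (fun u _ => (Equiv.sumCongr u (Equiv.refl _) : Equiv.Perm Q.Var))
    (fun u hu => mem_Wl_sumCongr.2 hu) (fun u _ u' _ h => ?_) (fun w hw => ?_) (fun _ _ => rfl)
  · ext k
    have := congrArg (fun e : Equiv.Perm Q.Var => e (Sum.inl k)) h
    simp only [Equiv.sumCongr_apply, Sum.map_inl, Sum.inl.injEq] at this
    rw [this]
  · obtain ⟨u, hu, rfl⟩ := exists_sumCongr hw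
    exact ⟨u, hu, rfl⟩

theorem rename_pS {w : Equiv.Perm Q.Var} (hw : w ∈ Wl Q.lab) (F : Pc Q) (j : Fin Q.nI) (a : ℕ) :
    rename w (pS Q F j a) = pS Q (wS Q w F) j a := by
  obtain ⟨u, hu, rfl⟩ := exists_sumCongr hw
  unfold pS
  rw [map_sum]
  refine Finset.sum_equiv u (fun k => ?_) (fun k _ => ?_)
  · simp only [Finset.mem_filter, Finset.mem_univ, true_and]
    rw [← Orb_wb_sumCongr, wb_mem_wS hw, mem_Wl.1 hu]
  · rw [map_pow, rename_X]
    rfl
theorem pS_mem_RL (F : Pc Q) (j : Fin Q.nI) (a : ℕ) : pS Q F j a ∈ RL Q (mu Q F) := by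
  refine mem_Rinv.2 fun w hw => ?_
  obtain ⟨h1, h2⟩ := mem_Wl_mu.1 hw
  rw [rename_pS h1, h2]
theorem pS_compl_mem_RL (F : Pc Q) (j : Fin Q.nI) (a : ℕ) : pS Q Fᶜ j a ∈ RL Q (mu Q F) := by
  refine mem_Rinv.2 fun w hw => ?_
  obtain ⟨h1, h2⟩ := mem_Wl_mu.1 hw
  rw [rename_pS h1, wS_compl, h2]
theorem pS_empty (j : Fin Q.nI) (a : ℕ) : pS Q ∅ j a = 0 := by
  simp [pS]
theorem pS_union {F G : Pc Q} (h : Disjoint F G) (j : Fin Q.nI) (a : ℕ) :
    pS Q (F ∪ G) j a = pS Q F j a + pS Q G j a := by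
  unfold pS
  rw [← Finset.sum_union]
  · refine Finset.sum_congr ?_ fun _ _ => rfl
    ext k
    simp only [Finset.mem_filter, Finset.mem_univ, true_and, Finset.mem_union]
    tauto
  · rw [Finset.disjoint_left]
    intro k hk hk'
    simp only [Finset.mem_filter, Finset.mem_univ, true_and] at hk hk'
    exact Finset.disjoint_left.1 h hk.1 hk'.1
theorem pS_level_mem_RL (l : Q.Lam) (c : ℤ) (j : Fin Q.nI) (a : ℕ) :
    pS Q (Finset.univ.filter fun x => Q.lv l x = c) j a ∈ RL Q l := by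
  refine mem_Rinv.2 fun w hw => ?_
  obtain ⟨h1, h2⟩ := mem_Wl_labl.1 hw
  rw [rename_pS h1]
  congr 1
  ext x
  have h3 := lv_wl h1 l (wb Q w⁻¹ x)
  rw [wb_wb_inv h1, h2] at h3
  rw [mem_wS]
  simp only [Finset.mem_filter, Finset.mem_univ, true_and, h3]

/-- Power sums of the blocks of a refined labelling. -/
theorem Orb_le {J : Type} (g : Fin Q.nB → J) (g' : Fin Q.nT → J) (A : Subalgebra ℂ Q.Pol)
    (h1 : ∀ a, (X (Sum.inr a) : Q.Pol) ∈ A)
    (h2 : ∀ c : J, ∃ F : Pc Q, (∀ k, some k ∈ F ↔ g k = c) ∧ ∀ j a, pS Q F j a ∈ A) :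
    Rinv (fun x : Q.Var => (Q.lab x, Sum.elim g g' x)) ≤ A := by
  rw [Rinv_eq_adjoin]
  refine Algebra.adjoin_le ?_
  rintro _ ⟨⟨j, c⟩, a, rfl⟩
  rcases j with j | b
  · obtain ⟨F, hF, hA⟩ := h2 c
    have : psl (fun x : Q.Var => (Q.lab x, Sum.elim g g' x)) (Sum.inl j, c) a = pS Q F j a := by
      unfold psl pS
      symm
      refine Finset.sum_bij (fun k _ => (Sum.inl k : Q.Var)) (fun k hk => ?_)
        (fun _ _ _ _ h => Sum.inl_injective h) (fun x hx => ?_) (fun _ _ => rfl)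
      · simp only [Finset.mem_filter, Finset.mem_univ, true_and, hF] at hk ⊢
        simp [Qv.lab, hk.1, hk.2]
      · simp only [Finset.mem_filter, Finset.mem_univ, true_and, hF] at hx ⊢
        rcases x with k | b
        · simp only [Qv.lab, Sum.map_inl, Sum.elim_inl, Prod.mk.injEq, Sum.inl.injEq] at hx
          exact ⟨k, ⟨hx.2, hx.1⟩, rfl⟩
        · simp [Qv.lab] at hx
    rw [SetLike.mem_coe, this]
    exact hA j a
  · unfold psl
    refine A.sum_mem fun x hx => ?_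
    simp only [Finset.mem_filter, Finset.mem_univ, true_and] at hx
    rcases x with k | b'
    · simp [Qv.lab] at hx
    · exact A.pow_mem (h1 b') a

/-- `Rinv_eq_adjoin`: the power sums of the blocks generate. -/
theorem RL_le (l : Q.Lam) (A : Subalgebra ℂ Q.Pol) (h1 : ∀ a, (X (Sum.inr a) : Q.Pol) ∈ A)
    (h2 : ∀ (c : ℤ) j a, pS Q (Finset.univ.filter fun x => Q.lv l x = c) j a ∈ A) :
    RL Q l ≤ A :=
  Orb_le l 0 A h1 fun c => ⟨_, fun k => by simp [Qv.lv], h2 c⟩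
theorem Rinv_labr_le (ρ : Bt Q → ℕ) (A : Subalgebra ℂ Q.Pol)
    (h1 : ∀ a, (X (Sum.inr a) : Q.Pol) ∈ A) (h2 : ∀ i j a, pS Q (Jr Q ρ i) j a ∈ A) :
    Rinv (Q.labr ρ) ≤ A :=
  Orb_le (fun k => ρ (some k)) 0 A h1 fun c => ⟨_, fun k => by simp [Jr], h2 c⟩
theorem RL_Jr_le (ρ : Bt Q → ℕ) (i : ℕ) : RL Q (mu Q (Jr Q ρ i)) ≤ Rinv (Q.labr ρ) := by
  intro p hp
  refine mem_Rinv.2 fun w hw => mem_Rinv.1 hp w ?_
  obtain ⟨h1, h2⟩ := mem_Wl_labr.1 hw
  refine mem_Wl_mu.2 ⟨h1, ?_⟩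
  rw [wS_Jr]
  congr 1
  funext x
  rw [← h2 (wb Q w⁻¹ x), wb_wb_inv h1]

theorem phi_mu (F : Pc Q) :
    Q.phi (mu Q F) = ∏ p ∈ Q.WI.filter (fun p => p.2.1 ∉ F ∧ p.2.2 ∈ F), Q.wtP p := by
  unfold Qv.phi
  rw [Finset.prod_filter]
  refine Finset.prod_congr rfl fun p _ => ?_
  unfold Qv.prP
  rw [lv_mu, lv_mu]
  by_cases h1 : p.2.1 ∈ F <;> by_cases h2 : p.2.2 ∈ F <;> simp [h1, h2]
theorem eul_mu (F : Pc Q) :
    Q.eul (mu Q F) = ∏ p ∈ Finset.univ.filter (fun p : Fin Q.nB × Fin Q.nB =>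
      Q.vt p.1 = Q.vt p.2 ∧ some p.1 ∈ F ∧ some p.2 ∉ F),
      (X (Sum.inl p.1) - X (Sum.inl p.2) : Q.Pol) := by
  unfold Qv.eul
  rw [← Finset.filter_filter, Finset.prod_filter (s := Finset.filter _ _)]
  refine Finset.prod_congr rfl fun p _ => ?_
  unfold mu
  by_cases h0 : none ∈ F <;> by_cases h1 : some p.1 ∈ F <;> by_cases h2 : some p.2 ∈ F <;>
    simp [h0, h1, h2]

/-! ### Products over pairs, up to sign -/

/-- Equality up to sign. -/
def Orb_PM {R : Type} [CommRing R] (a b : R) : Prop := a = b ∨ a = -b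

theorem Orb_PM_refl {R : Type} [CommRing R] (a : R) : Orb_PM a a := Or.inl rfl

theorem Orb_PM_mul {R : Type} [CommRing R] {a b c d : R} (h : Orb_PM a b) (h' : Orb_PM c d) :
    Orb_PM (a * c) (b * d) := by
  rcases h with rfl | rfl <;> rcases h' with rfl | rfl
  · exact Or.inl rfl
  · exact Or.inr (by ring)
  · exact Or.inr (by ring)
  · exact Or.inl (by ring)

theorem Orb_PM_prod {R I : Type} [CommRing R] (s : Finset I) (f g : I → R)
    (h : ∀ i ∈ s, Orb_PM (f i) (g i)) : Orb_PM (∏ i ∈ s, f i) (∏ i ∈ s, g i) := by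
  classical
  induction s using Finset.induction_on with
  | empty => exact Orb_PM_refl _
  | insert a s ha ih =>
    rw [Finset.prod_insert ha, Finset.prod_insert ha]
    exact Orb_PM_mul (h a (Finset.mem_insert_self _ _))
      (ih fun i hi => h i (Finset.mem_insert_of_mem hi))

theorem Orb_PM_sq {R : Type} [CommRing R] {a b : R} (h : Orb_PM a b) : a ^ 2 = b ^ 2 := by
  rcases h with rfl | rfl
  · rfl
  · ring

theorem Orb_PM_smul {V : Type} {a b : MvPolynomial V ℂ} (h : Orb_PM a b) :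
    ∃ s : ℂ, s * s = 1 ∧ a = s • b := by
  rcases h with rfl | rfl
  · exact ⟨1, by simp, by simp⟩
  · exact ⟨-1, by simp, by simp⟩

/-- Two orientations of one symmetric relation. -/
theorem Orb_ori {V : Type} (S T : Finset (V × V))
    (h : ∀ p : V × V, (p ∈ S ∨ p.swap ∈ S) ↔ (p ∈ T ∨ p.swap ∈ T))
    (hS : ∀ p ∈ S, p.swap ∉ S) (hT : ∀ p ∈ T, p.swap ∉ T) :
    Orb_PM (∏ p ∈ S, (X p.1 - X p.2 : MvPolynomial V ℂ)) (∏ p ∈ T, (X p.1 - X p.2)) := by
  classical
  have e : ∏ p ∈ S, (X (if p ∈ T then p else p.swap).1 - X (if p ∈ T then p else p.swap).2 :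
      MvPolynomial V ℂ) = ∏ p ∈ T, (X p.1 - X p.2) := by
    refine Finset.prod_nbij' (fun p => if p ∈ T then p else p.swap)
      (fun p => if p ∈ S then p else p.swap) (fun p hp => ?_) (fun p hp => ?_) (fun p hp => ?_)
      (fun p hp => ?_) (fun _ _ => rfl)
    · by_cases hp' : p ∈ T
      · simp only [if_pos hp']
        exact hp'
      · simp only [if_neg hp']
        exact ((h p).1 (Or.inl hp)).resolve_left hp'
    · by_cases hp' : p ∈ S
      · simp only [if_pos hp']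
        exact hp'
      · simp only [if_neg hp']
        exact ((h p).2 (Or.inl hp)).resolve_left hp'
    · by_cases hp' : p ∈ T
      · simp only [if_pos hp', if_pos hp]
      · simp only [if_neg hp', if_neg (hS p hp), Prod.swap_swap]
    · by_cases hp' : p ∈ S
      · simp only [if_pos hp', if_pos hp]
      · simp only [if_neg hp', if_neg (hT p hp), Prod.swap_swap]
  rw [← e]
  refine Orb_PM_prod _ _ _ fun p _ => ?_
  by_cases hp' : p ∈ T
  · rw [if_pos hp']
    exact Orb_PM_refl _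
  · rw [if_neg hp']
    exact Or.inr (by simp)

theorem Orb_Dl {V Λ : Type} [Fintype V] [DecidableEq V] (lab : V → Λ) (S : Finset (V × V))
    (h : ∀ p, p ∈ S ↔ lab p.1 = lab p.2 ∧ ordV p.1 < ordV p.2) :
    Dl lab = ∏ p ∈ S, (X p.1 - X p.2) := by
  unfold Dl
  refine Finset.prod_congr ?_ fun _ _ => rfl
  ext p
  simp only [Finset.mem_filter, Finset.mem_univ, true_and, h]

/-- Splitting along a function with values in a linear order. -/
theorem Orb_split {V Λ J : Type} [Fintype V] [DecidableEq V] [LinearOrder J] (lab : V → Λ)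
    (L : V → J) (T : Finset (V × V)) (hT : ∀ p, p ∈ T ↔ lab p.1 = lab p.2 ∧ L p.2 < L p.1) :
    Orb_PM (Dl lab) (Dl (fun x => (lab x, L x)) * ∏ p ∈ T, (X p.1 - X p.2)) := by
  classical
  rw [Orb_Dl lab (Finset.univ.filter fun p => lab p.1 = lab p.2 ∧ ordV p.1 < ordV p.2)
      (fun p => by simp),
    Orb_Dl (fun x => (lab x, L x)) (Finset.univ.filter fun p =>
      (lab p.1 = lab p.2 ∧ L p.1 = L p.2) ∧ ordV p.1 < ordV p.2) (fun p => by simp),
    ← Finset.prod_union]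
  · refine Orb_ori _ _ (fun p => ?_) (fun p hp hp' => ?_) (fun p hp hp' => ?_)
    · simp only [Finset.mem_filter, Finset.mem_univ, true_and, Finset.mem_union, hT,
        Prod.fst_swap, Prod.snd_swap]
      constructor
      · rintro (⟨h1, h2⟩ | ⟨h1, h2⟩)
        · rcases lt_trichotomy (L p.1) (L p.2) with h3 | h3 | h3
          · exact Or.inr (Or.inr ⟨h1.symm, h3⟩)
          · exact Or.inl (Or.inl ⟨⟨h1, h3⟩, h2⟩)
          · exact Or.inl (Or.inr ⟨h1, h3⟩)
        · rcases lt_trichotomy (L p.1) (L p.2) with h3 | h3 | h3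
          · exact Or.inr (Or.inr ⟨h1, h3⟩)
          · exact Or.inr (Or.inl ⟨⟨h1, h3.symm⟩, h2⟩)
          · exact Or.inl (Or.inr ⟨h1.symm, h3⟩)
      · have tri : lab p.1 = lab p.2 → L p.1 ≠ L p.2 →
            (lab p.1 = lab p.2 ∧ ordV p.1 < ordV p.2 ∨
              lab p.2 = lab p.1 ∧ ordV p.2 < ordV p.1) := by
          intro h1 h3
          rcases lt_trichotomy (ordV p.1) (ordV p.2) with h2 | h2 | h2
          · exact Or.inl ⟨h1, h2⟩
          · exact absurd (congrArg L (ordV_injective h2)) h3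
          · exact Or.inr ⟨h1.symm, h2⟩
        rintro ((⟨⟨h1, _⟩, h2⟩ | ⟨h1, h3⟩) | (⟨⟨h1, _⟩, h2⟩ | ⟨h1, h3⟩))
        · exact Or.inl ⟨h1, h2⟩
        · exact tri h1 h3.ne'
        · exact Or.inr ⟨h1, h2⟩
        · exact tri h1.symm h3.ne
    · simp only [Finset.mem_filter, Finset.mem_univ, true_and, Prod.fst_swap,
        Prod.snd_swap] at hp hp'
      exact lt_asymm hp.2 hp'.2
    · simp only [Finset.mem_filter, Finset.mem_univ, true_and, Finset.mem_union, hT,
        Prod.fst_swap, Prod.snd_swap] at hp hp'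
      rcases hp with ⟨⟨_, h3⟩, h2⟩ | ⟨_, h3⟩ <;> rcases hp' with ⟨⟨_, h5⟩, h4⟩ | ⟨_, h5⟩
      · exact lt_asymm h2 h4
      · exact h5.ne h3
      · exact h3.ne h5
      · exact lt_asymm h3 h5
  · rw [Finset.disjoint_left]
    intro p hp hp'
    simp only [Finset.mem_filter, Finset.mem_univ, true_and, hT] at hp hp'
    exact hp'.2.ne' hp.1.2

/-- The embedding of pairs of basis vectors into pairs of variables. -/
def Orb_emb (Q : Qv) : Fin Q.nB × Fin Q.nB ↪ Q.Var × Q.Var :=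
  ⟨fun p => (Sum.inl p.1, Sum.inl p.2), fun p q h => by
    simp only [Prod.mk.injEq, Sum.inl.injEq] at h
    exact Prod.ext h.1 h.2⟩

theorem Orb_split_Q {J : Type} [LinearOrder J] (g : Fin Q.nB → J) (g' : Fin Q.nT → J)
    (T : Finset (Fin Q.nB × Fin Q.nB))
    (hT : ∀ p, p ∈ T ↔ Q.vt p.1 = Q.vt p.2 ∧ g p.2 < g p.1) :
    Orb_PM (Dl Q.lab) (Dl (fun x : Q.Var => (Q.lab x, Sum.elim g g' x)) *
      ∏ p ∈ T, (X (Sum.inl p.1) - X (Sum.inl p.2))) := by
  have := Orb_split Q.lab (Sum.elim g g') (T.map (Orb_emb Q)) (fun p => by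
    obtain ⟨a, b⟩ := p
    rw [Finset.mem_map]
    constructor
    · rintro ⟨q, hq, he⟩
      obtain ⟨rfl, rfl⟩ : Sum.inl q.1 = a ∧ Sum.inl q.2 = b := Prod.mk.inj he
      have := (hT q).1 hq
      simpa [Qv.lab] using this
    · rintro ⟨h1, h2⟩
      rcases a with a | a <;> rcases b with b | b
      · exact ⟨(a, b), (hT _).2 (by simpa [Qv.lab] using And.intro h1 h2), rfl⟩
      · simp [Qv.lab] at h1
      · simp [Qv.lab] at h1
      · simp only [Qv.lab, Sum.map_inr, id, Sum.inr.injEq] at h1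
        subst h1
        exact absurd h2 (lt_irrefl _))
  rw [Finset.prod_map] at this
  exact this

/-- Split the pairs of `Dl Q.lab` into those inside a block of `labl` and the others. -/
theorem Dl_eq_mu (F : Pc Q) : ∃ s : ℂ, s * s = 1 ∧
    Dl Q.lab = s • (Dl (labl Q (mu Q F)) * Q.eul (mu Q F)) := by
  rw [eul_mu]
  refine Orb_PM_smul (Orb_split_Q (mu Q F) 0 _ fun p => ?_)
  simp only [Finset.mem_filter, Finset.mem_univ, true_and, mu]
  by_cases h1 : some p.1 ∈ F <;> by_cases h2 : some p.2 ∈ F <;> simp [h1, h2]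
theorem prod_phi_Jr (ρ : Bt Q → ℕ) {N : ℕ} (hN : ∀ x, ρ x < N) :
    ∏ i ∈ Finset.range N, Q.phi (mu Q (Jr Q ρ i)) = Q.Arho ρ := by
  unfold Qv.Arho
  rw [← Finset.prod_fiberwise_of_maps_to (t := Finset.range N) (g := fun p : Q.Ps => ρ p.2.2)
    (fun p _ => Finset.mem_range.2 (hN _))]
  refine Finset.prod_congr rfl fun i _ => ?_
  rw [phi_mu, Finset.filter_filter]
  refine Finset.prod_congr (Finset.filter_congr fun p _ => ?_) fun _ _ => rfl
  simp only [Jr, Finset.mem_filter, Finset.mem_univ, true_and]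
  constructor
  · rintro ⟨h1, h2⟩
    exact ⟨fun e => h1 (e.trans h2), h2⟩
  · rintro ⟨h1, h2⟩
    exact ⟨fun e => h1 (e.trans h2.symm), h2⟩

theorem Orb_prod_eul_Jr (ρ : Bt Q → ℕ) {N : ℕ} (hN : ∀ x, ρ x < N) :
    ∏ i ∈ Finset.range N, Q.eul (mu Q (Jr Q ρ i)) =
      (∏ p ∈ Finset.univ.filter (fun p : Fin Q.nB × Fin Q.nB =>
        Q.vt p.1 = Q.vt p.2 ∧ ρ (some p.2) < ρ (some p.1)),
        (X (Sum.inl p.1) - X (Sum.inl p.2) : Q.Pol)) *
      ∏ p ∈ Finset.univ.filter (fun p : Fin Q.nB × Fin Q.nB =>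
        Q.vt p.1 = Q.vt p.2 ∧ ρ (some p.1) < ρ (some p.2)),
        (X (Sum.inl p.1) - X (Sum.inl p.2) : Q.Pol) := by
  rw [← Finset.prod_union]
  · rw [← Finset.prod_fiberwise_of_maps_to (t := Finset.range N)
      (g := fun p : Fin Q.nB × Fin Q.nB => ρ (some p.1))
      (fun p _ => Finset.mem_range.2 (hN _))]
    refine Finset.prod_congr rfl fun i _ => ?_
    rw [eul_mu]
    refine Finset.prod_congr ?_ fun _ _ => rfl
    ext p
    simp only [Jr, Finset.mem_filter, Finset.mem_univ, true_and, Finset.mem_union]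
    constructor
    · rintro ⟨h1, h2, h3⟩
      refine ⟨?_, h2⟩
      rcases lt_trichotomy (ρ (some p.1)) (ρ (some p.2)) with h | h | h
      · exact Or.inr ⟨h1, h⟩
      · exact absurd (h.symm.trans h2) h3
      · exact Or.inl ⟨h1, h⟩
    · rintro ⟨⟨h1, h⟩ | ⟨h1, h⟩, h2⟩
      · exact ⟨h1, h2, fun e => by omega⟩
      · exact ⟨h1, h2, fun e => by omega⟩
  · rw [Finset.disjoint_left]
    intro p hp hp'
    simp only [Finset.mem_filter, Finset.mem_univ, true_and] at hp hp'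
    exact lt_asymm hp.2 hp'.2

theorem Dl_sq_eq (ρ : Bt Q → ℕ) {N : ℕ} (hN : ∀ x, ρ x < N) : ∃ s : ℂ, s * s = 1 ∧
    Dl Q.lab ^ 2 =
      s • (Dl (Q.labr ρ) ^ 2 * ∏ i ∈ Finset.range N, Q.eul (mu Q (Jr Q ρ i))) := by
  have h1 := Orb_PM_sq (Orb_split_Q (fun k => ρ (some k)) 0
    (Finset.univ.filter fun p : Fin Q.nB × Fin Q.nB =>
      Q.vt p.1 = Q.vt p.2 ∧ ρ (some p.2) < ρ (some p.1)) (fun p => by simp))
  refine Orb_PM_smul ?_
  rw [h1, mul_pow, Orb_prod_eul_Jr ρ hN]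
  refine Orb_PM_mul (Orb_PM_refl _) ?_
  rw [sq]
  refine Orb_PM_mul (Orb_PM_refl _) ?_
  have e : ∏ p ∈ Finset.univ.filter (fun p : Fin Q.nB × Fin Q.nB =>
        Q.vt p.1 = Q.vt p.2 ∧ ρ (some p.1) < ρ (some p.2)),
        (X (Sum.inl p.1) - X (Sum.inl p.2) : Q.Pol) =
      ∏ p ∈ Finset.univ.filter (fun p : Fin Q.nB × Fin Q.nB =>
        Q.vt p.1 = Q.vt p.2 ∧ ρ (some p.2) < ρ (some p.1)),
        (X (Sum.inl p.2) - X (Sum.inl p.1) : Q.Pol) := by
    refine Finset.prod_equiv (Equiv.prodComm _ _) (fun p => ?_) (fun _ _ => rfl)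
    simp only [Finset.mem_filter, Finset.mem_univ, true_and, Equiv.prodComm_apply, Prod.fst_swap,
      Prod.snd_swap]
    exact and_congr_left fun _ => eq_comm
  rw [e]
  exact Orb_PM_prod _ _ _ fun p _ => Or.inr (by ring)

theorem Orb_rename_Dl {V Λ : Type} [Fintype V] [DecidableEq V] (lab : V → Λ) (w : Equiv.Perm V) :
    Orb_PM (rename w (Dl lab)) (Dl fun x => lab (w⁻¹ x)) := by
  classical
  have e : rename w (Dl lab) = ∏ p ∈ Finset.univ.filter (fun p : V × V =>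
      lab (w⁻¹ p.1) = lab (w⁻¹ p.2) ∧ ordV (w⁻¹ p.1) < ordV (w⁻¹ p.2)), (X p.1 - X p.2) := by
    rw [Orb_Dl lab (Finset.univ.filter fun p => lab p.1 = lab p.2 ∧ ordV p.1 < ordV p.2)
      (fun p => by simp), map_prod]
    refine Finset.prod_equiv (Equiv.prodCongr w w) (fun p => ?_) (fun p _ => ?_)
    · simp
    · simp
  rw [e, Orb_Dl (fun x => lab (w⁻¹ x)) (Finset.univ.filter fun p =>
    lab (w⁻¹ p.1) = lab (w⁻¹ p.2) ∧ ordV p.1 < ordV p.2) (fun p => by simp)]
  refine Orb_ori _ _ (fun p => ?_) (fun p hp hp' => ?_) (fun p hp hp' => ?_)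
  · simp only [Finset.mem_filter, Finset.mem_univ, true_and, Prod.fst_swap, Prod.snd_swap]
    have hne : ∀ a b : V, ordV a < ordV b ∨ ordV b < ordV a ↔ a ≠ b := fun a b => by
      rw [← ne_iff_lt_or_gt]
      exact ordV_injective.ne_iff
    have h1 := hne p.1 p.2
    have h2 := hne (w⁻¹ p.1) (w⁻¹ p.2)
    rw [(Equiv.injective w⁻¹).ne_iff, ← h1] at h2
    rw [eq_comm (a := lab (w⁻¹ p.2)), ← and_or_left, ← and_or_left, h2]
  · simp only [Finset.mem_filter, Finset.mem_univ, true_and, Prod.fst_swap,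
      Prod.snd_swap] at hp hp'
    exact lt_asymm hp.2 hp'.2
  · simp only [Finset.mem_filter, Finset.mem_univ, true_and, Prod.fst_swap,
      Prod.snd_swap] at hp hp'
    exact lt_asymm hp.2 hp'.2

theorem rename_Dl_labr {w : Equiv.Perm Q.Var} (hw : w ∈ Wl Q.lab) (ρ : Bt Q → ℕ) :
    ∃ s : ℂ, s * s = 1 ∧
      rename w (Dl (Q.labr ρ)) = s • Dl (Q.labr fun x => ρ (wb Q w⁻¹ x)) := by
  have e : (Q.labr fun x => ρ (wb Q w⁻¹ x)) = fun x => Q.labr ρ (w⁻¹ x) := by
    funext x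
    have hw' := inv_mem_Wl hw
    unfold Qv.labr
    rw [mem_Wl.1 hw' x]
    rcases x with k | a
    · obtain ⟨k', hk, _⟩ := W_inl hw' k
      rw [hk, Sum.elim_inl, Sum.elim_inl]
      simp only [wb_some hk]
    · rw [W_inr hw' a]
      rfl
  rw [e]
  exact Orb_PM_smul (Orb_rename_Dl _ w)

end Pool.Agent.HK.AC
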