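import Pool.Agent.P.MP_1206ce_ag.AC.Defs

/-! Partially defined extensions of ring maps to fraction fields. -/

noncomputable section

open MvPolynomial

namespace Pool.Agent.HK.AC

section R

variable {σ' σ : Type} {ψ : MvPolynomial σ' ℂ →ₐ[ℂ] MvPolynomial σ ℂ}

theorem Rel_inj (σ : Type) :
    Function.Injective (algebraMap (MvPolynomial σ ℂ) (FractionRing (MvPolynomial σ ℂ))) :=
  IsFractionRing.injective _ _

theorem Rel_ne {σ : Type} {d : MvPolynomial σ ℂ} (h : d ≠ 0) :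
    algebraMap (MvPolynomial σ ℂ) (FractionRing (MvPolynomial σ ℂ)) d ≠ 0 :=
  (map_ne_zero_iff _ (Rel_inj σ)).2 h

theorem Rel_unique {c' : FractionRing (MvPolynomial σ' ℂ)} {c d : FractionRing (MvPolynomial σ ℂ)}
    (h : Rel ψ c' c) (h' : Rel ψ c' d) : c = d := by
  obtain ⟨a, e, h1, h2, h3⟩ := h
  obtain ⟨a', e', h1', h2', h3'⟩ := h'
  have h4 : a * e' = a' * e := Rel_inj σ' (by
    rw [map_mul, map_mul, ← h2, ← h2']
    ring)
  have h5 := congrArg (fun p => algebraMap _ (FractionRing (MvPolynomial σ ℂ)) (ψ p)) h4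
  simp only [map_mul] at h5
  rw [← h3, ← h3'] at h5
  refine mul_right_cancel₀ (mul_ne_zero (Rel_ne h1) (Rel_ne h1')) ?_
  linear_combination h5
theorem Rel_alg' (a : MvPolynomial σ' ℂ) :
    Rel ψ (algebraMap _ (FractionRing (MvPolynomial σ' ℂ)) a)
      (algebraMap _ (FractionRing (MvPolynomial σ ℂ)) (ψ a)) :=
  ⟨a, 1, by simp, by simp, by simp⟩

theorem Rel_mul {x' y' : FractionRing (MvPolynomial σ' ℂ)} {x y : FractionRing (MvPolynomial σ ℂ)}
    (hx : Rel ψ x' x) (hy : Rel ψ y' y) : Rel ψ (x' * y') (x * y) := by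
  obtain ⟨a, e, h1, h2, h3⟩ := hx
  obtain ⟨a', e', h1', h2', h3'⟩ := hy
  refine ⟨a * a', e * e', by rw [map_mul]; exact mul_ne_zero h1 h1', ?_, ?_⟩
  · rw [map_mul, map_mul, ← h2, ← h2']
    ring
  · simp only [map_mul]
    rw [← h3, ← h3']
    ring

theorem Rel_smul_eq {σ : Type} (a : ℂ) (x : FractionRing (MvPolynomial σ ℂ)) :
    a • x = algebraMap (MvPolynomial σ ℂ) _ (algebraMap ℂ _ a) * x := by
  rw [← IsScalarTower.algebraMap_apply, Algebra.smul_def]

theorem Rel_cl : RCl (Rel ψ) := by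
  refine ⟨by simpa using Rel_alg' (ψ := ψ) 0, by simpa using Rel_alg' (ψ := ψ) 1, ?_,
    fun a _ _ h => ?_, Rel_mul⟩
  · rintro x' y' x y ⟨a, e, h1, h2, h3⟩ ⟨a', e', h1', h2', h3'⟩
    refine ⟨a * e' + a' * e, e * e', by rw [map_mul]; exact mul_ne_zero h1 h1', ?_, ?_⟩
    · simp only [map_mul, map_add]
      rw [← h2, ← h2']
      ring
    · simp only [map_mul, map_add]
      rw [← h3, ← h3']
      ring
  · rw [Rel_smul_eq, Rel_smul_eq, ← ψ.commutes]
    exact Rel_mul (Rel_alg' _) h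
theorem Rel_alg (a : MvPolynomial σ' ℂ) :
    Rel ψ (algebraMap _ (FractionRing (MvPolynomial σ' ℂ)) a)
      (algebraMap _ (FractionRing (MvPolynomial σ ℂ)) (ψ a)) :=
  Rel_alg' a
theorem Rel_div (a : MvPolynomial σ' ℂ) {d : MvPolynomial σ' ℂ} (hd : ψ d ≠ 0) :
    Rel ψ (algebraMap _ (FractionRing (MvPolynomial σ' ℂ)) a /
        algebraMap _ (FractionRing (MvPolynomial σ' ℂ)) d)
      (algebraMap _ (FractionRing (MvPolynomial σ ℂ)) (ψ a) /
        algebraMap _ (FractionRing (MvPolynomial σ ℂ)) (ψ d)) :=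
  ⟨a, d, hd, div_mul_cancel₀ _ (Rel_ne fun h => hd (by rw [h, map_zero])),
    div_mul_cancel₀ _ (Rel_ne hd)⟩

variable {Λ : Type} [AddCommGroup Λ]

theorem RelA_unique {z' : AddMonoidAlgebra (FractionRing (MvPolynomial σ' ℂ)) Λ}
    {x y : AddMonoidAlgebra (FractionRing (MvPolynomial σ ℂ)) Λ} (h : RelA ψ z' x)
    (h' : RelA ψ z' y) : x = y :=
  AddMonoidAlgebra.ext (Finsupp.ext fun l => Rel_unique (h l) (h' l))
theorem RelA_single (l : Λ) {c' : FractionRing (MvPolynomial σ' ℂ)}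
    {c : FractionRing (MvPolynomial σ ℂ)} (h : Rel ψ c' c) :
    RelA ψ (AddMonoidAlgebra.single l c') (AddMonoidAlgebra.single l c) := by
  classical
  intro m
  simp only [AddMonoidAlgebra.coeff_single, Finsupp.single_apply]
  split_ifs
  · exact h
  · exact Rel_cl.zero
/-- For the product write both coefficients as sums over the union of the supports. -/
theorem RelA_cl : RCl (RelA (Λ := Λ) ψ) := by
  classical
  refine ⟨fun _ => Rel_cl.zero, RelA_single 0 Rel_cl.one, fun hx hy l => Rel_cl.add (hx l) (hy l),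
    fun a _ _ h l => Rel_cl.smul a (h l), fun {x' y' x y} hx hy l => ?_⟩
  rw [AddMonoidAlgebra.coeff_mul_apply_left, AddMonoidAlgebra.coeff_mul_apply_left,
    Finsupp.sum_of_support_subset _ (Finset.subset_union_left (s₂ := x.coeff.support)) _
      fun _ _ => zero_mul _,
    Finsupp.sum_of_support_subset _ (Finset.subset_union_right (s₁ := x'.coeff.support)) _
      fun _ _ => zero_mul _]
  induction x'.coeff.support ∪ x.coeff.support using Finset.induction_on with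
  | empty => exact Rel_cl.zero
  | insert a s ha ih =>
    rw [Finset.sum_insert ha, Finset.sum_insert ha]
    exact Rel_cl.add (Rel_mul (hx _) (hy _)) ih

end R

section T

variable {A' A : Type} [CommRing A'] [Algebra ℂ A'] [CommRing A] [Algebra ℂ A] {r : A' → A → Prop}

theorem RCl.flip (h : RCl r) : RCl (fun x x' => r x' x) :=
  ⟨h.zero, h.one, h.add, fun a _ _ => h.smul a, h.mul⟩
theorem RCl.sub (h : RCl r) {x' y' : A'} {x y : A} (hx : r x' x) (hy : r y' y) :
    r (x' - y') (x - y) := by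
  have h1 := h.add hx (h.smul (-1) hy)
  rwa [neg_one_smul, neg_one_smul, ← sub_eq_add_neg, ← sub_eq_add_neg] at h1
theorem RCl.sum (h : RCl r) {ι : Type} (s : Finset ι) {x' : ι → A'} {x : ι → A}
    (hx : ∀ i ∈ s, r (x' i) (x i)) : r (∑ i ∈ s, x' i) (∑ i ∈ s, x i) := by
  classical
  induction s using Finset.induction_on with
  | empty => exact h.zero
  | insert a s ha ih =>
    rw [Finset.sum_insert ha, Finset.sum_insert ha]
    exact h.add (hx a (Finset.mem_insert_self a s))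
      (ih fun i hi => hx i (Finset.mem_insert_of_mem hi))
/-- The elements with a partner in `M`. -/
def Rel_sub (h : RCl r) (M : Submodule ℂ A) : Submodule ℂ A' where
  carrier := {x' | ∃ x ∈ M, r x' x}
  zero_mem' := ⟨0, M.zero_mem, h.zero⟩
  add_mem' := fun ⟨x, hx, h1⟩ ⟨y, hy, h2⟩ => ⟨x + y, M.add_mem hx hy, h.add h1 h2⟩
  smul_mem' := fun a _ ⟨x, hx, h1⟩ => ⟨a • x, M.smul_mem a hx, h.smul a h1⟩

theorem Tr_span (h : RCl r) {s : Set A'} {M : Submodule ℂ A} (hs : ∀ x' ∈ s, ∃ x ∈ M, r x' x) :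
    Tr r (Submodule.span ℂ s) M :=
  (Submodule.span_le (p := Rel_sub h M)).2 hs
theorem Tr_mul (h : RCl r) {M' N' : Submodule ℂ A'} {M N : Submodule ℂ A} (hM : Tr r M' M)
    (hN : Tr r N' N) : Tr r (M' * N') (M * N) :=
  (Submodule.mul_le (P := Rel_sub h (M * N))).2 fun x' hx y' hy => by
    obtain ⟨x, h1, h2⟩ := hM x' hx
    obtain ⟨y, h3, h4⟩ := hN y' hy
    exact ⟨x * y, Submodule.mul_mem_mul h1 h3, h.mul h2 h4⟩
theorem Tr_one (h : RCl r) : Tr r (1 : Submodule ℂ A') (1 : Submodule ℂ A) := by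
  rw [Submodule.one_eq_span, Submodule.one_eq_span]
  refine Tr_span h ?_
  rintro _ rfl
  exact ⟨1, Submodule.mem_span_singleton_self 1, h.one⟩
theorem Tr_prod (h : RCl r) {ι : Type} {M' : ι → Submodule ℂ A'} {M : ι → Submodule ℂ A}
    (hM : ∀ i, Tr r (M' i) (M i)) (L : List ι) : Tr r (L.map M').prod (L.map M).prod := by
  induction L with
  | nil => exact Tr_one h
  | cons a L ih =>
    rw [List.map_cons, List.map_cons, List.prod_cons, List.prod_cons]
    exact Tr_mul h (hM a) ih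
theorem Tr_iSup (h : RCl r) {ι : Type} {M' : ι → Submodule ℂ A'} {M : ι → Submodule ℂ A}
    (hM : ∀ i, Tr r (M' i) (M i)) : Tr r (⨆ i, M' i) (⨆ i, M i) :=
  iSup_le (a := Rel_sub h (⨆ i, M i)) fun i x' hx => by
    obtain ⟨x, h1, h2⟩ := hM i x' hx
    exact ⟨x, Submodule.mem_iSup_of_mem i h1, h2⟩
theorem Tr_biSup (h : RCl r) {ι : Type} (p : ι → Prop) {M' : ι → Submodule ℂ A'}
    {M : ι → Submodule ℂ A} (hM : ∀ i, Tr r (M' i) (M i)) :
    Tr r (⨆ i, ⨆ (_ : p i), M' i) (⨆ i, ⨆ (_ : p i), M i) :=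
  iSup₂_le (a := Rel_sub h (⨆ i, ⨆ (_ : p i), M i)) fun i hi x' hx => by
    obtain ⟨x, h1, h2⟩ := hM i x' hx
    exact ⟨x, Submodule.mem_iSup_of_mem i (Submodule.mem_iSup_of_mem hi h1), h2⟩

end T

end Pool.Agent.HK.AC
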