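import Pool.Agent.P.MP_1206ce_ag.AC.Rel
import Pool.Agent.P.MP_1206ce_ag.AC.Mono

/-! Specialisation of the extra flavour variable: transfer of monopole operators. -/

noncomputable section

open MvPolynomial

namespace Pool.Agent.HK.AC

variable {Q : Qv}

theorem Spec_inl (k : Fin Q.nB) : Q.spec (X (Sum.inl k)) = X (Sum.inl k) := by
  rw [Qv.spec, aeval_X]
  rfl

theorem Spec_succ (a : Fin Q.nT) :
    Q.spec (X (Sum.inr (a.succ : Fin (Q.nT + 1)))) = X (Sum.inr a) := by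
  rw [Qv.spec, aeval_X]
  rfl

theorem Spec_zero : Q.spec (X (Sum.inr (0 : Fin (Q.nT + 1)))) = 0 := by
  rw [Qv.spec, aeval_X]
  rfl

theorem Spec_xv (k : Option (Fin Q.nB)) : Q.spec (Q.bdef.xv k) = Q.xv k := by
  cases k with
  | none => exact map_zero _
  | some k => exact Spec_inl k

theorem Spec_bw (h : Fin Q.nA) : Q.spec (Q.bdef.bw h) = Q.bw h := by
  have e : Q.bdef.bw h = C ((1 : ℤ) : ℂ) * X (Sum.inr (0 : Fin (Q.nT + 1))) +
      ∑ a : Fin Q.nT, C (Q.wt h a : ℂ) * X (Sum.inr (a.succ : Fin (Q.nT + 1))) :=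
    Fin.sum_univ_succ _
  rw [e, map_add, map_mul, Spec_zero, mul_zero, zero_add, map_sum, Qv.bw]
  refine Finset.sum_congr rfl fun a _ => ?_
  rw [map_mul, Spec_succ, algHom_C]
  rfl

theorem Spec_wtP (p : Q.Ps) : Q.spec (Q.bdef.wtP p) = Q.wtP p := by
  rw [Qv.wtP, Qv.wtP, map_add, map_sub, Spec_xv, Spec_xv, Spec_bw]

theorem spec_rename (u : Equiv.Perm (Fin Q.nB)) (p : Q.bdef.Pol) :
    Q.spec (rename (Equiv.sumCongr u (Equiv.refl _)) p) =
      rename (Equiv.sumCongr u (Equiv.refl _)) (Q.spec p) := by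
  have e : Q.spec.comp (rename (Equiv.sumCongr u (Equiv.refl (Fin (Q.nT + 1))))) =
      (rename (Equiv.sumCongr u (Equiv.refl (Fin Q.nT)))).comp Q.spec := by
    refine algHom_ext fun x => ?_
    rw [AlgHom.comp_apply, AlgHom.comp_apply, rename_X]
    cases x with
    | inl k =>
      rw [Spec_inl, rename_X]
      exact Spec_inl (u k)
    | inr a =>
      refine Fin.cases ?_ (fun a => ?_) a
      · rw [Spec_zero, map_zero]
        exact Spec_zero
      · rw [Spec_succ, rename_X]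
        exact Spec_succ a
  exact AlgHom.congr_fun e p

theorem spec_phi (l : Q.Lam) : Q.spec (Q.bdef.phi l) = Q.phi l := by
  rw [Qv.phi, Qv.phi, map_prod]
  refine Finset.prod_congr rfl fun p _ => ?_
  rw [map_pow, Spec_wtP]
  rfl

theorem spec_eul (l : Q.Lam) : Q.spec (Q.bdef.eul l) = Q.eul l := by
  rw [Qv.eul, Qv.eul, map_prod]
  refine Finset.prod_congr rfl fun p _ => ?_
  rw [map_pow, map_sub, Spec_inl, Spec_inl]

theorem spec_b : Q.spec (X (Sum.inr (0 : Fin (Q.nT + 1)))) = 0 := Spec_zero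

theorem spec_lift (p : Q.Pol) : Q.spec (rename (Sum.map id Fin.succ) p) = p := by
  have e : Q.spec.comp (rename (Sum.map id Fin.succ : Q.Var → Q.bdef.Var)) = AlgHom.id ℂ _ := by
    refine algHom_ext fun x => ?_
    rw [AlgHom.comp_apply, rename_X]
    cases x with
    | inl k => exact Spec_inl k
    | inr a => exact Spec_succ a
  exact AlgHom.congr_fun e p

theorem spec_mem_Rinv {h : Q.bdef.Pol} (hh : h ∈ Rinv Q.bdef.lab) : Q.spec h ∈ Rinv Q.lab := by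
  refine mem_Rinv.2 fun w hw => ?_
  obtain ⟨u, hu, rfl⟩ := exists_sumCongr hw
  rw [← spec_rename, mem_Rinv.1 hh _ ((mem_Wl_sumCongr (Q := Q.bdef)).2 hu)]

theorem exists_lift_Rinv {h : Q.Pol} (hh : h ∈ Rinv Q.lab) :
    ∃ h' ∈ Rinv Q.bdef.lab, Q.spec h' = h := by
  refine ⟨rename (Sum.map id Fin.succ) h, mem_Rinv.2 fun w hw => ?_, spec_lift h⟩
  obtain ⟨u, hu, rfl⟩ := exists_sumCongr hw
  have hc : (Equiv.sumCongr u (Equiv.refl _) : Equiv.Perm Q.bdef.Var) ∘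
      (Sum.map id Fin.succ : Q.Var → Q.bdef.Var) =
      (Sum.map id Fin.succ : Q.Var → Q.bdef.Var) ∘
        (Equiv.sumCongr u (Equiv.refl _) : Equiv.Perm Q.Var) := by
    funext x
    cases x <;> rfl
  rw [rename_rename, hc, ← rename_rename, mem_Rinv.1 hh _ (mem_Wl_sumCongr.2 hu)]

theorem dvd_of_spec_eq_zero {g : Q.bdef.Pol} (h : Q.spec g = 0) :
    (X (Sum.inr (0 : Fin (Q.nT + 1))) : Q.bdef.Pol) ∣ g := by
  let J : Ideal Q.bdef.Pol := Ideal.span {X (Sum.inr (0 : Fin (Q.nT + 1)))}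
  have e : ((Ideal.Quotient.mkₐ ℂ J).comp
      (rename (Sum.map id Fin.succ : Q.Var → Q.bdef.Var))).comp Q.spec =
      Ideal.Quotient.mkₐ ℂ J := by
    refine algHom_ext fun x => ?_
    rw [AlgHom.comp_apply, AlgHom.comp_apply]
    cases x with
    | inl k =>
      rw [Spec_inl, rename_X]
      rfl
    | inr a =>
      refine Fin.cases ?_ (fun a => ?_) a
      · rw [Spec_zero, map_zero, map_zero]
        exact (Ideal.Quotient.eq_zero_iff_mem.2 (Ideal.mem_span_singleton_self _)).symm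
      · rw [Spec_succ, rename_X]
        rfl
  have h2 := AlgHom.congr_fun e g
  rw [AlgHom.comp_apply, h, map_zero] at h2
  exact Ideal.mem_span_singleton.1 (Ideal.Quotient.eq_zero_iff_mem.1 h2.symm)

theorem spec_iota (h : Q.bdef.Pol) : RelA Q.spec (Q.bdef.iota h) (Q.iota (Q.spec h)) := by
  rw [iota_eq, iota_eq]
  exact RelA_single _ (Rel_alg h)

/-- `sum_Wl_eq` on both sides, then term by term (`Rel_div`). -/
theorem spec_M0 (F : Pc Q) (f : Q.bdef.Pol) :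
    RelA Q.spec (M0 Q.bdef F f) (M0 Q F (Q.spec f)) := by
  rw [M0, M0, sum_Wl_eq, sum_Wl_eq]
  refine RelA_cl.sum _ fun u _ => ?_
  have e : Q.bdef.wl (Equiv.sumCongr u (Equiv.refl _)) (mu Q.bdef F) =
      Q.wl (Equiv.sumCongr u (Equiv.refl _)) (mu Q F) := rfl
  rw [e]
  refine RelA_single _ ?_
  have e1 : Q.spec (rename (Equiv.sumCongr u (Equiv.refl _)) (f * Q.bdef.phi (mu Q.bdef F))) =
      rename (Equiv.sumCongr u (Equiv.refl _)) (Q.spec f * Q.phi (mu Q F)) := by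
    rw [spec_rename, map_mul, spec_phi]
    rfl
  have e2 : Q.spec (rename (Equiv.sumCongr u (Equiv.refl _)) (Q.bdef.eul (mu Q.bdef F))) =
      rename (Equiv.sumCongr u (Equiv.refl _)) (Q.eul (mu Q F)) := by
    rw [spec_rename, spec_eul]
    rfl
  rw [map_div₀, map_div₀, wF_al, wF_al, wF_al, wF_al, ← e1, ← e2]
  refine Rel_div _ ?_
  rw [e2]
  intro h0
  exact eul_ne_zero _ (rename_injective _ (Equiv.injective _) (h0.trans (map_zero _).symm))

theorem Spec_tr_Mo (F : Pc Q) : Tr (RelA Q.spec) (Mo Q.bdef F) (Mo Q F) := by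
  refine Tr_span RelA_cl ?_
  rintro _ ⟨f, rfl⟩
  exact ⟨_, M0_mem_Mo F _, spec_M0 F f⟩

theorem Spec_tr_Mo' (F : Pc Q) :
    Tr (fun x x' => RelA Q.spec x' x) (Mo Q F) (Mo Q.bdef F) := by
  refine Tr_span RelA_cl.flip ?_
  rintro _ ⟨f, rfl⟩
  refine ⟨_, M0_mem_Mo (Q := Q.bdef) F (rename (Sum.map id Fin.succ) f), ?_⟩
  have h := spec_M0 F (rename (Sum.map id Fin.succ) f)
  rw [spec_lift] at h
  exact h

theorem Spec_tr_Hs : Tr (RelA Q.spec) (Hs Q.bdef) (Hs Q) := by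
  intro z hz
  obtain ⟨h, hh, rfl⟩ := mem_Hs.1 hz
  exact ⟨_, iota_mem_Hs (spec_mem_Rinv hh), spec_iota h⟩

theorem Spec_tr_Hs' : Tr (fun x x' => RelA Q.spec x' x) (Hs Q) (Hs Q.bdef) := by
  intro z hz
  obtain ⟨h, hh, rfl⟩ := mem_Hs.1 hz
  obtain ⟨h', hh', rfl⟩ := exists_lift_Rinv hh
  exact ⟨_, iota_mem_Hs hh', spec_iota h'⟩

theorem tr_PL (L : List (Pc Q)) : Tr (RelA Q.spec) (PL Q.bdef L) (PL Q L) :=
  Tr_mul RelA_cl (Tr_prod RelA_cl Spec_tr_Mo L) Spec_tr_Hs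

theorem tr_PL' (L : List (Pc Q)) :
    Tr (fun x x' => RelA Q.spec x' x) (PL Q L) (PL Q.bdef L) :=
  Tr_mul RelA_cl.flip (Tr_prod RelA_cl.flip Spec_tr_Mo' L) Spec_tr_Hs'

theorem tr_II : Tr (RelA Q.spec) (II Q.bdef) (II Q) :=
  Tr_biSup RelA_cl (fun L => 0 < msL Q L) tr_PL

theorem tr_II' : Tr (fun x x' => RelA Q.spec x' x) (II Q) (II Q.bdef) :=
  Tr_biSup RelA_cl.flip (fun L => 0 < msL Q L) tr_PL'

theorem bdef_UF : UF Q.bdef := ⟨0, fun _ => rfl⟩

end Pool.Agent.HK.AC
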