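import Pool.Agent.P.MP_1206ce_ag.AC.Orb
import Pool.Agent.P.MP_1206ce_ag.AC.Nest

/-! Strings. -/

noncomputable section

open MvPolynomial

namespace Pool.Agent.HK.AC

variable {Q : Qv}

theorem Str_mem_Jr {ρ : Bt Q → ℕ} {i : ℕ} {x : Bt Q} : x ∈ Jr Q ρ i ↔ ρ x = i := by
  simp [Jr]

theorem Str_mem_up {l : Q.Lam} {i : ℤ} {x : Bt Q} : x ∈ up Q l i ↔ i ≤ Q.lv l x := by
  simp [up]

theorem Str_lv_ge {l : Q.Lam} (hl : l ∈ Ss Q) (x : Bt Q) : -1 ≤ Q.lv l x := by
  cases x with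
  | none => exact (by norm_num : (-1 : ℤ) ≤ 0)
  | some k => exact hl.1 k

theorem Str_sum_fib {l : Q.Lam} (hl : l ∈ Ss Q) (j : Option (Fin Q.nI)) :
    ∑ x : Bt Q, (if Q.vb x = j then Q.lv l x else 0) = 0 := by
  rw [Fintype.sum_option]
  have e0 : Q.lv l none = 0 := rfl
  rw [e0, ite_self, zero_add]
  cases j with
  | none => exact Finset.sum_eq_zero fun k _ => if_neg (by simp [Qv.vb])
  | some j =>
    have h := congrFun hl.2 j
    rw [chg, Finset.sum_filter] at h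
    refine Eq.trans (Finset.sum_congr rfl fun k _ => ?_) h
    have e : (Q.vb (some k) = some j) = (Q.vt k = j) := by simp [Qv.vb]
    simp only [e]
    rfl

theorem Str_sum_lv {l : Q.Lam} (hl : l ∈ Ss Q) : ∑ x : Bt Q, Q.lv l x = 0 := by
  have h := Finset.sum_eq_zero (s := Finset.univ) fun j _ => Str_sum_fib hl j
  rw [Finset.sum_comm] at h
  simpa using h

theorem Str_sigma_ext {A : Type} {n : A → ℕ} {p q : Σ y, Fin (n y)} (h1 : p.1 = q.1)
    (h2 : (p.2 : ℕ) = q.2) : p = q := by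
  obtain ⟨y, i⟩ := p
  obtain ⟨y', i'⟩ := q
  obtain rfl : y = y' := h1
  obtain rfl : i = i' := Fin.ext h2
  rfl

theorem Str_equiv {l : Q.Lam} (hl : l ∈ Ss Q) :
    ∃ e : {x : Bt Q // Q.lv l x < 0} ≃ Σ y : Bt Q, Fin (Q.lv l y).toNat,
      ∀ a, Q.vb (e a).1 = Q.vb a.1 := by
  refine exists_equiv_fib (fun a : {x : Bt Q // Q.lv l x < 0} => Q.vb a.1)
    (fun p : Σ y : Bt Q, Fin (Q.lv l y).toNat => Q.vb p.1) fun j => ?_
  rw [Finset.card_filter, Finset.card_filter, Fintype.sum_sigma,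
    ← Finset.sum_subtype (Finset.univ.filter fun x : Bt Q => Q.lv l x < 0) (by simp)
      fun x => if Q.vb x = j then 1 else 0, Finset.sum_filter]
  have h := Str_sum_fib hl j
  zify
  rw [← sub_eq_zero, ← Finset.sum_sub_distrib, ← neg_eq_zero, ← Finset.sum_neg_distrib]
  refine Eq.trans (Finset.sum_congr rfl fun x _ => ?_) h
  have h1 := Str_lv_ge hl x
  rw [Finset.sum_const, Finset.card_univ, Fintype.card_fin, nsmul_eq_mul]
  split_ifs <;> omega

theorem Str_fix {l : Q.Lam} {ρ : Bt Q → ℕ} {σ : Bt Q → Bt Q} (h : StrD Q l ρ σ) {i : ℕ}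
    {x : Bt Q} (hx : (i : ℤ) ≤ Q.lv l x) : σ x = x :=
  h.fix x ((h.zero_iff x).2 ((Int.natCast_nonneg i).trans hx))

/-- `exists_equiv_fib` between `{x // lv l x = -1}` and the pairs `(y, i)`, `1 ≤ i ≤ lv l y`,
fibred over the vertices; the fibres have the same size because the charge is zero. -/
theorem exists_strD {l : Q.Lam} (hl : l ∈ Ss Q) : ∃ ρ σ, StrD Q l ρ σ := by
  obtain ⟨e, he⟩ := Str_equiv hl
  refine ⟨fun x => if h : Q.lv l x < 0 then ((e ⟨x, h⟩).2 : ℕ) + 1 else 0,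
    fun x => if h : Q.lv l x < 0 then (e ⟨x, h⟩).1 else x, fun x => ?_, fun x => ?_,
    fun x => ?_, fun x => ?_, fun x y => ?_, fun y i hi => ?_⟩
  · by_cases h : Q.lv l x < 0
    · rw [dif_pos h, he]
    · rw [dif_neg h]
  · by_cases h : Q.lv l x < 0
    · rw [dif_pos h]
      omega
    · rw [dif_neg h]
      omega
  · by_cases h : Q.lv l x < 0
    · rw [dif_pos h]
      omega
    · rw [dif_neg h, dif_neg h]
      exact fun _ => rfl
  · by_cases h : Q.lv l x < 0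
    · rw [dif_pos h, dif_pos h]
      have := (e ⟨x, h⟩).2.2
      omega
    · rw [dif_neg h, dif_neg h]
      omega
  · by_cases h : Q.lv l x < 0 <;> by_cases h' : Q.lv l y < 0
    · rw [dif_pos h, dif_pos h, dif_pos h', dif_pos h']
      intro h1 h2
      exact congrArg Subtype.val (e.injective (Str_sigma_ext h2 (by omega)))
    · rw [dif_pos h, dif_neg h']
      omega
    · rw [dif_neg h, dif_pos h']
      omega
    · rw [dif_neg h, dif_neg h, dif_neg h', dif_neg h']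
      exact fun _ h2 => h2
  · cases i with
    | zero =>
      have h : ¬Q.lv l y < 0 := by omega
      exact ⟨y, dif_neg h, dif_neg h⟩
    | succ i =>
      obtain ⟨⟨x, h⟩, hx⟩ := e.surjective ⟨y, ⟨i, by omega⟩⟩
      refine ⟨x, ?_, ?_⟩
      · rw [dif_pos h, hx]
      · rw [dif_pos h, hx]

theorem exists_bound (ρ : Bt Q → ℕ) : ∃ N, ∀ x, ρ x < N :=
  ⟨Finset.univ.sup ρ + 1, fun x => Nat.lt_succ_of_le (Finset.le_sup (Finset.mem_univ x))⟩

theorem strD_none {l : Q.Lam} {ρ : Bt Q → ℕ} {σ : Bt Q → Bt Q} (h : StrD Q l ρ σ) :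
    ρ none = 0 ∧ σ none = none :=
  have h0 : ρ none = 0 := (h.zero_iff none).2 le_rfl
  ⟨h0, h.fix none h0⟩

theorem strD_dm {l : Q.Lam} {ρ : Bt Q → ℕ} {σ : Bt Q → Bt Q} (h : StrD Q l ρ σ) (i : ℕ) :
    dm Q (Jr Q ρ i) = dm Q (up Q l i) := by
  funext j
  refine Finset.card_bij (fun x _ => σ x) (fun x hx => ?_) (fun x hx y hy hxy => ?_)
    fun y hy => ?_
  · rw [Finset.mem_filter, Str_mem_Jr] at hx
    rw [Finset.mem_filter, Str_mem_up, h.vb_eq, ← hx.1]
    exact ⟨h.le x, hx.2⟩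
  · rw [Finset.mem_filter, Str_mem_Jr] at hx hy
    exact h.inj x y (hx.1.trans hy.1.symm) hxy
  · rw [Finset.mem_filter, Str_mem_up] at hy
    obtain ⟨x, h1, h2⟩ := h.surj y i hy.1
    refine ⟨x, ?_, h2⟩
    rw [Finset.mem_filter, Str_mem_Jr, ← h.vb_eq, h2]
    exact ⟨h1, hy.2⟩

theorem strD_sum {l : Q.Lam} (hl : l ∈ Ss Q) {ρ : Bt Q → ℕ} {σ : Bt Q → Bt Q}
    (h : StrD Q l ρ σ) : 2 * ∑ x, (ρ x : ℤ) = Q.nsq l := by
  have h1 : ∀ y, ∑ x ∈ Finset.univ.filter (fun x => σ x = y), ρ x =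
      ∑ i ∈ Finset.range (Q.lv l y + 1).toNat, i := by
    intro y
    refine Finset.sum_bij (fun x _ => ρ x) (fun x hx => ?_) (fun x hx z hz hxz => ?_)
      (fun i hi => ?_) fun _ _ => rfl
    · have h2 := h.le x
      rw [(Finset.mem_filter.1 hx).2] at h2
      rw [Finset.mem_range]
      omega
    · exact h.inj x z hxz ((Finset.mem_filter.1 hx).2.trans (Finset.mem_filter.1 hz).2.symm)
    · rw [Finset.mem_range] at hi
      obtain ⟨x, h2, h3⟩ := h.surj y i (by omega)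
      exact ⟨x, Finset.mem_filter.2 ⟨Finset.mem_univ x, h3⟩, h2⟩
  have h2 : ∀ y, 2 * ∑ x ∈ Finset.univ.filter (fun x => σ x = y), (ρ x : ℤ) =
      Q.lv l y ^ 2 + Q.lv l y := by
    intro y
    obtain ⟨n, hn⟩ : ∃ n : ℕ, Q.lv l y + 1 = n :=
      Int.eq_ofNat_of_zero_le (by have := Str_lv_ge hl y; omega)
    have h3 := Finset.sum_range_id_mul_two n
    rw [← Nat.cast_sum, h1, hn, Int.toNat_natCast, eq_sub_of_add_eq hn]
    cases n with
    | zero => simp
    | succ n =>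
      rw [Nat.add_sub_cancel] at h3
      zify at h3
      push_cast
      linarith
  rw [← Finset.sum_fiberwise Finset.univ σ, Finset.mul_sum, Finset.sum_congr rfl fun y _ => h2 y,
    Finset.sum_add_distrib, Str_sum_lv hl, add_zero, nsq_eq_sum_lv]

theorem desc_up (l : Q.Lam) (N : ℕ) : Desc Q (rl Q N fun i => up Q l i) :=
  desc_rl fun _ _ hij _ _ hx => Str_mem_up.2 ((Int.ofNat_le.2 hij.le).trans (Str_mem_up.1 hx))

theorem strD_sumL {l : Q.Lam} (hl : l ∈ Ss Q) {ρ : Bt Q → ℕ} {σ : Bt Q → Bt Q}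
    (h : StrD Q l ρ σ) {N : ℕ} (hN : ∀ x, ρ x < N) :
    sumL Q (rl Q N fun i => up Q l i) = l := by
  have h1 : ∀ x, (cnt Q (rl Q N fun i => up Q l i) x : ℤ) = Q.lv l x + 1 := by
    intro x
    have h2 := Str_lv_ge hl x
    have e : (Finset.range N).filter (fun i : ℕ => x ∈ up Q l i) =
        Finset.range (Q.lv l x + 1).toNat := by
      ext i
      rw [Finset.mem_filter, Finset.mem_range, Finset.mem_range, Str_mem_up]
      refine ⟨fun hi => by omega, fun hi => ?_⟩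
      obtain ⟨y, h3, -⟩ := h.surj x i (by omega)
      exact ⟨h3 ▸ hN y, by omega⟩
    rw [cnt_rl, e, Finset.card_range]
    omega
  refine lv_ext fun x => ?_
  have e0 : Q.lv l none = 0 := rfl
  rw [lv_sumL, h1, h1, e0]
  ring

/-- `exists_W_fib` for `x ↦ (σ x, x ∈ up l i)` and `x ↦ (σ x, x ∈ Jr ρ i)`. -/
theorem exists_tau {l : Q.Lam} {ρ : Bt Q → ℕ} {σ : Bt Q → Bt Q} (h : StrD Q l ρ σ) (i : ℕ) :
    ∃ τ ∈ Wl Q.lab, (∀ x, σ (wb Q τ x) = σ x) ∧ wS Q τ (up Q l i) = Jr Q ρ i := by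
  have key : ∀ j y, ((Finset.univ.filter fun x => Q.vb x = j ∧ σ x = y) ∩ Jr Q ρ i).card =
      ((Finset.univ.filter fun x => Q.vb x = j ∧ σ x = y) ∩ up Q l i).card := by
    intro j y
    refine Finset.card_bij (fun x _ => σ x) (fun x hx => ?_) (fun x hx z hz hxz => ?_)
      fun z hz => ?_
    · simp only [Finset.mem_inter, Finset.mem_filter, Finset.mem_univ, true_and, Str_mem_Jr,
        Str_mem_up] at hx ⊢
      have h1 := h.le x
      rw [hx.2] at h1
      rw [h.vb_eq, Str_fix h h1]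
      exact ⟨hx.1, h1⟩
    · simp only [Finset.mem_inter, Str_mem_Jr] at hx hz
      exact h.inj x z (hx.2.trans hz.2.symm) hxz
    · simp only [Finset.mem_inter, Finset.mem_filter, Finset.mem_univ, true_and, Str_mem_up] at hz
      obtain ⟨x, h1, h2⟩ := h.surj z i hz.2
      refine ⟨x, ?_, h2⟩
      simp only [Finset.mem_inter, Finset.mem_filter, Finset.mem_univ, true_and, Str_mem_Jr]
      rw [← h.vb_eq, h2]
      exact ⟨⟨hz.1.1, (Str_fix h hz.2).symm.trans hz.1.2⟩, h1⟩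
  obtain ⟨τ, hτ, h1⟩ := exists_W_fib (fun x => (σ x, decide (x ∈ up Q l i)))
    (fun x => (σ x, decide (x ∈ Jr Q ρ i))) (by
      rintro j ⟨y, b⟩
      have k1 := key j y
      have k2 := Finset.card_sdiff_add_card_inter
        (Finset.univ.filter fun x => Q.vb x = j ∧ σ x = y) (Jr Q ρ i)
      have k3 := Finset.card_sdiff_add_card_inter
        (Finset.univ.filter fun x => Q.vb x = j ∧ σ x = y) (up Q l i)
      cases b with
      | false =>
        have e : ∀ F : Pc Q, (Finset.univ.filter fun x => Q.vb x = j ∧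
            (σ x, decide (x ∈ F)) = (y, false)) =
            (Finset.univ.filter fun x => Q.vb x = j ∧ σ x = y) \ F := by
          intro F
          ext x
          simp [and_assoc]
        rw [e, e]
        omega
      | true =>
        have e : ∀ F : Pc Q, (Finset.univ.filter fun x => Q.vb x = j ∧
            (σ x, decide (x ∈ F)) = (y, true)) =
            (Finset.univ.filter fun x => Q.vb x = j ∧ σ x = y) ∩ F := by
          intro F
          ext x
          simp [and_assoc]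
        rw [e, e]
        omega)
  refine ⟨τ, hτ, fun x => (Prod.mk.inj (h1 x)).1, ?_⟩
  ext x
  have h2 := (Prod.mk.inj (h1 (wb Q τ⁻¹ x))).2
  rw [wb_wb_inv hτ, decide_eq_decide] at h2
  rw [mem_wS, h2]

theorem res_xv {σ : Bt Q → Bt Q} (h : σ none = none) (x : Bt Q) :
    resA Q σ (Q.xv x) = Q.xv (σ x) := by
  cases x with
  | none =>
    rw [h]
    exact map_zero _
  | some k => exact aeval_X _ _

theorem res_X_inr (σ : Bt Q → Bt Q) (a : Fin Q.nT) :
    resA Q σ (X (Sum.inr a)) = X (Sum.inr a) := aeval_X _ _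

theorem res_rename {σ : Bt Q → Bt Q} {w : Equiv.Perm Q.Var} (hw : w ∈ Wl Q.lab)
    (h : ∀ x, σ (wb Q w x) = σ x) (p : Q.Pol) : resA Q σ (rename w p) = resA Q σ p := by
  have e : (resA Q σ).comp (rename w) = resA Q σ := by
    refine algHom_ext fun v => ?_
    rw [AlgHom.comp_apply, rename_X]
    cases v with
    | inl k =>
      obtain ⟨k', hk, -⟩ := W_inl hw k
      have h1 := h (some k)
      rw [wb_some hk] at h1
      rw [hk]
      unfold resA
      rw [aeval_X, aeval_X, Sum.elim_inl, Sum.elim_inl, h1]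
    | inr a => rw [W_inr hw]
  exact AlgHom.congr_fun e p

theorem res_pS_fix {l : Q.Lam} {ρ : Bt Q → ℕ} {σ : Bt Q → Bt Q} (h : StrD Q l ρ σ) {F : Pc Q}
    (hF : F ⊆ up Q l 0) (j : Fin Q.nI) (a : ℕ) : resA Q σ (pS Q F j a) = pS Q F j a := by
  unfold pS
  rw [map_sum]
  refine Finset.sum_congr rfl fun k hk => ?_
  have h1 : σ (some k) = some k :=
    Str_fix (i := 0) h (Str_mem_up.1 (hF (Finset.mem_filter.1 hk).2.1))
  unfold resA
  rw [map_pow, aeval_X, Sum.elim_inl, h1]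
  rfl

theorem res_pS_Jr {l : Q.Lam} {ρ : Bt Q → ℕ} {σ : Bt Q → Bt Q} (h : StrD Q l ρ σ) (i : ℕ)
    (j : Fin Q.nI) (a : ℕ) : resA Q σ (pS Q (Jr Q ρ i) j a) = pS Q (up Q l i) j a := by
  obtain ⟨τ, hτ, h1, h2⟩ := exists_tau h i
  rw [← h2, ← rename_pS hτ, res_rename hτ h1]
  exact res_pS_fix h
    (fun x hx => Str_mem_up.2 ((Int.natCast_nonneg i).trans (Str_mem_up.1 hx))) j a

theorem pS_compl_eq {ρ : Bt Q → ℕ} {N : ℕ} (hN : ∀ x, ρ x < N) (j : Fin Q.nI) (a : ℕ) :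
    pS Q (Jr Q ρ 0)ᶜ j a = ∑ i ∈ Finset.Ico 1 N, pS Q (Jr Q ρ i) j a := by
  unfold pS
  rw [← Finset.sum_fiberwise_of_maps_to (t := Finset.Ico 1 N) (g := fun k => ρ (some k))]
  · refine Finset.sum_congr rfl fun i hi => Finset.sum_congr ?_ fun _ _ => rfl
    have h1 := (Finset.mem_Ico.1 hi).1
    ext k
    simp only [Finset.mem_filter, Finset.mem_univ, true_and, Finset.mem_compl, Str_mem_Jr]
    exact ⟨fun h => ⟨h.2, h.1.2⟩, fun h => ⟨⟨by omega, h.2⟩, h.1⟩⟩
  · intro k hk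
    simp only [Finset.mem_filter, Finset.mem_univ, true_and, Finset.mem_compl, Str_mem_Jr] at hk
    exact Finset.mem_Ico.2 ⟨by omega, hN _⟩

theorem Jr_zero_eq {l : Q.Lam} {ρ : Bt Q → ℕ} {σ : Bt Q → Bt Q} (h : StrD Q l ρ σ) :
    Jr Q ρ 0 = up Q l 0 := by
  ext x
  rw [Str_mem_Jr, Str_mem_up, h.zero_iff]

end Pool.Agent.HK.AC
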