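import Pool.Agent.P.MP_1206ce_ag.AC.Key
import Pool.Agent.P.MP_1206ce_ag.AC.Cz2

/-! Polynomials in the monopole ideal are decomposable. -/

noncomputable section

open MvPolynomial

namespace Pool.Agent.HK.AC

variable {Q : Qv}

/-- The coefficient at `m` as a linear map. -/
def Sub_cf (m : Q.Lam) : Q.AA →ₗ[ℂ] Q.Frac where
  toFun z := z.coeff m
  map_add' _ _ := rfl
  map_smul' _ _ := rfl

theorem supp_TT {t : Q.AA} (ht : t ∈ TT Q) {m : Q.Lam} (hm : t.coeff m ≠ 0) : m ∈ U01 Q := by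
  by_contra hn
  have h : TT Q ≤ LinearMap.ker (Sub_cf m) := iSup_le fun F => iSup_le fun _ z hz => by
    by_contra h0
    exact hn (SuppL_compl F (supp_PL hz h0))
  exact hm (h ht)

theorem Sub_pair_le {F : Pc Q} (h : NT Q F) : PL Q [F, Fᶜ] ≤ TT Q :=
  le_iSup₂_of_le (f := fun F (_ : NT Q F) => PL Q [F, Fᶜ]) F h le_rfl

theorem Sd_le_TT {l : Q.Lam} (h : l ∈ U01 Q) (h0 : l ≠ 0) : Sd Q l ≤ TT Q := by
  obtain ⟨F, hF, h1⟩ := U01_chain h h0
  exact (PL_congr h1).le.trans (Sub_pair_le hF)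

/-- Strong induction on `msL L`. If some step leads to a trivial list use `step_triv`; otherwise
`Low L ≤ J` by induction. Then `desc_or_incomp`: `incomp_low`, or `PL L = PL M = Sd l` for a
decreasing `M` with sum `l ≠ 0` and `Low M = Low L`; use `Sd_le_TT` or `hJ` and `key`. -/
theorem PL_le_J (hT : TRA Q) (J : Submodule ℂ Q.AA) (hTT : TT Q ≤ J)
    (hJ : ∀ l, l ≠ 0 → l ∉ U01 Q → ∀ z ∈ Sd Q l, ∃ c ∈ J, c ∈ Sd Q l ∧ (z - c).coeff l = 0)
    {L : List (Pc Q)} (hL : 0 < msL Q L) : PL Q L ≤ J := by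
  induction hn : msL Q L using Nat.strong_induction_on generalizing L with
  | _ n ih =>
  by_cases h : ∃ L', Step Q L L' ∧ msL Q L' = 0
  · obtain ⟨L', h1, h2⟩ := h
    obtain ⟨F, F', R, h3, h4, h5, h6⟩ := step_triv h1 h2
    have h7 : PL Q L = PL Q [F, Fᶜ] := by
      rw [PL_perm h3]
      show PL Q ([F, F'] ++ R) = _
      rw [PL_append, PL_triv h6, Submodule.mul_comm, Hs_mul_PL]
      exact PL_congr (by simp only [List.map_cons, h5, List.map_nil])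
    rw [h7]
    exact (Sub_pair_le h4).trans hTT
  have hLow : Low Q L ≤ J := iSup_le fun L' => iSup_le fun h1 =>
    ih _ (hn ▸ msL_step h1) (Nat.pos_of_ne_zero fun h2 => h ⟨L', h1, h2⟩) rfl
  rcases desc_or_incomp L with ⟨M, hM, hp⟩ | ⟨F, F', R, h1, h2, h3⟩
  · have h0 : sumL Q M ≠ 0 := fun h1 => by
      have h2 := msL_ntL M
      rw [ntL_eq_chainOf hM, h1, msL_perm_dm hp] at h2
      have h3 : chainOf Q 0 = [] := by simp [chainOf, Qv.nsq, rl, ntL]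
      rw [h3] at h2
      exact hL.ne h2
    rw [← PL_perm_dm hp]
    by_cases hU : sumL Q M ∈ U01 Q
    · rw [PL_eq_Sd hM]
      exact (Sd_le_TT hU h0).trans hTT
    · intro z hz
      obtain ⟨c, c1, c2, c3⟩ := hJ _ h0 hU z (PL_eq_Sd hM ▸ hz)
      have h1 := key hT hM (sub_mem hz (PL_eq_Sd hM ▸ c2)) c3
      rw [Low_perm_dm hp] at h1
      simpa using add_mem (hLow h1) c1
  · exact (incomp_low hT h1 h2 h3).trans hLow

theorem Sub_compl {M N : Type} [AddCommGroup M] [Module ℂ M] [AddCommGroup N] [Module ℂ N]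
    (S : Submodule ℂ M) (φ : M →ₗ[ℂ] N) : ∃ C : Submodule ℂ M, C ≤ S ∧
      (∀ c ∈ C, φ c = 0 → c = 0) ∧ ∀ z ∈ S, ∃ c ∈ C, φ (z - c) = 0 := by
  obtain ⟨q, hq⟩ := Submodule.exists_isCompl (LinearMap.ker (φ.comp S.subtype))
  refine ⟨q.map S.subtype, Submodule.map_subtype_le _ _, ?_, fun z hz => ?_⟩
  · rintro _ ⟨c, hc, rfl⟩ h
    rw [(Submodule.disjoint_def.1 hq.disjoint) c h hc, map_zero]
  · obtain ⟨a, ha, b, hb, h⟩ := Submodule.mem_sup.1
      (hq.sup_eq_top ▸ Submodule.mem_top : (⟨z, hz⟩ : S) ∈ LinearMap.ker (φ.comp S.subtype) ⊔ q)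
    refine ⟨b, ⟨b, hb, rfl⟩, ?_⟩
    have h1 : z - b = a := by
      rw [sub_eq_iff_eq_add]
      exact (congrArg Subtype.val h).symm
    rw [h1]
    exact ha

theorem Sub_rep : ∃ rep : Q.Lam → Q.Lam, (∀ l, WO Q l (rep l)) ∧
    ∀ l m, WO Q l m → rep l = rep m := by
  refine ⟨fun l => Classical.epsilon (WO Q l), fun l => Classical.epsilon_spec ⟨l, WO_refl l⟩,
    fun l m h => ?_⟩
  have h1 : WO Q l = WO Q m :=
    funext fun n => propext ⟨WO_trans (WO_symm h), WO_trans h⟩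
  simp only [h1]

/-- Choose a representative `rep l` in every orbit and a complement `C l` of
`{z ∈ Sd l | z.coeff l = 0}` in `Sd l`; `J = TT ⊔ ⨆ C l` over representatives `l ≠ 0`, `l ∉ U01`.
If `z = t + ∑ c l` look at the coefficient of a point `l` with `c l ≠ 0` and maximal `nsq`. -/
theorem mem_TT (hT : TRA Q) {z : Q.AA} (hz : z ∈ II Q)
    (hs : ∀ m, z.coeff m ≠ 0 → m ∈ U01 Q) : z ∈ TT Q := by
  classical
  obtain ⟨rep, r1, r2⟩ := Sub_rep (Q := Q)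
  choose C C1 C2 C3 using fun l : Q.Lam => Sub_compl (Sd Q l) (Sub_cf l)
  have hle : II Q ≤ TT Q ⊔ ⨆ l : {l : Q.Lam // rep l = l ∧ l ∉ U01 Q}, C l.1 := by
    refine iSup_le fun L => iSup_le fun hL => PL_le_J hT _ le_sup_left (fun l _ hU y hy => ?_) hL
    obtain ⟨w, hw, hr⟩ := r1 l
    have h1 : Sd Q (rep l) = Sd Q l := by rw [hr, Sd_wl hw]
    have h2 : rep l ∉ U01 Q := fun h => by
      obtain ⟨w', hw', h'⟩ := WO_symm (r1 l)
      exact hU (h' ▸ U01_wl hw' h)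
    obtain ⟨c, c1, c2⟩ := C3 (rep l) y (h1 ▸ hy)
    have h3 : c ∈ Sd Q l := h1 ▸ C1 _ c1
    refine ⟨c, Submodule.mem_sup_right (Submodule.mem_iSup_of_mem
      (⟨rep l, (r2 _ _ (r1 l)).symm, h2⟩ : {l : Q.Lam // rep l = l ∧ l ∉ U01 Q}) c1), h3, ?_⟩
    exact coeff_WO hT (PL_le_AG _ (sub_mem hy h3)) (WO_symm (r1 l)) c2
  obtain ⟨t, ht, s, hs', rfl⟩ := Submodule.mem_sup.1 (hle hz)
  obtain ⟨f, hf, rfl⟩ := (Submodule.mem_iSup_iff_exists_finsupp _ s).1 hs'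
  rcases f.support.eq_empty_or_nonempty with h0 | h0
  · rw [Finsupp.sum, h0, Finset.sum_empty, add_zero]
    exact ht
  exfalso
  obtain ⟨l, hl, hmax⟩ := f.support.exists_max_image (fun l => Q.nsq l.1) h0
  have h1 : Sub_cf l.1 (t + f.sum fun _ x => x) = 0 := by
    by_contra h
    exact l.2.2 (hs _ h)
  have h2 : Sub_cf l.1 t = 0 := by
    by_contra h
    exact l.2.2 (supp_TT ht h)
  rw [map_add, h2, zero_add, Finsupp.sum, map_sum, Finset.sum_eq_single_of_mem l hl] at h1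
  · exact Finsupp.mem_support_iff.1 hl (C2 _ _ (hf l) h1)
  · intro m hm hne
    by_contra h
    have h3 := (top_orb_chain (supp_PL (C1 _ (hf m)) h)).2 (hmax m hm)
    exact hne (Subtype.ext (m.2.1.symm.trans ((r2 _ _ h3).trans l.2.1)))

theorem I0_of_mem_II (hT : TRA Q) {h : Q.Pol} (hh : h ∈ Rinv Q.lab) (hI : Q.iota h ∈ II Q) :
    h ∈ Q.I0 := by
  have h1 : Q.iota h ∈ TT Q := mem_TT hT hI fun m hm => by
    have h2 : m = 0 := by
      by_contra h3
      exact hm (iota_coeff_ne h h3)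
    rw [h2]
    exact ⟨fun _ => by simp, chg_zero⟩
  obtain ⟨p, hp, h2⟩ := TT_C0 h1
  exact ⟨hh, C0_unique h2 (C0_iota h) ▸ hp⟩

end Pool.Agent.HK.AC
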