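import Pool.Agent.P.MP_1206ce_ag.AC.Tri
import Pool.Agent.P.MP_1206ce_ag.AC.Cz2
import Pool.Agent.P.MP_1206ce_ag.AC.Kill

/-! Decomposable polynomials lie in the monopole ideal. -/

noncomputable section

open MvPolynomial

namespace Pool.Agent.HK.AC

variable {Q : Qv}

theorem Sup_Sd_eq_up {l : Q.Lam} (hl : l ∈ Ss Q) {ρ : Bt Q → ℕ} {σ : Bt Q → Bt Q}
    (h : StrD Q l ρ σ) {N : ℕ} (hN : ∀ x, ρ x < N) :
    Sd Q l = PL Q (rl Q N fun i => up Q l i) := by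
  have h1 := PL_eq_Sd (desc_up l N)
  rw [strD_sumL hl h hN] at h1
  exact h1.symm

theorem Sd_eq_Jr {l : Q.Lam} (hl : l ∈ Ss Q) {ρ : Bt Q → ℕ} {σ : Bt Q → Bt Q} (h : StrD Q l ρ σ)
    {N : ℕ} (hN : ∀ x, ρ x < N) : Sd Q l = PL Q (rl Q N (Jr Q ρ)) := by
  rw [Sup_Sd_eq_up hl h hN]
  exact (PL_congr (map_dm_rl fun i _ => strD_dm h i)).symm

/-- Elements whose constant coefficient is killed by the restriction. -/
def Sup_T (σ : Bt Q → Bt Q) : Submodule ℂ Q.AA where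
  carrier := {z | ∃ p, C0 Q z p ∧ resA Q σ p = 0}
  add_mem' := by
    rintro x y ⟨p, hp, hp0⟩ ⟨q, hq, hq0⟩
    exact ⟨p + q, C0_add hp hq, by rw [map_add, hp0, hq0, add_zero]⟩
  zero_mem' := ⟨0, C0_zero_iff.2 rfl, map_zero _⟩
  smul_mem' := by
    rintro a x ⟨p, hp, hp0⟩
    exact ⟨a • p, C0_smul a hp, by rw [map_smul, hp0, smul_zero]⟩

theorem lower_res (hT : TRA Q) {l : Q.Lam} (hl : l ∈ Ss Q) {ρ : Bt Q → ℕ} {σ : Bt Q → Bt Q}
    (h : StrD Q l ρ σ) {z : Q.AA} (hz : z ∈ AG Q)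
    (hs : ∀ m, z.coeff m ≠ 0 → m ∈ Ss Q ∧ Q.nsq m ≤ Q.nsq l ∧ ¬ WO Q l m) :
    ∃ p, C0 Q z p ∧ resA Q σ p = 0 := by
  refine tri hT {m | m ∈ Ss Q ∧ Q.nsq m ≤ Q.nsq l ∧ ¬ WO Q l m} ?_ (Sup_T σ) ?_ hz hs
  · rintro m ⟨hm, hle, hn⟩ m' hm'
    obtain ⟨h1, h2⟩ := top_orb_chain hm'
    refine ⟨Ss_closed hm hm', h1.trans hle, fun hw => hn ?_⟩
    have e : Q.nsq m' = Q.nsq l := by
      obtain ⟨w, hw, rfl⟩ := hw
      exact nsq_wl hw l
    exact WO_trans hw (WO_symm (h2 (by rw [e]; exact hle)))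
  · rintro m ⟨hm, hle, hn⟩ y hy
    obtain ⟨ρ', σ', h'⟩ := exists_strD hm
    obtain ⟨N, hN⟩ := exists_bound ρ'
    rw [Sd_eq_Jr hm h' hN] at hy
    obtain ⟨G, hG⟩ := czero_ex hN hy
    exact ⟨_, hG, res_sym_lower hl hm h h' hle hn G⟩

/-- Pairs of products. -/
def Sup_P (l : Q.Lam) (N : ℕ) (τ : ℕ → Equiv.Perm Q.Var) : Set (Q.Pol × Q.Pol) :=
  {q | ∃ (f : ℕ → Q.Pol) (h : Q.Pol), (∀ i < N, f i ∈ RL Q (mu Q (up Q l i))) ∧ h ∈ Rinv Q.lab ∧
    q = ((∏ i ∈ Finset.range N, f i) * h, (∏ i ∈ Finset.range N, rename (τ i) (f i)) * h)}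

theorem Sup_P_mul {l : Q.Lam} {N : ℕ} {τ : ℕ → Equiv.Perm Q.Var} {q q' : Q.Pol × Q.Pol}
    (hq : q ∈ Sup_P l N τ) (hq' : q' ∈ Sup_P l N τ) : q * q' ∈ Sup_P l N τ := by
  obtain ⟨f, h, hf, hh, rfl⟩ := hq
  obtain ⟨f', h', hf', hh', rfl⟩ := hq'
  refine ⟨fun i => f i * f' i, h * h', fun i hi => mul_mem (hf i hi) (hf' i hi), mul_mem hh hh', ?_⟩
  simp only [Prod.mk_mul_mk, map_mul, Finset.prod_mul_distrib, Prod.mk.injEq]
  constructor <;> ring

theorem Sup_span_mul {l : Q.Lam} {N : ℕ} {τ : ℕ → Equiv.Perm Q.Var} {q q' : Q.Pol × Q.Pol}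
    (hq : q ∈ Submodule.span ℂ (Sup_P l N τ)) (hq' : q' ∈ Submodule.span ℂ (Sup_P l N τ)) :
    q * q' ∈ Submodule.span ℂ (Sup_P l N τ) := by
  have h1 : q * q' ∈ Submodule.span ℂ (Sup_P l N τ) * Submodule.span ℂ (Sup_P l N τ) :=
    Submodule.mul_mem_mul hq hq'
  rw [Submodule.span_mul_span] at h1
  refine Submodule.span_mono ?_ h1
  rintro _ ⟨a, ha, b, hb, rfl⟩
  exact Sup_P_mul ha hb

theorem Sup_P_inv {l : Q.Lam} {N : ℕ} {τ : ℕ → Equiv.Perm Q.Var} {h : Q.Pol}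
    (hh : h ∈ Rinv Q.lab) : (h, h) ∈ Sup_P l N τ :=
  ⟨fun _ => 1, h, fun _ _ => one_mem _, hh, by simp⟩

theorem Sup_P_single {l : Q.Lam} {N : ℕ} {τ : ℕ → Equiv.Perm Q.Var} {i : ℕ} (hi : i < N)
    {f : Q.Pol} (hf : f ∈ RL Q (mu Q (up Q l i))) : (f, rename (τ i) f) ∈ Sup_P l N τ := by
  refine ⟨fun j => if j = i then f else 1, 1, fun j _ => ?_, one_mem _, ?_⟩
  · by_cases hj : j = i
    · subst hj
      simpa using hf
    · simp only [if_neg hj]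
      exact one_mem _
  · have e : ∀ j, rename (τ j) (if j = i then f else 1) = if j = i then rename (τ i) f else 1 := by
      intro j
      by_cases hj : j = i
      · subst hj
        simp
      · simp [hj]
    simp only [e, Finset.prod_ite_eq', Finset.mem_range, if_pos hi, mul_one]

/-- The subalgebra of all `g` with a partner and with `g - r g` paired with zero. -/
def Sup_A0 {R : Type} [CommRing R] [Algebra ℂ R] (M : Submodule ℂ (R × R))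
    (hm : ∀ q ∈ M, ∀ q' ∈ M, q * q' ∈ M) (h1 : ∀ c : ℂ, (algebraMap ℂ R c, algebraMap ℂ R c) ∈ M)
    (r : R →ₐ[ℂ] R) : Subalgebra ℂ R where
  carrier := {g | (∃ G, (g, G) ∈ M) ∧ (g - r g, (0 : R)) ∈ M}
  mul_mem' := by
    rintro a b ⟨⟨A, hA⟩, ha⟩ ⟨⟨B, hB⟩, hb⟩
    refine ⟨⟨A * B, hm _ hA _ hB⟩, ?_⟩
    have e : (a * b - r (a * b), (0 : R)) = (a, A) * (b - r b, 0) +
        ((b, B) - (b - r b, 0)) * (a - r a, 0) := by
      simp only [Prod.mk_mul_mk, Prod.mk_sub_mk, Prod.mk_add_mk, map_mul, Prod.mk.injEq]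
      constructor <;> ring
    rw [e]
    exact add_mem (hm _ hA _ hb) (hm _ (sub_mem hB hb) _ ha)
  add_mem' := by
    rintro a b ⟨⟨A, hA⟩, ha⟩ ⟨⟨B, hB⟩, hb⟩
    refine ⟨⟨A + B, add_mem hA hB⟩, ?_⟩
    have e : (a + b - r (a + b), (0 : R)) = (a - r a, 0) + (b - r b, 0) := by
      simp only [Prod.mk_add_mk, map_add, Prod.mk.injEq]
      constructor <;> ring
    rw [e]
    exact add_mem ha hb
  algebraMap_mem' := by
    intro c
    refine ⟨⟨_, h1 c⟩, ?_⟩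
    rw [AlgHom.commutes, sub_self]
    exact zero_mem _

/-- The subalgebra `Sup_A0` for pairs of products. -/
def Sup_A (l : Q.Lam) (N : ℕ) (τ : ℕ → Equiv.Perm Q.Var) (σ : Bt Q → Bt Q) :
    Subalgebra ℂ Q.Pol :=
  Sup_A0 (Submodule.span ℂ (Sup_P l N τ)) (fun _ h _ h' => Sup_span_mul h h')
    (fun c => Submodule.subset_span (Sup_P_inv (Subalgebra.algebraMap_mem _ c))) (resA Q σ)

theorem Sup_mem_A {l : Q.Lam} {N : ℕ} {τ : ℕ → Equiv.Perm Q.Var} {σ : Bt Q → Bt Q} {g : Q.Pol} :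
    g ∈ Sup_A l N τ σ ↔ (∃ G, (g, G) ∈ Submodule.span ℂ (Sup_P l N τ)) ∧
      (g - resA Q σ g, (0 : Q.Pol)) ∈ Submodule.span ℂ (Sup_P l N τ) := Iff.rfl

theorem Sup_mem_A_of_fix {l : Q.Lam} {N : ℕ} {τ : ℕ → Equiv.Perm Q.Var} {σ : Bt Q → Bt Q}
    {g G : Q.Pol} (h : (g, G) ∈ Sup_P l N τ) (hr : resA Q σ g = g) : g ∈ Sup_A l N τ σ := by
  refine Sup_mem_A.2 ⟨⟨G, Submodule.subset_span h⟩, ?_⟩
  rw [hr, sub_self]
  exact zero_mem _

theorem Sup_up_mono (l : Q.Lam) {i j : ℤ} (h : i ≤ j) : up Q l j ⊆ up Q l i := by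
  intro x hx
  simp only [up, Finset.mem_filter, Finset.mem_univ, true_and] at hx ⊢
  exact h.trans hx

theorem Sup_lv_ge {l : Q.Lam} (hl : l ∈ Ss Q) (x : Bt Q) : -1 ≤ Q.lv l x := by
  cases x with
  | none => simp [Qv.lv]
  | some k => exact hl.1 k

theorem Sup_RL_le {l : Q.Lam} (hl : l ∈ Ss Q) {ρ : Bt Q → ℕ} {σ : Bt Q → Bt Q} (h : StrD Q l ρ σ)
    {N : ℕ} (hN : ∀ x, ρ x < N) {τ : ℕ → Equiv.Perm Q.Var} (hτ : ∀ i, τ i ∈ Wl Q.lab)
    (hJ : ∀ i : ℕ, wS Q (τ i) (up Q l i) = Jr Q ρ i) : RL Q l ≤ Sup_A l N τ σ := by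
  have hN0 : 0 < N := lt_of_le_of_lt (Nat.zero_le _) (hN none)
  have hup : ∀ (i : ℕ) j a, pS Q (up Q l i) j a ∈ Sup_A l N τ σ := by
    intro i j a
    by_cases hi : i < N
    · exact Sup_mem_A_of_fix (Sup_P_single hi (pS_mem_RL _ j a))
        (res_pS_fix h (Sup_up_mono l (Int.natCast_nonneg i)) j a)
    · have e : up Q l i = ∅ := by
        refine Finset.eq_empty_of_forall_notMem fun y hy => hi ?_
        simp only [up, Finset.mem_filter, Finset.mem_univ, true_and] at hy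
        obtain ⟨x, hx, -⟩ := h.surj y i hy
        rw [← hx]
        exact hN x
      rw [e, pS_empty]
      exact zero_mem _
  have hpair : ∀ i < N, ∀ j a, (pS Q (up Q l i) j a, pS Q (Jr Q ρ i) j a) ∈ Sup_P l N τ := by
    intro i hi j a
    have h1 := Sup_P_single (τ := τ) hi (pS_mem_RL (up Q l i) j a)
    rwa [rename_pS (hτ i), hJ i] at h1
  have hneg : ∀ j a, pS Q (Jr Q ρ 0)ᶜ j a ∈ Sup_A l N τ σ := by
    intro j a
    have h0 : up Q l ((0 : ℕ) : ℤ) = Jr Q ρ 0 := (Jr_zero_eq h).symm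
    have h1 := Sup_P_single (τ := τ) hN0 (pS_compl_mem_RL (up Q l ((0 : ℕ) : ℤ)) j a)
    rw [rename_pS (hτ 0), wS_compl, hJ 0, h0] at h1
    refine Sup_mem_A.2 ⟨⟨_, Submodule.subset_span h1⟩, ?_⟩
    have h2 : (∑ i ∈ Finset.Ico 1 N, (pS Q (up Q l i) j a, pS Q (Jr Q ρ i) j a)) ∈
        Submodule.span ℂ (Sup_P l N τ) :=
      sum_mem fun i hi => Submodule.subset_span (hpair i (Finset.mem_Ico.1 hi).2 j a)
    have e1 : resA Q σ (pS Q (Jr Q ρ 0)ᶜ j a) = ∑ i ∈ Finset.Ico 1 N, pS Q (up Q l i) j a := by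
      rw [pS_compl_eq hN, map_sum]
      exact Finset.sum_congr rfl fun i _ => res_pS_Jr h i j a
    have e : (pS Q (Jr Q ρ 0)ᶜ j a - resA Q σ (pS Q (Jr Q ρ 0)ᶜ j a), (0 : Q.Pol)) =
        (pS Q (Jr Q ρ 0)ᶜ j a, pS Q (Jr Q ρ 0)ᶜ j a) -
          ∑ i ∈ Finset.Ico 1 N, (pS Q (up Q l i) j a, pS Q (Jr Q ρ i) j a) := by
      refine Prod.ext ?_ ?_
      · simp only [Prod.fst_sub, Prod.fst_sum, e1]
      · simp only [Prod.snd_sub, Prod.snd_sum]
        rw [← pS_compl_eq hN, sub_self]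
    rw [e]
    exact sub_mem (Submodule.subset_span h1) h2
  refine RL_le l _ (fun a => Sup_mem_A_of_fix (Sup_P_inv (X_inr_mem a)) (res_X_inr σ a))
    fun c j a => ?_
  rcases lt_trichotomy c (-1) with hc | hc | hc
  · have e : (Finset.univ.filter fun x => Q.lv l x = c) = ∅ := by
      refine Finset.eq_empty_of_forall_notMem fun y hy => ?_
      simp only [Finset.mem_filter, Finset.mem_univ, true_and] at hy
      have := Sup_lv_ge hl y
      omega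
    rw [e, pS_empty]
    exact zero_mem _
  · have e : (Finset.univ.filter fun x => Q.lv l x = c) = (Jr Q ρ 0)ᶜ := by
      ext y
      simp only [Jr, Finset.mem_filter, Finset.mem_univ, true_and, Finset.mem_compl, h.zero_iff]
      have := Sup_lv_ge hl y
      omega
    rw [e]
    exact hneg j a
  · obtain ⟨i, rfl⟩ : ∃ i : ℕ, c = i := ⟨c.toNat, by omega⟩
    have hd : Disjoint (Finset.univ.filter fun x => Q.lv l x = (i : ℤ))
        (up Q l ((i + 1 : ℕ) : ℤ)) := by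
      refine Finset.disjoint_left.2 fun y hy hy' => ?_
      simp only [up, Finset.mem_filter, Finset.mem_univ, true_and] at hy hy'
      omega
    have hu : (Finset.univ.filter fun x => Q.lv l x = (i : ℤ)) ∪ up Q l ((i + 1 : ℕ) : ℤ) =
        up Q l i := by
      ext y
      simp only [up, Finset.mem_union, Finset.mem_filter, Finset.mem_univ, true_and]
      omega
    have e := pS_union hd j a
    rw [hu] at e
    rw [eq_sub_of_add_eq e.symm]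
    exact sub_mem (hup i j a) (hup (i + 1) j a)

theorem exists_c0_zero (hU : UF Q) {l : Q.Lam} (hl : l ∈ Ss Q) {ρ : Bt Q → ℕ} {σ : Bt Q → Bt Q}
    (h : StrD Q l ρ σ) {y : Q.AA} (hy : y ∈ Sd Q l) {g p : Q.Pol} (lg : Lead Q l y g)
    (hp : C0 Q y p) (h0 : resA Q σ p = 0) :
    ∃ y' ∈ Sd Q l, Lead Q l y' g ∧ y'.coeff 0 = 0 := by
  obtain ⟨N, hN⟩ := exists_bound ρ
  choose τ hτ hσ hJ using exists_tau h
  obtain ⟨κ, hκ, hz⟩ := czero hN
  have hSd := Sup_Sd_eq_up hl h hN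
  have hsum := strD_sumL hl h hN
  have hren : ∀ (i : ℕ) (f : Q.Pol), f ∈ RL Q (mu Q (up Q l i)) →
      rename (τ i) f ∈ RL Q (mu Q (Jr Q ρ i)) := by
    intro i f hf
    have h1 := rename_mem_RL (hτ i) hf
    rwa [wl_mu (hτ i), hJ i] at h1
  have hbase : ∀ (f : ℕ → Q.Pol) (k : Q.Pol), (∀ i < N, f i ∈ RL Q (mu Q (up Q l i))) →
      k ∈ Rinv Q.lab →
      Lead Q l ((∏ i ∈ Finset.range N, MF Q (up Q l i) (f i)) * Q.iota k)
          ((∏ i ∈ Finset.range N, f i) * k) ∧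
        C0 Q ((∏ i ∈ Finset.range N, MF Q (up Q l i) (f i)) * Q.iota k)
          (κ • Sym Q.lab ((∏ i ∈ Finset.range N, rename (τ i) (f i)) * k * DA Q ρ)) := by
    intro f k hf hk
    refine ⟨?_, ?_⟩
    · have h1 := lead_rl (desc_up l N) hf k
      rwa [hsum] at h1
    · have h1 := hz (fun i => rename (τ i) (f i)) k (fun i hi => hren i _ (hf i hi)) hk
      have e : ∀ i, MF Q (Jr Q ρ i) (rename (τ i) (f i)) = MF Q (up Q l i) (f i) := by
        intro i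
        rw [← hJ i, MF_wS (hτ i)]
      simpa only [e] using h1
  have ha : ∀ q ∈ Submodule.span ℂ (Sup_P l N τ), ∃ y ∈ Sd Q l, Lead Q l y q.1 ∧
      C0 Q y (κ • Sym Q.lab (q.2 * DA Q ρ)) := by
    intro q hq
    induction hq using Submodule.span_induction with
    | mem q hq =>
      obtain ⟨f, k, hf, hk, rfl⟩ := hq
      refine ⟨_, ?_, hbase f k hf hk⟩
      rw [hSd]
      exact prod_mem_PL_rl N (fun i => up Q l i) f hk
    | zero =>
      refine ⟨0, zero_mem _, Lead_zero_iff.2 rfl, ?_⟩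
      simpa using C0_zero_iff.2 (rfl : (0 : Q.AA).coeff 0 = 0)
    | add q q' _ _ h1 h2 =>
      obtain ⟨y, hy, l1, c1⟩ := h1
      obtain ⟨y', hy', l2, c2⟩ := h2
      refine ⟨y + y', add_mem hy hy', Lead_add l1 l2, ?_⟩
      have := C0_add c1 c2
      rwa [← smul_add, ← map_add, ← add_mul] at this
    | smul a q _ h1 =>
      obtain ⟨y, hy, l1, c1⟩ := h1
      refine ⟨a • y, Submodule.smul_mem _ a hy, Lead_smul a l1, ?_⟩
      have := C0_smul a c1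
      rwa [smul_comm, ← map_smul, ← smul_mul_assoc] at this
  have hc : ∀ q ∈ Submodule.span ℂ (Sup_P l N τ),
      resA Q σ q.1 = resA Q σ q.2 ∧ q.2 ∈ Rinv (Q.labr ρ) := by
    intro q hq
    induction hq using Submodule.span_induction with
    | mem q hq =>
      obtain ⟨f, k, hf, hk, rfl⟩ := hq
      refine ⟨?_, mul_mem (prod_mem fun i hi => ?_) (Rinv_le_labr ρ hk)⟩
      · simp only [map_mul, map_prod, res_rename (hτ _) (hσ _)]
      · exact RL_Jr_le ρ i (hren i _ (hf i (Finset.mem_range.1 hi)))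
    | zero => exact ⟨rfl, zero_mem _⟩
    | add q q' _ _ h1 h2 =>
      exact ⟨by rw [Prod.fst_add, Prod.snd_add, map_add, map_add, h1.1, h2.1], add_mem h1.2 h2.2⟩
    | smul a q _ h1 =>
      exact ⟨by rw [Prod.smul_fst, Prod.smul_snd, map_smul, map_smul, h1.1],
        Subalgebra.smul_mem _ h1.2 a⟩
  let T : Submodule ℂ Q.AA :=
    { carrier := {y | ∃ q ∈ Submodule.span ℂ (Sup_P l N τ), Lead Q l y q.1 ∧
        C0 Q y (κ • Sym Q.lab (q.2 * DA Q ρ))}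
      add_mem' := by
        rintro x y ⟨q, hq, l1, c1⟩ ⟨q', hq', l2, c2⟩
        refine ⟨q + q', add_mem hq hq', Lead_add l1 l2, ?_⟩
        have := C0_add c1 c2
        rwa [← smul_add, ← map_add, ← add_mul] at this
      zero_mem' := by
        refine ⟨0, zero_mem _, Lead_zero_iff.2 rfl, ?_⟩
        simpa using C0_zero_iff.2 (rfl : (0 : Q.AA).coeff 0 = 0)
      smul_mem' := by
        rintro a x ⟨q, hq, l1, c1⟩
        refine ⟨a • q, Submodule.smul_mem _ a hq, Lead_smul a l1, ?_⟩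
        have := C0_smul a c1
        rwa [smul_comm, ← map_smul, ← smul_mul_assoc] at this }
  have hb : Sd Q l ≤ T := by
    rw [hSd]
    refine PL_rl_le N (fun i => up Q l i) T fun f k hf hk => ?_
    exact ⟨_, Submodule.subset_span ⟨f, k, hf, hk, rfl⟩, hbase f k hf hk⟩
  obtain ⟨q, hq, l1, c1⟩ := hb hy
  have e1 : q.1 = g := Lead_unique l1 lg
  have e2 := C0_unique hp c1
  rw [e2, map_smul, smul_eq_zero] at h0
  have e3 : resA Q σ q.2 = 0 := res_sym hU h (hc q hq).2 (h0.resolve_left hκ)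
  have e4 : resA Q σ g = 0 := by rw [← e1, (hc q hq).1, e3]
  have hg : g ∈ RL Q l := by
    obtain ⟨g', hg', l2⟩ := exists_lead (chainOf_desc l) hy
    rw [sumL_chainOf] at hg' l2
    rwa [Lead_unique lg l2]
  have h5 := (Sup_mem_A.1 (Sup_RL_le hl h hN hτ hJ hg)).2
  rw [e4, sub_zero] at h5
  obtain ⟨y', hy', l3, c3⟩ := ha _ h5
  refine ⟨y', hy', l3, C0_zero_iff.1 ?_⟩
  simpa using c3

theorem Sup_coeff_sub {x y : Q.AA} {m : Q.Lam} (h : (x - y).coeff m ≠ 0) :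
    x.coeff m ≠ 0 ∨ y.coeff m ≠ 0 := by
  by_contra hc
  rw [not_or, not_not, not_not] at hc
  apply h
  rw [AddMonoidAlgebra.coeff_sub, Finsupp.sub_apply, hc.1, hc.2, sub_zero]

theorem claimK (hT : TRA Q) (hU : UF Q) {z : Q.AA} (hz : z ∈ AG Q)
    (hs : ∀ m, z.coeff m ≠ 0 → m ∈ Ss Q) (h0 : z.coeff 0 = 0) : z ∈ II Q := by
  refine top_ind2 hT {z | z ∈ AG Q ∧ (∀ m, z.coeff m ≠ 0 → m ∈ Ss Q) ∧ z.coeff 0 = 0}
    (fun z hz => hz.1) (II Q) ?_ z ⟨hz, hs, h0⟩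
  rintro z ⟨hz, hs, h0⟩ l hl0 htop g hg lg
  have hl : l ∈ Ss Q := hs l hl0
  have hne : l ≠ 0 := fun e => hl0 (e ▸ h0)
  have hsupp : ∀ y ∈ Sd Q l, ∀ m, (z - y).coeff m ≠ 0 → m ∈ Ss Q ∧ Q.nsq m ≤ Q.nsq l := by
    intro y hy m hm
    rcases Sup_coeff_sub hm with h1 | h1
    · exact ⟨hs m h1, htop m h1⟩
    · exact ⟨Ss_closed hl (supp_PL hy h1), (top_orb_chain (supp_PL hy h1)).1⟩
  obtain ⟨ρ, σ, h⟩ := exists_strD hl
  obtain ⟨y, hy, ly⟩ := lead_onto_Sd hg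
  obtain ⟨p, hp, hp0⟩ := lower_res hT hl h (sub_mem hz (PL_le_AG _ hy)) fun m hm =>
    ⟨(hsupp y hy m hm).1, (hsupp y hy m hm).2, (sub_top hT hz hy (Lead_coeff_eq lg ly) hm).1⟩
  have hc := C0_sub (C0_zero_iff.2 h0) hp
  rw [sub_sub_cancel] at hc
  obtain ⟨y', hy', ly', c0⟩ := exists_c0_zero hU hl h hy ly hc
    (by rw [map_sub, hp0, map_zero, sub_zero])
  refine ⟨y', Sd_le_II hne hy', hy', ly', sub_mem hz (PL_le_AG _ hy'),
    fun m hm => (hsupp y' hy' m hm).1, ?_⟩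
  rw [AddMonoidAlgebra.coeff_sub, Finsupp.sub_apply, h0, c0, sub_zero]

theorem mem_II_of_I0 (hT : TRA Q) (hU : UF Q) {h : Q.Pol} (hh : h ∈ Q.I0) :
    Q.iota h ∈ II Q := by
  obtain ⟨y, hy, hs, hc⟩ := Kdec_c0 hh
  have h1 : Q.iota h - y ∈ II Q := by
    refine claimK hT hU (sub_mem (Hs_le_AG (iota_mem_Hs hh.1)) (II_le_AG hy)) (fun m hm => ?_) ?_
    · rcases Sup_coeff_sub hm with h1 | h1
      · have e : m = 0 := by
          by_contra hne
          exact h1 (iota_coeff_ne h hne)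
        subst e
        exact ⟨fun k => by simp, chg_zero⟩
      · exact hs m h1
    · rw [AddMonoidAlgebra.coeff_sub, Finsupp.sub_apply, iota_coeff_zero, hc, sub_self]
  simpa using add_mem h1 hy

end Pool.Agent.HK.AC
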